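import Pool.Agent.W5h70.Fuj.Fn

/-!
# Positivity in the upper half
-/

set_option autoImplicit false

namespace Pool.Agent.W5h70.Fuj

variable {A : Type} [AddCommGroup A]

/-- Positivity of the Hilbert function of a curve in the upper half of the degrees. -/
theorem half {ι : Type} (w : ι → ℤ × A) (hw : ∀ i, (w i).1 = 1) (h : ℤ × A → ℤ)
    (h0 : ∀ μ, 0 ≤ h μ) (hneg : ∀ μ : ℤ × A, μ.1 < 0 → h μ = 0) (ω : ℤ × A) (b0 : ℤ) (S : Set ι)
    (H1 : ∀ i ∈ S, ∀ γ : ℤ × A, b0 ≤ γ.1 → E γ (E (w i) (h - Rf ω h)) = 0)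
    (i0 : ι) (hi0 : i0 ∈ S) (H2 : ∀ μ : ℤ × A, b0 ≤ μ.1 → h (μ - w i0) < h μ)
    (H3 : ∃ N : ℕ, 0 < N ∧ ∀ i ∈ S, N • w i = N • w i0)
    (H4 : ∃ b : ℕ, ∀ ξ : A, ∃ L : List ι, (∀ i ∈ L, i ∈ S) ∧ L.length = b ∧
      (L.map w).sum = ((b : ℤ), ξ)) :
    ∀ μ : ℤ × A, ω.1 < 2 * μ.1 → 0 < h μ := by
  set δ : ℤ × A → ℤ := h - Rf ω h with hδ
  have hδa : ∀ μ, δ μ = h μ - h (ω - μ) := fun μ => rfl
  -- the differences are constant
  have s1 : ∀ i ∈ S, ∀ μ ν : ℤ × A, E (w i) δ μ = E (w i) δ ν := by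
    intro i hi
    have k : ∀ μ γ : ℤ × A, b0 ≤ γ.1 → E (w i) δ μ = E (w i) δ (μ - γ) := by
      intro μ γ hγ
      have := congrFun (H1 i hi γ hγ) μ
      exact sub_eq_zero.1 this
    intro μ ν
    set κ : ℤ × A := (min μ.1 ν.1 - b0, 0) with hκ
    rw [k μ (μ - κ) (by
        have := min_le_left μ.1 ν.1
        simp only [Prod.fst_sub, hκ]; omega),
      k ν (ν - κ) (by
        have := min_le_right μ.1 ν.1
        simp only [Prod.fst_sub, hκ]; omega), sub_sub_cancel, sub_sub_cancel]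
  have s2 : ∀ i ∈ S, ∀ (k : ℕ) (μ : ℤ × A), δ μ - δ (μ - k • w i) = k * E (w i) δ 0 := by
    intro i hi k
    induction k with
    | zero => intro μ; simp
    | succ k ih =>
      intro μ
      have h1 := ih μ
      have h2 := s1 i hi (μ - k • w i) 0
      have h3 : E (w i) δ (μ - k • w i) = δ (μ - k • w i) - δ (μ - (k + 1) • w i) := by
        unfold E
        rw [succ_nsmul, sub_sub]
      rw [h3] at h2
      push_cast
      linear_combination h1 + h2
  set a : ℤ := E (w i0) δ 0 with ha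
  have s3 : ∀ i ∈ S, E (w i) δ 0 = a := by
    intro i hi
    obtain ⟨N, hN, hNw⟩ := H3
    have h1 := s2 i hi N 0
    have h2 := s2 i0 hi0 N 0
    rw [hNw i hi, h2] at h1
    have hN' : (N : ℤ) ≠ 0 := by exact_mod_cast hN.ne'
    exact (mul_left_cancel₀ hN' h1).symm
  have s4 : ∀ L : List ι, (∀ i ∈ L, i ∈ S) → ∀ μ, δ μ - δ (μ - (L.map w).sum) = L.length * a := by
    intro L
    induction L with
    | nil => intro _ μ; simp
    | cons i L ih =>
      intro hL μ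
      have h1 := ih (fun j hj => hL j (by simp [hj])) (μ - w i)
      have h2 := s2 i (hL i (by simp)) 1 μ
      rw [s3 i (hL i (by simp)), one_smul, Nat.cast_one, one_mul] at h2
      rw [List.map_cons, List.sum_cons, List.length_cons, ← sub_sub]
      push_cast
      linear_combination h1 + h2
  have s5 : ∀ μ ν : ℤ × A, μ.1 = ν.1 → δ μ = δ ν := by
    intro μ ν hμν
    obtain ⟨b, hb⟩ := H4
    obtain ⟨L, hL, hLb, hLs⟩ := hb 0
    obtain ⟨L', hL', hLb', hLs'⟩ := hb (ν.2 - μ.2)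
    have h1 := s4 L hL μ
    have h2 := s4 L' hL' ν
    rw [hLs, hLb] at h1
    rw [hLs', hLb'] at h2
    have h3 : ν - ((b : ℤ), ν.2 - μ.2) = μ - ((b : ℤ), 0) := by
      ext
      · simp only [Prod.fst_sub, hμν]
      · simp only [Prod.snd_sub]; abel
    rw [h3] at h2
    linear_combination h1 - h2
  have s6 : ∀ (k : ℕ) (μ ν : ℤ × A), μ.1 = ν.1 + k → δ μ = δ ν + k * a := by
    intro k μ ν hk
    have h1 := s2 i0 hi0 k μ
    rw [s5 (μ - k • w i0) ν (by rw [Prod.fst_sub, Prod.smul_fst, hw]; simp [hk])] at h1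
    linear_combination h1
  have s7 : ∀ μ ν : ℤ × A, δ μ = δ ν + (μ.1 - ν.1) * a := by
    intro μ ν
    rcases le_total ν.1 μ.1 with h | h
    · have h1 := s6 (μ.1 - ν.1).toNat μ ν (by have := Int.toNat_of_nonneg (sub_nonneg.2 h); omega)
      rw [Int.toNat_of_nonneg (sub_nonneg.2 h)] at h1
      exact h1
    · have h1 := s6 (ν.1 - μ.1).toNat ν μ (by have := Int.toNat_of_nonneg (sub_nonneg.2 h); omega)
      rw [Int.toNat_of_nonneg (sub_nonneg.2 h)] at h1
      linear_combination -h1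
  have s8 : ∀ μ, δ (ω - μ) = - δ μ := by
    intro μ
    rw [hδa, hδa, sub_sub_cancel]
    ring
  have ha1 : 1 ≤ a := by
    set μ : ℤ × A := (max b0 (ω.1 + 2), 0) with hμ
    have h1 := s1 i0 hi0 μ 0
    have h2 := H2 μ (le_max_left _ _)
    have h3 : ω.1 + 2 ≤ μ.1 := le_max_right _ _
    have h4 : E (w i0) δ μ = h μ - h (μ - w i0) := by
      unfold E
      rw [hδa, hδa, hneg (ω - μ) (by rw [Prod.fst_sub]; omega),
        hneg (ω - (μ - w i0)) (by rw [Prod.fst_sub, Prod.fst_sub, hw]; omega)]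
      ring
    rw [h4] at h1
    omega
  intro μ hμ
  have h1 := s7 μ (ω - μ)
  rw [s8] at h1
  have h2 : 0 < 2 * δ μ := by
    have h3 : 2 * δ μ = (2 * μ.1 - ω.1) * a := by
      rw [Prod.fst_sub] at h1
      linear_combination h1
    rw [h3]
    exact mul_pos (by omega) (by omega)
  have h3 := h0 (ω - μ)
  have h4 := hδa μ
  omega

end Pool.Agent.W5h70.Fuj
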