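import Pool.Agent.W5h70.Fuj.Red2

/-!
# Separation of points and tangent vectors
-/

set_option autoImplicit false

namespace Pool.Agent.W5h70.Fuj

open MvPolynomial Module Pool.Agent.TH144.MB Pool.Agent.W5h40.Fuj Pool.Agent.W5h40.Fuj.Dat

variable {G : Type} [Group G] [Fintype G]

variable {n c : ℕ} (D : Dat G n c) {e : ℕ} (χ : G →* ℂˣ)

theorem points2 (he : D.ρ + 1 ≤ e) {y z : Fin n → ℂ} (halt : Alt D e y)
    (hy0 : y ≠ 0) (hz0 : z ≠ 0) (hy : D.Z y) (hz : D.Z z)
    (hyz : ¬ ∃ (g : G) (c : ℂ), ∀ i, z i = c * (D.α i g * y i)) :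
    ∃ F, Typ D.α χ e F ∧ eval y F = 0 ∧ eval z F ≠ 0 := by
  classical
  by_contra hcon
  push Not at hcon
  have h1 : ∀ i, y i = 0 → z i = 0 := by
    intro i hi
    obtain ⟨m, h1, h2, _⟩ := D.X_mono χ hz0 hz he i
    have h3 := hcon _ h1 (by rw [map_mul, eval_X, hi, zero_mul])
    rw [map_mul, eval_X, eval_mono] at h3
    rcases mul_eq_zero.1 h3 with h | h
    · exact h
    · exact absurd h h2
  have h2 : ∀ i, z i = 0 → y i = 0 := by
    intro i hi
    by_contra hyi
    obtain ⟨m, h1, h2, _⟩ := D.X_mono χ hy0 hy he i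
    obtain ⟨m', hm', hmc', hmz'⟩ := D.exists_mono hz0 hz χ (t := e) (by omega)
    have h3 := typ_monomial hmc'
    rw [hm'] at h3
    have h4 : eval y (X i * monomial m (1 : ℂ)) ≠ 0 := by
      rw [map_mul, eval_X, eval_mono]
      exact mul_ne_zero hyi h2
    have h5 := hcon _ (h3.sub (h1.C_mul (eval y (monomial m' (1 : ℂ))
      / eval y (X i * monomial m (1 : ℂ))))) (by
        rw [map_sub, map_mul (eval y) (C _), eval_C, div_mul_cancel₀ _ h4, sub_self])
    rw [map_sub, map_mul, map_mul (eval z) (X i), eval_X, hi, zero_mul, mul_zero, sub_zero,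
      eval_mono] at h5
    exact hmz' h5
  have h3 : ∀ i k, y i ≠ 0 → y k ≠ 0 → D.α i = D.α k → y k * z i = y i * z k := by
    intro i k hi hk hik
    obtain ⟨m, h3, h4⟩ := D.two_mono χ (y := y) hz0 hz he hik
    have h5 := hcon _ h3 (by
      rw [map_mul, map_sub, map_mul, map_mul, eval_C, eval_C, eval_X, eval_X]
      ring)
    rw [map_mul, map_sub, map_mul, map_mul, eval_C, eval_C, eval_X, eval_X, eval_mono] at h5
    rcases mul_eq_zero.1 h5 with h | h
    · exact sub_eq_zero.1 h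
    · exact absurd h h4
  let s : Fin n → ℂˣ := fun i => if h : y i ≠ 0 then
    Units.mk0 (z i / y i) (div_ne_zero (fun h' => h (h2 i h')) h) else 1
  have hs : ∀ i, y i ≠ 0 → (s i : ℂ) = z i / y i := by
    intro i hi
    simp only [s, dif_pos hi, Units.val_mk0]
  have hys : (fun i => y i * (s i : ℂ)) = z := by
    funext i
    by_cases hi : y i = 0
    · rw [hi, zero_mul, h1 i hi]
    · rw [hs i hi, mul_div_cancel₀ _ hi]
  obtain ⟨μ, g, hμ⟩ := reduce2 D (A := ℂ) (χ := χ) he hy0 hy halt (s := s) (by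
      intro i k hi hk hik
      ext
      rw [hs i hi, hs k hk, div_eq_div_iff hi hk]
      linear_combination h3 i k hi hk hik) (by
      intro j
      rw [pt_complex, hys]
      exact hz j) (by
      intro F hF hFy
      rw [pt_complex, hys]
      exact hcon F hF hFy) (fun _ => True) (fun _ => trivial)
    (fun D' s' _ x hx0 hx hxs => D'.base_complex s' x hx0 hx hxs)
  refine hyz ⟨g, (μ : ℂ), fun i => ?_⟩
  by_cases hi : y i = 0
  · rw [h1 i hi, hi, mul_zero, mul_zero]
  · have h4 := congrArg (fun u : ℂˣ => (u : ℂ)) (hμ i hi)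
    simp only [hs i hi, Units.val_mul] at h4
    rw [div_eq_iff hi] at h4
    rw [h4]
    show (μ : ℂ) * (D.α i g : ℂ) * y i = _
    ring

theorem tangents2 (he : D.ρ + 1 ≤ e) {y u : Fin n → ℂ} (halt : Alt D e y)
    (hy0 : y ≠ 0) (hy : D.Z y) (hu : ∀ j, dv (D.f j) y u = 0)
    (hne : ¬ ∃ c : ℂ, ∀ i, u i = c * y i) :
    ∃ F, Typ D.α χ e F ∧ eval y F = 0 ∧ dv F y u ≠ 0 := by
  classical
  by_contra hcon
  push Not at hcon
  have h1 : ∀ i, y i = 0 → u i = 0 := by
    intro i hi
    obtain ⟨m, h1, h2, _⟩ := D.X_mono χ hy0 hy he i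
    have h3 := hcon _ h1 (by rw [map_mul, eval_X, hi, zero_mul])
    rw [dv_X_mul, hi, zero_mul, add_zero, eval_mono] at h3
    rcases mul_eq_zero.1 h3 with h | h
    · exact absurd h h2
    · exact h
  have h3 : ∀ i k, y i ≠ 0 → y k ≠ 0 → D.α i = D.α k → y k * u i = y i * u k := by
    intro i k hi hk hik
    obtain ⟨m, h3, h4⟩ := D.two_mono χ (y := y) hy0 hy he hik
    have h5 := hcon _ h3 (by
      rw [map_mul, map_sub, map_mul, map_mul, eval_C, eval_C, eval_X, eval_X]
      ring)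
    have h6 : (C (y k) * X i - C (y i) * X k) * monomial m (1 : ℂ)
        = C (y k) * (X i * monomial m 1) - C (y i) * (X k * monomial m 1) := by ring
    rw [h6, dv_sub, dv_C_mul, dv_C_mul, dv_X_mul, dv_X_mul, eval_mono] at h5
    have h7 : (y k * u i - y i * u k) * mon m y = 0 := by linear_combination h5
    rcases mul_eq_zero.1 h7 with h | h
    · exact sub_eq_zero.1 h
    · exact absurd h h4
  let w : Fin n → ℂ := fun i => u i / y i
  have hyw : ∀ i, y i * w i = u i := by
    intro i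
    by_cases hi : y i = 0
    · rw [hi, zero_mul, h1 i hi]
    · simp only [w]
      rw [mul_div_cancel₀ _ hi]
  let s : Fin n → (DualNumber ℂ)ˣ := fun i =>
    ⟨TrivSqZeroExt.inl 1 + TrivSqZeroExt.inr (w i), TrivSqZeroExt.inl 1 + TrivSqZeroExt.inr (-w i),
      by ext <;> simp, by ext <;> simp⟩
  have hs : ∀ i, (s i : DualNumber ℂ) = TrivSqZeroExt.inl 1 + TrivSqZeroExt.inr (w i) :=
    fun i => rfl
  have hpt : pt y s = fun i => (TrivSqZeroExt.inl (y i) + TrivSqZeroExt.inr (u i) : DualNumber ℂ) := by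
    rw [pt_dual y w s hs]
    funext i
    rw [hyw]
  obtain ⟨μ, g, hμ⟩ := reduce2 D (A := DualNumber ℂ) (χ := χ) he hy0 hy halt (s := s) (by
      intro i k hi hk hik
      ext1
      rw [hs, hs]
      congr 2
      simp only [w]
      rw [div_eq_div_iff hi hk]
      linear_combination h3 i k hi hk hik) (by
      intro j
      rw [hpt, aeval_dual, hy j, hu j]
      simp) (by
      intro F hF hFy
      rw [hpt, aeval_dual, hFy, hcon F hF hFy]
      simp) QD (fun i => ⟨w i, hs i⟩)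
    (fun D' s' hs' x hx0 hx hxs => D'.base_dual s' hs' x hx0 hx hxs)
  obtain ⟨k, hk⟩ : ∃ k, y k ≠ 0 := by
    by_contra hc
    push Not at hc
    exact hy0 (funext hc)
  set a : ℂ := TrivSqZeroExt.fst (μ : DualNumber ℂ) with ha
  set b : ℂ := TrivSqZeroExt.snd (μ : DualNumber ℂ) with hb
  have hab : ∀ i, y i ≠ 0 → 1 = a * (D.α i g : ℂ) ∧ w i = b * (D.α i g : ℂ) := by
    intro i hi
    have h4 := congrArg (fun u : (DualNumber ℂ)ˣ => (u : DualNumber ℂ)) (hμ i hi)
    simp only [hs i, Units.val_mul] at h4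
    have h5 : ((Units.map (algebraMap ℂ (DualNumber ℂ)).toMonoidHom (D.α i g) :
        (DualNumber ℂ)ˣ) : DualNumber ℂ) = TrivSqZeroExt.inl (D.α i g : ℂ) := rfl
    have h4' : TrivSqZeroExt.inl 1 + TrivSqZeroExt.inr (w i)
      = (μ : DualNumber ℂ) * TrivSqZeroExt.inl (D.α i g : ℂ) := h4
    constructor
    · have h6 := congrArg TrivSqZeroExt.fst h4'
      simpa using h6
    · have h6 := congrArg TrivSqZeroExt.snd h4'
      simp at h6
      rw [h6, hb]
  refine hne ⟨b / a, fun i => ?_⟩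
  by_cases hi : y i = 0
  · rw [h1 i hi, hi, mul_zero]
  · obtain ⟨h4, h5⟩ := hab i hi
    have ha0 : a ≠ 0 := by
      intro h
      rw [h, zero_mul] at h4
      exact one_ne_zero h4
    rw [← hyw i, h5]
    have h6 : (D.α i g : ℂ) = a⁻¹ := by
      field_simp
      linear_combination -h4
    rw [h6, div_eq_mul_inv]
    ring


end Pool.Agent.W5h70.Fuj
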