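import Pool.Agent.W5h70.Fuj.Four
import Pool.Agent.W5h70.Fuj.Final2

/-!
# The alternatives at a point, with conditions only on coordinate subspaces of dimension `≥ 4`
-/

set_option autoImplicit false

namespace Pool.Agent.W5h70.Fuj

open MvPolynomial Module Pool.Agent.TH144.MB Pool.Agent.W5h40.Fuj

variable {G : Type} [Group G] {n c : ℕ}

/-- the forms `f j`, `j ∈ A`, define a curve in the coordinate subspace of `S`: they have finitely
many common zeros in a hyperplane -/
def CurveOn (D : Dat G n c) (S : Finset (Fin n)) (A : Finset (Fin c)) : Prop :=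
  ∃ a : Fin n → ℂ, FinZ fun v : Fin n → ℂ =>
    (∀ j ∈ A, eval v (D.f j) = 0) ∧ (∀ i ∉ S, v i = 0) ∧ ∑ i, a i * v i = 0

theorem reg_of_curve (D : Dat G n c) {S : Finset (Fin n)} {A : Finset (Fin c)}
    (hA : A.card + 2 = S.card) (h : CurveOn D S A) :
    Reg ⊥ (Sᶜ.toList.map (X : Fin n → MvPolynomial (Fin n) ℂ) ++ A.toList.map D.f) := by
  classical
  obtain ⟨a, ha⟩ := h
  obtain ⟨a', ha'⟩ := ha.exists_lin
  obtain ⟨h1, _⟩ := square ((Sᶜ.toList.map fun i => ((X i : MvPolynomial (Fin n) ℂ), 1)) ++
    (A.toList.map fun j => (D.f j, D.d j)) ++ [(lin a, 1), (lin a', 1)]) [] (by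
    intro x hx
    rcases List.mem_append.1 hx with hx | hx
    · rcases List.mem_append.1 hx with hx | hx
      · obtain ⟨i, _, rfl⟩ := List.mem_map.1 hx
        exact ⟨isHomogeneous_X ℂ i, one_pos⟩
      · obtain ⟨j, _, rfl⟩ := List.mem_map.1 hx
        exact ⟨(D.typ j).1, by have := D.two j; simp only; omega⟩
    · simp only [List.mem_cons, List.not_mem_nil, or_false] at hx
      rcases hx with rfl | rfl
      · exact ⟨lin_hom _, one_pos⟩
      · exact ⟨lin_hom _, one_pos⟩) (by
    simp only [List.length_nil, List.length_append, List.length_map, List.length_cons,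
      Finset.length_toList, Finset.card_compl, Fintype.card_fin]
    have := Finset.card_le_univ S
    rw [Fintype.card_fin] at this
    omega) (by
    intro v _ hv
    refine ha' v ⟨fun j hj => ?_, fun i hi => ?_, ?_⟩ (hv (lin a', 1) (by simp))
    · exact hv (D.f j, D.d j) (List.mem_append_left _ (List.mem_append_right _
        (List.mem_map.2 ⟨j, by simpa using hj, rfl⟩)))
    · have := hv (X i, 1) (List.mem_append_left _ (List.mem_append_left _
        (List.mem_map.2 ⟨i, by simpa using hi, rfl⟩)))
      rwa [eval_X] at this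
    · have := hv (lin a, 1) (by simp)
      rwa [eval_lin] at this)
  simp only [List.map_nil, List.nil_append, List.map_append, List.map_map] at h1
  rw [reg_append] at h1
  exact h1.1

variable [Fintype G]

/-- curves in general position -/
theorem occ_curve (D : Dat G n c) {S : Finset (Fin n)} (hinf : ¬ FinOn D S) {i1 : Fin n}
    (hfin : FinOn D (S.erase i1)) {A : Finset (Fin c)} (hA : A.card + 2 = S.card)
    (h : CurveOn D S A) {t : ℕ} (ht : ∑ j ∈ A, (D.d j - 1) ≤ t) (ψ : G →* ℂˣ) :
    ∃ m : Fin n →₀ ℕ, m.degree = t ∧ chr D.α m = ψ ∧ ∀ i ∉ S, m i = 0 := by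
  classical
  obtain ⟨P, hP, hPH, hPI, hPinf⟩ := exists_prime (D.homJ {i | i ∉ S}) (by
    intro hf
    apply hinf
    exact hf.mono fun v hv => (zeroJ D {i | i ∉ S} v).2 ⟨hv.1, hv.2⟩)
  have hJP : ∀ j, D.f j ∈ P := fun j =>
    hPI (Ideal.mem_sup_left (Ideal.subset_span ⟨j, rfl⟩))
  have hXP : ∀ i ∉ S, X i ∈ P := fun i hi =>
    hPI (Ideal.mem_sup_right (Ideal.subset_span ⟨i, hi, rfl⟩))
  refine resid D S (A.toList.map fun j => (D.f j, D.d j, D.ψ j)) ?_ ?_ ?_ hP hPH hJP hXP ?_ hPinf
    hfin ?_ ψ
  · intro x hx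
    obtain ⟨j, _, rfl⟩ := List.mem_map.1 hx
    exact ⟨D.typ j, by have := D.two j; simp only; omega⟩
  · rw [List.length_map, Finset.length_toList]
    exact hA
  · have h1 := reg_of_curve D hA h
    rw [List.map_map]
    exact h1
  · intro x hx
    obtain ⟨j, _, rfl⟩ := List.mem_map.1 hx
    exact hJP j
  · rw [List.map_map]
    refine le_trans (le_of_eq ?_) ht
    exact Finset.sum_map_toList A fun j => D.d j - 1

theorem alt5 (D : Dat G n c) {e : ℕ} (he : D.ρ + 1 ≤ e)
    (hAB : ∀ S : Finset (Fin n), 5 ≤ S.card → S.card ≤ c + 1 → ¬ FinOn D S →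
      (∀ i ∈ S, FinOn D (S.erase i)) → (live D S).card + 2 = S.card ∨
        (∀ k ∈ live D S, ∃ A : Finset (Fin c), k ∉ A ∧ A.card + 2 = S.card ∧ CurveOn D S A) ∨
        ∀ i ∈ live D S, ∀ j ∈ live D S, D.ρ + D.d j + 1 ≤ e + D.d i)
    (y : Fin n → ℂ) : Alt D e y := by
  classical
  set S : Finset (Fin n) := Finset.univ.filter fun i => y i ≠ 0 with hS
  have hSy : ∀ i, i ∉ S ↔ y i = 0 := by
    intro i
    simp [hS]
  by_cases hfin : FinOn D S
  · refine Or.inr (Or.inr ?_)
    obtain ⟨Z, hZ⟩ := hfin
    exact ⟨Z, fun v hv => hZ v ⟨hv.1, fun i hi => hv.2 i ((hSy i).1 hi)⟩⟩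
  obtain ⟨S', hS', hinf, hfin'⟩ := exists_section D S hfin
  have hmon : ∀ q : Fin n →₀ ℕ, (∀ i ∉ S', q i = 0) → mon q y ≠ 0 := by
    intro q hq
    unfold mon
    rw [Finset.prod_ne_zero_iff]
    intro i _
    by_cases hi : i ∈ S'
    · refine pow_ne_zero _ fun h => ?_
      exact ((hSy i).2 h) (hS' hi)
    · rw [hq i hi, pow_zero]
      exact one_ne_zero
  have hhalf : (∀ t, D.ρ ≤ 2 * t + 1 → ∀ ψ : G →* ℂˣ,
      ∃ m : Fin n →₀ ℕ, m.degree = t ∧ chr D.α m = ψ ∧ ∀ i ∉ S', m i = 0) → Alt D e y := by
    intro h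
    refine Or.inr (Or.inl ⟨D.ρ / 2, by omega, fun s hs ψ => ?_⟩)
    obtain ⟨m, h1, h2, h3⟩ := h s (by omega) ψ
    exact ⟨m, h1, h2, hmon m h3⟩
  have hfine : (∀ (k : Fin c) (t : ℕ), D.ρ ≤ t + (D.d k - 1) → ∀ ψ : G →* ℂˣ,
      ∃ m : Fin n →₀ ℕ, m.degree = t ∧ chr D.α m = ψ ∧ ∀ i ∉ S', m i = 0) → Alt D e y := by
    intro h
    refine Or.inl fun j ψ => ?_
    have h2 := D.two j
    have h3 : D.d j - 1 ≤ D.ρ :=
      Finset.single_le_sum (f := fun j => D.d j - 1) (fun _ _ => Nat.zero_le _)
        (Finset.mem_univ j)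
    obtain ⟨m, h4, h5, h6⟩ := h j (e - D.d j) (by omega) ψ
    exact ⟨m, by omega, h5, hmon m h6⟩
  obtain ⟨i, hi⟩ : S'.Nonempty := by
    rw [Finset.nonempty_iff_ne_empty]
    rintro rfl
    exact hinf (fin_empty D)
  have hcount := count D hi (hfin' i hi)
  by_cases hprop : (live D S').card + 2 = S'.card
  · exact hhalf fun t ht ψ => curve_occ D hfin' hprop ht ψ
  have hlc : (live D S').card ≤ c := by
    have := Finset.card_le_univ (live D S')
    rwa [Fintype.card_fin] at this
  have hpos : 0 < S'.card := Finset.card_pos.2 ⟨i, hi⟩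
  have hlive : S'.card ≤ (live D S').card + 1 := by omega
  by_cases h5 : 5 ≤ S'.card
  · rcases hAB S' h5 (by omega) hinf hfin' with hB | hC | hA
    · exact absurd hB hprop
    · -- curves in general position
      refine hfine fun k t ht ψ => ?_
      by_cases hk : k ∈ live D S'
      · obtain ⟨A, hkA, hAc, hA⟩ := hC k hk
        refine occ_curve D hinf (hfin' i hi) hAc hA ?_ ψ
        have h6 : ∑ j ∈ A, (D.d j - 1) + (D.d k - 1) ≤ D.ρ := by
          have h9 := Finset.sum_insert (f := fun j => D.d j - 1) hkA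
          rw [add_comm, ← h9]
          exact Finset.sum_le_sum_of_subset (Finset.subset_univ _)
        omega
      · obtain ⟨k', hk'⟩ : (live D S').Nonempty := Finset.card_pos.1 (by omega)
        obtain ⟨A, hkA, hAc, hA⟩ := hC k' hk'
        have hkA' : k ∉ A := by
          intro hkA'
          -- a form which vanishes on the subspace is not part of a regular sequence
          have h1 := reg_of_curve D hAc hA
          rw [reg_append] at h1
          have h2 : (0 : ℕ) = 1 → False := by omega
          have hset : {i | i ∈ S'ᶜ.toList} = ((S' : Set (Fin n))ᶜ : Set (Fin n)) := by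
            ext i
            simp
          rw [ext_X_bot, hset] at h1
          have hkI : D.f k ∈ Ideal.span (X '' ((S' : Set (Fin n))ᶜ) :
              Set (MvPolynomial (Fin n) ℂ)) := by
            rw [mem_span_iff_res, res_eq_zero_iff]
            intro v hv
            exact not_mem_live D hk fun i hi => hv i (by simpa using hi)
          obtain ⟨L1, L2, hL⟩ := List.append_of_mem (Finset.mem_toList.2 hkA')
          rw [hL, List.map_append, List.map_cons, reg_append] at h1
          have h3 := h1.2.2.1 1 (by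
            rw [mul_one]
            exact (le_ext _ _) hkI)
          have h4 : ∀ p ∈ TH144.MB.ext (Ideal.span (X '' ((S' : Set (Fin n))ᶜ) :
              Set (MvPolynomial (Fin n) ℂ))) (L1.map D.f), eval (0 : Fin n → ℂ) p = 0 := by
            rw [zero_ext]
            refine ⟨fun p hp => ?_, fun f hf => ?_⟩
            · have h5 : Ideal.span (X '' ((S' : Set (Fin n))ᶜ) : Set (MvPolynomial (Fin n) ℂ))
                  ≤ RingHom.ker (eval (0 : Fin n → ℂ) : MvPolynomial (Fin n) ℂ →+* ℂ) := by
                rw [Ideal.span_le]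
                rintro _ ⟨i, _, rfl⟩
                exact RingHom.mem_ker.2 (by simp)
              exact RingHom.mem_ker.1 (h5 hp)
            · obtain ⟨j, _, rfl⟩ := List.mem_map.1 hf
              have h5 := eval_smul' (D.typ j).1 (0 : ℂ) (0 : Fin n → ℂ)
              have h7 := D.two j
              rw [zero_pow (by omega), zero_mul] at h5
              have h6 : (fun i => (0 : ℂ) * (0 : Fin n → ℂ) i) = 0 := by
                funext j
                simp
              rw [h6] at h5
              exact h5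
          have h5 := h4 1 h3
          rw [map_one] at h5
          exact one_ne_zero h5
        refine occ_curve D hinf (hfin' i hi) hAc hA ?_ ψ
        have h6 : ∑ j ∈ A, (D.d j - 1) + (D.d k - 1) ≤ D.ρ := by
          have h9 := Finset.sum_insert (f := fun j => D.d j - 1) hkA'
          rw [add_comm, ← h9]
          exact Finset.sum_le_sum_of_subset (Finset.subset_univ _)
        omega
    · left
      obtain ⟨w, hw, hwS, hwc⟩ := excess D hinf
      obtain ⟨j0, hj0J, hj0⟩ := Finset.exists_min_image (live D S') D.d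
        (Finset.card_pos.1 (by omega))
      have hJ : ∀ j ∉ live D S', ∀ v : Fin n → ℂ, (∀ i, w i = 0 → v i = 0) →
          eval v (D.f j) = 0 := fun j hj v hv =>
        not_mem_live D hj fun i hi => hv i (hwS i hi)
      have hsum : ∑ j ∈ live D S', (D.d j - 1) ≤ D.ρ :=
        Finset.sum_le_sum_of_subset (Finset.subset_univ _)
      have h7 := D.two j0
      intro j ψ
      have h8 : ∑ j ∈ live D S', (D.d j - 1) ≤ e - D.d j + (D.d j0 - 1) ∧ D.d j ≤ e := by
        by_cases hj : j ∈ live D S'
        · have h5 := hA j0 hj0J j hj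
          have h6 : D.d j0 - 1 ≤ D.ρ :=
            Finset.single_le_sum (f := fun j => D.d j - 1) (fun _ _ => Nat.zero_le _)
              (Finset.mem_univ j0)
          omega
        · have h5 : ∑ j ∈ live D S', (D.d j - 1) + (D.d j - 1) ≤ D.ρ := by
            have h9 := Finset.sum_insert (f := fun j => D.d j - 1) hj
            rw [add_comm, ← h9]
            exact Finset.sum_le_sum_of_subset (Finset.subset_univ _)
          have := D.two j
          omega
      obtain ⟨m, h8', h9, h10⟩ := occ_min D hw _ hJ (by omega) hj0J hj0 D.ρ ψ (e - D.d j)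
        h8.1 (by omega)
      refine ⟨m, by omega, h9, ?_⟩
      unfold mon at h10 ⊢
      rw [Finset.prod_ne_zero_iff] at h10 ⊢
      intro k hk
      have h11 := h10 k hk
      by_cases hmk : m k = 0
      · rw [hmk, pow_zero]
        exact one_ne_zero
      · refine pow_ne_zero _ fun h => h11 ?_
        have : w k = 0 := hwS k fun hk' => ((hSy k).2 h) (hS' hk')
        rw [this, zero_pow hmk]
  · rcases Nat.lt_or_ge S'.card 4 with h4 | h4
    · -- at most three coordinates
      rcases Nat.lt_or_ge S'.card 2 with h5 | h5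
      · exfalso
        have h6 : S'.card = 1 := by omega
        obtain ⟨a, rfl⟩ := Finset.card_eq_one.1 h6
        exact hinf (fin_single D a)
      · have hne : (live D S').Nonempty := Finset.card_pos.1 (by omega)
        rcases Nat.lt_or_ge S'.card 3 with h6 | h6
        · exact absurd (fin_pair D (by omega) hne) hinf
        · exact hhalf fun t ht ψ => plane_occ D hfin' hinf (by omega) hne ht ψ
    · -- four coordinates
      have h6 : S'.card = 4 := by omega
      by_cases hall : ∀ k, ∀ t, D.ρ ≤ t + (D.d k - 1) → ∀ ψ : G →* ℂˣ,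
          ∃ m : Fin n →₀ ℕ, m.degree = t ∧ chr D.α m = ψ ∧ ∀ i ∉ S', m i = 0
      · exact hfine hall
      · rw [not_forall] at hall
        obtain ⟨k, hk⟩ := hall
        exact hhalf ((four D h6 hinf hfin' k).resolve_right hk)

end Pool.Agent.W5h70.Fuj
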