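import Pool.Agent.W5h70.Fuj.RegFin

/-!
# Restriction to a coordinate subspace
-/

set_option autoImplicit false

namespace Pool.Agent.W5h70.Fuj

open MvPolynomial Module Pool.Agent.TH144.MB

variable {σ : Type} {K : Type} [Field K]

open Classical in
/-- the restriction to the subspace where the variables outside `S` vanish -/
noncomputable def res (S : Set σ) : MvPolynomial σ K →ₐ[K] MvPolynomial σ K :=
  aeval fun i => if i ∈ S then X i else 0

theorem sub_res_mem (S : Set σ) (p : MvPolynomial σ K) :
    p - res S p ∈ Ideal.span (X '' Sᶜ : Set (MvPolynomial σ K)) := by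
  classical
  induction p using MvPolynomial.induction_on with
  | C c => simp [res]
  | add p q hp hq =>
    rw [map_add]
    have := Ideal.add_mem _ hp hq
    convert this using 1
    ring
  | mul_X p j hp =>
    rw [map_mul]
    have h1 : res S (X j : MvPolynomial σ K) = if j ∈ S then X j else 0 := by
      simp [res]
    rw [h1]
    split_ifs with h
    · have := Ideal.mul_mem_right (X j) _ hp
      convert this using 1
      ring
    · rw [mul_zero, _root_.sub_zero]
      exact Ideal.mul_mem_left _ _ (Ideal.subset_span ⟨j, h, rfl⟩)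

theorem res_mem_zero (S : Set σ) {p : MvPolynomial σ K}
    (hp : p ∈ Ideal.span (X '' Sᶜ : Set (MvPolynomial σ K))) : res S p = 0 := by
  classical
  have h : Ideal.span (X '' Sᶜ : Set (MvPolynomial σ K)) ≤ RingHom.ker (res (K := K) S) := by
    rw [Ideal.span_le]
    rintro _ ⟨i, hi, rfl⟩
    refine RingHom.mem_ker.2 ?_
    have hi' : i ∉ S := hi
    simp [res, hi']
  exact RingHom.mem_ker.1 (h hp)

theorem mem_span_iff_res (S : Set σ) {p : MvPolynomial σ K} :
    p ∈ Ideal.span (X '' Sᶜ : Set (MvPolynomial σ K)) ↔ res S p = 0 := by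
  refine ⟨res_mem_zero S, fun h => ?_⟩
  have := sub_res_mem S p
  rwa [h, _root_.sub_zero] at this

theorem res_res (S : Set σ) (p : MvPolynomial σ K) : res S (res S p) = res S p := by
  have h := res_mem_zero S (sub_res_mem S p)
  rw [map_sub, sub_eq_zero] at h
  exact h.symm

theorem eval_res [DecidableEq σ] (S : Set σ) (p : MvPolynomial σ K) {v : σ → K}
    (hv : ∀ i, i ∉ S → v i = 0) : eval v (res S p) = eval v p := by
  classical
  have h1 : (aeval v : MvPolynomial σ K →ₐ[K] K).comp (res S) = aeval v := by
    apply algHom_ext
    intro i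
    simp only [res, AlgHom.comp_apply, aeval_X]
    split_ifs with h
    · rw [aeval_X]
    · rw [map_zero, hv i h]
  have h2 := DFunLike.congr_fun h1 p
  simpa [aeval_eq_eval] using h2

theorem res_eq_zero_iff [Infinite K] (S : Set σ) (p : MvPolynomial σ K) :
    res S p = 0 ↔ ∀ v : σ → K, (∀ i, i ∉ S → v i = 0) → eval v p = 0 := by
  classical
  constructor
  · intro h v hv
    rw [← eval_res S p hv, h, map_zero]
  · intro h
    refine MvPolynomial.funext fun v => ?_
    rw [map_zero]
    have h1 : eval v (res S p) = eval (fun i => if i ∈ S then v i else 0) p := by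
      have h2 : (aeval v : MvPolynomial σ K →ₐ[K] K).comp (res S)
          = aeval (fun i => if i ∈ S then v i else 0) := by
        apply algHom_ext
        intro i
        simp only [res, AlgHom.comp_apply, aeval_X]
        split_ifs with h
        · rw [aeval_X]
        · rw [map_zero]
      have h3 := DFunLike.congr_fun h2 p
      simpa [aeval_eq_eval] using h3
    rw [h1]
    exact h _ fun i hi => by simp [hi]

theorem res_hom (S : Set σ) {p : MvPolynomial σ K} {d : ℕ} (hp : p.IsHomogeneous d) :
    (res S p).IsHomogeneous d := by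
  classical
  have h1 := hp.aeval (fun i => if i ∈ S then X i else 0 : σ → MvPolynomial σ K) (n := 1)
    (fun i => by
      split_ifs
      · exact isHomogeneous_X _ _
      · exact isHomogeneous_zero _ _ _)
  rw [one_mul] at h1
  exact h1

/-- a form which is not identically zero on the coordinate subspace is a nonzerodivisor there -/
theorem nz_res (S : Set σ) {p : MvPolynomial σ K} (h : res S p ≠ 0) :
    NZ p (Ideal.span (X '' Sᶜ : Set (MvPolynomial σ K))) := by
  intro q hq
  rw [mem_span_iff_res, map_mul] at hq
  rw [mem_span_iff_res]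
  rcases mul_eq_zero.1 hq with h1 | h1
  · exact absurd h1 h
  · exact h1

theorem ext_X (L : List σ) : ∀ s : Set σ,
    TH144.MB.ext (Ideal.span (X '' s : Set (MvPolynomial σ K))) (L.map X)
      = Ideal.span (X '' (s ∪ {i | i ∈ L})) := by
  induction L with
  | nil => intro s; simp [TH144.MB.ext]
  | cons i L ih =>
    intro s
    have h1 : (Ideal.span (X '' s : Set (MvPolynomial σ K))) ⊔ Ideal.span {X i}
        = Ideal.span (X '' (s ∪ {i})) := by
      rw [Set.image_union, Set.image_singleton, Ideal.span_union]
    simp only [List.map_cons, TH144.MB.ext]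
    rw [h1, ih]
    congr 2
    ext j
    simp only [List.mem_cons, Set.mem_union, Set.mem_singleton_iff, Set.mem_ofPred_eq]
    tauto

theorem ext_X_bot (L : List σ) :
    TH144.MB.ext (⊥ : Ideal (MvPolynomial σ K)) (L.map X) = Ideal.span (X '' {i | i ∈ L}) := by
  have h := ext_X (K := K) L ∅
  rw [Set.image_empty, Ideal.span_empty, Set.empty_union] at h
  exact h

theorem reg_X_bot (L : List σ) (hL : L.Nodup) :
    Reg (⊥ : Ideal (MvPolynomial σ K)) (L.map X) := by
  have h := reg_X (K := K) L ∅ hL (by simp)
  rw [Set.image_empty, Ideal.span_empty] at h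
  exact h

end Pool.Agent.W5h70.Fuj
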