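import Pool.Agent.W5h70.Fuj.Half

/-!
# Finite zero sets
-/

set_option autoImplicit false

namespace Pool.Agent.W5h70.Fuj

open MvPolynomial Module Pool.Agent.TH144.MB

variable {σ : Type} {K : Type} [Field K]

/-- finitely many lines -/
def FinZ (P : (σ → K) → Prop) : Prop :=
  ∃ Z : Finset (σ → K), ∀ v : σ → K, P v → ∃ z ∈ Z, ∃ c : K, v = c • z

theorem exists_sep [Fintype σ] {x y : σ → K} (hx : x ≠ 0) (h : ∀ c : K, y ≠ c • x) :
    ∃ a : σ → K, eval x (lin a) ≠ 0 ∧ eval y (lin a) = 0 := by
  classical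
  by_cases hy : y = 0
  · exact absurd (by rw [hy, zero_smul]) (h 0)
  have hxy : x ∉ Submodule.span K {y} := by
    intro hm
    obtain ⟨c, hc⟩ := Submodule.mem_span_singleton.1 hm
    have hc0 : c ≠ 0 := by
      rintro rfl
      rw [zero_smul] at hc
      exact hx hc.symm
    refine h c⁻¹ ?_
    rw [← hc, smul_smul, inv_mul_cancel₀ hc0, one_smul]
  obtain ⟨φ, hφ, hφ2⟩ := Submodule.exists_le_ker_of_notMem hxy
  have h2 : ∀ v, φ v = eval v (lin fun i => φ (Pi.single i 1)) := by
    intro v
    rw [eval_lin]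
    conv_lhs => rw [pi_eq_sum_univ' v]
    rw [map_sum]
    refine Finset.sum_congr rfl fun i _ => ?_
    rw [map_smul, smul_eq_mul, mul_comm]
  refine ⟨fun i => φ (Pi.single i 1), ?_, ?_⟩
  · rw [← h2]
    exact hφ
  · rw [← h2]
    exact hφ2 (Submodule.mem_span_singleton_self y)

/-- a bounded Hilbert function gives finitely many zeros -/
theorem finite_of_bounded [Fintype σ] [Infinite K] {I : Ideal (MvPolynomial σ K)} {B : ℕ}
    (hB : ∀ t, finrank K (W I t) ≤ B) : FinZ fun v : σ → K => ∀ p ∈ I, eval v p = 0 := by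
  classical
  by_contra hcon
  unfold FinZ at hcon
  push Not at hcon
  obtain ⟨v, hv, hr⟩ := exists_seq_of_forall_finset_exists
    (fun v : σ → K => v ≠ 0 ∧ ∀ p ∈ I, eval v p = 0)
    (fun x y => ∃ a : σ → K, eval x (lin a) ≠ 0 ∧ eval y (lin a) = 0) (by
      intro s hs
      obtain ⟨y, hy1, hy2⟩ := hcon (insert 0 s)
      refine ⟨y, ⟨?_, hy1⟩, fun x hx => exists_sep (hs x hx).1
        (hy2 x (Finset.mem_insert_of_mem hx))⟩
      rintro rfl
      exact hy2 0 (Finset.mem_insert_self _ _) 0 (by simp))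
  choose! a ha1 ha2 using hr
  obtain ⟨b, hb⟩ := exists_avoid ((Finset.range (B + 1)).image v) (by
    intro w hw
    obtain ⟨i, _, rfl⟩ := Finset.mem_image.1 hw
    exact (hv i).1)
  have hb' : ∀ i, i < B + 1 → eval (v i) (lin b) ≠ 0 := fun i hi =>
    hb _ (Finset.mem_image_of_mem _ (Finset.mem_range.2 hi))
  -- a triangular system of forms
  let F : ℕ → MvPolynomial σ K := fun i => (∏ k ∈ Finset.Ioc i B, lin (a i k)) * lin b ^ i
  have hF : ∀ i, i ≤ B → (F i).IsHomogeneous B := by
    intro i hi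
    have h1 : (∏ k ∈ Finset.Ioc i B, lin (a i k)).IsHomogeneous (∑ _k ∈ Finset.Ioc i B, 1) :=
      IsHomogeneous.prod _ _ _ fun k _ => lin_hom _
    have h2 : (lin b ^ i).IsHomogeneous (1 * i) := (lin_hom b).pow i
    have h3 := h1.mul h2
    rw [Finset.sum_const, Nat.card_Ioc, smul_eq_mul, mul_one, one_mul, Nat.sub_add_cancel hi] at h3
    exact h3
  have hF0 : ∀ i k, i < k → k ≤ B → eval (v k) (F i) = 0 := by
    intro i k hik hk
    simp only [F, map_mul, map_prod]
    rw [Finset.prod_eq_zero (Finset.mem_Ioc.2 ⟨hik, hk⟩) (ha2 i k hik), zero_mul]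
  have hF1 : ∀ i, i ≤ B → eval (v i) (F i) ≠ 0 := by
    intro i hi
    simp only [F, map_mul, map_prod, map_pow]
    refine mul_ne_zero ?_ (pow_ne_zero _ (hb' i (by omega)))
    rw [Finset.prod_ne_zero_iff]
    intro k hk
    exact ha1 i k (Finset.mem_Ioc.1 hk).1
  have hli : LinearIndependent K (fun i : Fin (B + 1) =>
      (⟨Ideal.Quotient.mk I (F i), mem_W.2 ⟨_, hF i (by omega), rfl⟩⟩ : W I B)) := by
    rw [Fintype.linearIndependent_iff]
    intro g hg
    have h1 : ∑ i : Fin (B + 1), C (g i) * F i ∈ I := by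
      rw [← Ideal.Quotient.eq_zero_iff_mem, map_sum]
      have h2 := congrArg (Submodule.subtype (W I B)) hg
      rw [map_sum, map_zero] at h2
      rw [← h2]
      refine Finset.sum_congr rfl fun i _ => ?_
      rw [map_smul, Submodule.subtype_apply, ← smul_eq_C_mul]
      exact map_smul (Ideal.Quotient.mkₐ K I) (g i) (F i)
    have h3 : ∀ k : Fin (B + 1), ∑ i : Fin (B + 1), g i * eval (v k) (F i) = 0 := by
      intro k
      have h4 := (hv k).2 _ h1
      rw [map_sum] at h4
      rw [← h4]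
      refine Finset.sum_congr rfl fun i _ => ?_
      rw [(eval (v k)).map_mul (C (g i)) (F i), eval_C]
    have h5 : ∀ (m : ℕ) (k : Fin (B + 1)), B - k = m → g k = 0 := by
      intro m
      induction m using Nat.strong_induction_on with
      | _ m ih =>
        intro k hk
        have h6 := h3 k
        rw [Finset.sum_eq_single k] at h6
        · rcases mul_eq_zero.1 h6 with h | h
          · exact h
          · exact absurd h (hF1 k (by omega))
        · intro i _ hik
          rcases lt_or_gt_of_ne (fun h : (i : ℕ) = k => hik (Fin.ext h)) with h | h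
          · rw [hF0 i k h (by omega), mul_zero]
          · rw [ih (B - i) (by have := i.2; omega) i rfl, zero_mul]
        · intro h
          exact absurd (Finset.mem_univ k) h
    exact fun k => h5 _ k rfl
  have h6 := hli.fintype_card_le_finrank
  rw [Fintype.card_fin] at h6
  have := hB B
  omega

/-- a cone which meets the zero set of a form only in `0` is finite -/
theorem finite_of_hyper [Fintype σ] [IsAlgClosed K] {I : Ideal (MvPolynomial σ K)} (hI : Hom I)
    {f : MvPolynomial σ K} {d : ℕ} (hd : 0 < d) (hf : f.IsHomogeneous d)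
    (h : ∀ v : σ → K, (∀ p ∈ I, eval v p = 0) → eval v f = 0 → v = 0) :
    FinZ fun v : σ → K => ∀ p ∈ I, eval v p = 0 := by
  have := IsAlgClosed.instInfinite (K := K)
  obtain ⟨T, hT⟩ := exists_top (I := I ⊔ Ideal.span {f}) (by
    intro v hv
    rw [zero_sup] at hv
    exact h v hv.1 hv.2)
  obtain ⟨B, hB⟩ := bounded hI hd hf hT
  exact finite_of_bounded hB

/-- some linear form does not vanish at the nonzero vectors of a finite cone -/
theorem FinZ.exists_lin [Fintype σ] [Infinite K] {P : (σ → K) → Prop} (h : FinZ P) :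
    ∃ a : σ → K, ∀ v, P v → eval v (lin a) = 0 → v = 0 := by
  classical
  obtain ⟨Z, hZ⟩ := h
  obtain ⟨a, ha⟩ := exists_avoid (Z.filter fun z => z ≠ 0) fun v hv => (Finset.mem_filter.1 hv).2
  refine ⟨a, fun v hv hv0 => ?_⟩
  obtain ⟨z, hz, c, rfl⟩ := hZ v hv
  by_cases hz0 : z = 0
  · rw [hz0, smul_zero]
  · have h1 := ha z (Finset.mem_filter.2 ⟨hz, hz0⟩)
    have h2 := eval_smul' (lin_hom a) c z
    have h3 : (fun i => c * z i) = c • z := rfl
    rw [h3, hv0, pow_one] at h2
    rcases mul_eq_zero.1 h2.symm with h4 | h4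
    · rw [h4, zero_smul]
    · exact absurd h4 h1

/-- fewer forms than variables have a nonzero common zero -/
theorem exists_common [Fintype σ] [IsAlgClosed K] (gs : List (MvPolynomial σ K × ℕ))
    (hgs : ∀ x ∈ gs, x.1.IsHomogeneous x.2 ∧ 0 < x.2) (hlen : gs.length < Fintype.card σ) :
    ∃ v : σ → K, v ≠ 0 ∧ ∀ x ∈ gs, eval v x.1 = 0 := by
  classical
  by_contra hcon
  push Not at hcon
  have hv : ∀ v : σ → K, (∀ x ∈ gs, eval v x.1 = 0) → v = 0 := by
    intro v hv
    by_contra hv0
    obtain ⟨x, hx, hx2⟩ := hcon v hv0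
    exact hx2 (hv x hx)
  obtain ⟨i0⟩ : Nonempty σ := Fintype.card_pos_iff.1 (by omega)
  obtain ⟨k, hk⟩ : ∃ k, Fintype.card σ = gs.length + (k + 1) :=
    ⟨Fintype.card σ - gs.length - 1, by omega⟩
  obtain ⟨h1, _⟩ := square (gs ++ ((X i0, 1) :: List.replicate k (X i0, 1))) [] (by
    intro x hx
    rcases List.mem_append.1 hx with hx | hx
    · exact hgs x hx
    · rcases List.mem_cons.1 hx with rfl | hx
      · exact ⟨isHomogeneous_X K i0, one_pos⟩
      · rw [(List.mem_replicate.1 hx).2]
        exact ⟨isHomogeneous_X K i0, one_pos⟩) (by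
    simp only [List.length_nil, List.length_append, List.length_cons, List.length_replicate]
    omega) (by
    intro v _ h
    exact hv v fun x hx => h x (List.mem_append_left _ hx))
  simp only [List.map_nil, List.nil_append, List.map_append, List.map_cons] at h1
  rw [reg_append] at h1
  have hN : NZ (X i0 : MvPolynomial σ K) (TH144.MB.ext ⊥ (gs.map Prod.fst)) := h1.2.1
  obtain ⟨T, hT⟩ := exists_top (I := TH144.MB.ext ⊥ (gs.map Prod.fst)) (by
    intro v h
    rw [ext_zero_bot] at h
    exact hv v fun x hx => h _ (List.mem_map_of_mem hx))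
  have h2 : (1 : MvPolynomial σ K) ∈ TH144.MB.ext ⊥ (gs.map Prod.fst) := by
    refine hN.pow T 1 ?_
    rw [mul_one]
    have h3 : ((X i0 : MvPolynomial σ K) ^ T).IsHomogeneous (1 * T) := (isHomogeneous_X K i0).pow T
    rw [one_mul] at h3
    exact hT T le_rfl _ h3
  have h4 : ∀ p ∈ TH144.MB.ext ⊥ (gs.map Prod.fst), eval (0 : σ → K) p = 0 := by
    rw [ext_zero_bot]
    intro f hf
    obtain ⟨x, hx, rfl⟩ := List.mem_map.1 hf
    have h5 := eval_smul' (hgs x hx).1 (0 : K) (0 : σ → K)
    rw [zero_pow (hgs x hx).2.ne', zero_mul] at h5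
    have h6 : (fun i => (0 : K) * (0 : σ → K) i) = 0 := by
      funext j
      simp
    rw [h6] at h5
    exact h5
  have h5 := h4 1 h2
  rw [map_one] at h5
  exact one_ne_zero h5

end Pool.Agent.W5h70.Fuj
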