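import Pool.Agent.W5h40.Fuj.PairHalf
import Pool.Agent.W5h40.Fuj.Final
import Pool.Agent.W5h70.Fuj.Fin

/-!
# Separation of `y` and `y t`: all the `f j` are semi-invariant, or the section is finite
-/

set_option autoImplicit false

namespace Pool.Agent.W5h70.Fuj

open MvPolynomial Module Pool.Agent.TH144.MB Pool.Agent.W5h40.Fuj

variable {G : Type} [Group G] {n c : ℕ}

theorem typ_of_wh {α : Fin n → G →* ℂˣ} {p : MvPolynomial (Fin n) ℂ} {b : ℕ}
    {χ : Additive (G →* ℂˣ)} (hp : IsWeightedHomogeneous (wt α) p ((b : ℤ), χ)) :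
    Typ α (Additive.toMul χ) b p := by
  refine ⟨isHomogeneous_of_wt hp, fun g x => ?_⟩
  rw [eval_eq_mon, eval_eq_mon, Finset.mul_sum]
  refine Finset.sum_congr rfl fun m hm => ?_
  have h1 := hp (MvPolynomial.mem_support_iff.1 hm)
  rw [weight_wt, Prod.mk.injEq] at h1
  have h2 : chr α m = Additive.toMul χ := by
    rw [← h1.2]
    rfl
  rw [mon_mv, h2]
  ring

variable (D : Dat G n c)

theorem zero_cone {v : Fin n → ℂ} (hv : D.Z v) (a : ℂ) : D.Z (a • v) := by
  intro j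
  have h1 := eval_smul' (D.typ j).1 a v
  rw [hv j, mul_zero] at h1
  exact h1

variable {A : Type} [CommRing A] [Algebra ℂ A] [Fintype G]

theorem proj_mul {α : Fin n → G →* ℂˣ} {χ ξ : G →* ℂˣ} {b : ℕ} {p : MvPolynomial (Fin n) ℂ}
    (hp : Typ α ξ b p) (q : MvPolynomial (Fin n) ℂ) :
    proj α (χ * ξ) (p * q) = p * proj α χ q := by
  unfold proj
  rw [Finset.mul_sum]
  refine Finset.sum_congr rfl fun g _ => ?_
  rw [map_mul, Typ.act hp, MonoidHom.mul_apply, mul_inv, Units.val_mul, C_mul]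
  have h6 : (C (((ξ g)⁻¹ : ℂˣ) : ℂ) : MvPolynomial (Fin n) ℂ) * C (ξ g : ℂ) = 1 := by
    rw [← C_mul, Units.inv_mul, C_1]
  linear_combination (C (((χ g)⁻¹ : ℂˣ) : ℂ) * p * act α g q) * h6

/-- division by a semi-invariant form modulo `J T` -/
theorem split_p (T : Set (Fin n)) {χ ξ : G →* ℂˣ} {b t : ℕ} {p F : MvPolynomial (Fin n) ℂ}
    (hp : Typ D.α ξ b p) (hF : Typ D.α (χ * ξ) (b + t) F)
    (h : F ∈ D.J T ⊔ Ideal.span {p}) :
    ∃ Q, Typ D.α χ t Q ∧ F - p * Q ∈ D.J T := by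
  classical
  obtain ⟨q, hq, hFq⟩ := mem_sup_hom (D.homJ T) hp.1 hF.1 h
  have hG : (Fintype.card G : ℂ) ≠ 0 := Nat.cast_ne_zero.2 Fintype.card_ne_zero
  refine ⟨C ((Fintype.card G : ℂ)⁻¹) * proj D.α χ q, (proj_typ D.α χ hq).C_mul _, ?_⟩
  have h1 := D.proj_memJ T (χ * ξ) hFq
  rw [proj_sub, proj_mul hp, proj_of_typ hF, if_pos rfl] at h1
  have h2 := (D.J T).mul_mem_left (C ((Fintype.card G : ℂ)⁻¹)) h1
  convert h2 using 1
  have h3 : (C ((Fintype.card G : ℂ)⁻¹) : MvPolynomial (Fin n) ℂ) * C (Fintype.card G : ℂ) = 1 := by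
    rw [← C_mul, inv_mul_cancel₀ hG, C_1]
  linear_combination (-F) * h3

omit [Fintype G] in
/-- a form `p` of degree `b` without zeros on the section: all forms of degree `≥ ρ + b` are
divisible by `p` -/
theorem mem_of_form (T : Set (Fin n)) {p : MvPolynomial (Fin n) ℂ} {b : ℕ} (hb : 0 < b)
    (hp : p.IsHomogeneous b)
    (hv : ∀ v : Fin n → ℂ, D.Z v → (∀ i ∈ T, v i = 0) → eval v p = 0 → v = 0) {s : ℕ}
    (hs : D.ρ + b ≤ s) {F : MvPolynomial (Fin n) ℂ} (hF : F.IsHomogeneous s) :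
    F ∈ D.J T ⊔ Ideal.span {p} := by
  classical
  let f : Fin c ⊕ (Fin n ⊕ Unit) → MvPolynomial (Fin n) ℂ :=
    Sum.elim D.f (Sum.elim (fun i => if i ∈ T then X i else 0) fun _ => p)
  let d : Fin c ⊕ (Fin n ⊕ Unit) → ℕ := Sum.elim D.d (Sum.elim (fun _ => 1) fun _ => b)
  have h1 := macaulay f d (by
    rintro (j | i | i)
    · exact (D.typ j).1
    · simp only [f, d, Sum.elim_inr, Sum.elim_inl]
      split_ifs
      · exact isHomogeneous_X _ _
      · exact isHomogeneous_zero _ _ _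
    · exact hp) (by
    rintro (j | i | i)
    · have := D.two j
      simp only [d, Sum.elim_inl]
      omega
    · exact one_pos
    · exact hb) (by
    rw [Fintype.card_sum, Fintype.card_sum]
    omega) (by
    intro v h
    refine hv v (fun j => h (Sum.inl j)) (fun i hi => ?_) (h (Sum.inr (Sum.inr ())))
    have := h (Sum.inr (Sum.inl i))
    simp only [f, Sum.elim_inr, Sum.elim_inl, if_pos hi, eval_X] at this
    exact this) (t := s) (by
    rw [Fintype.sum_sum_type, Fintype.sum_sum_type]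
    have h2 : ∑ j, (D.d j - 1) = D.ρ := rfl
    simp only [d, Sum.elim_inl, Sum.elim_inr, h2]
    simp
    omega) hF
  refine (Ideal.span_le.2 ?_ : Ideal.span (Set.range f) ≤ _) h1
  rintro _ ⟨j | i | i, rfl⟩
  · exact Ideal.mem_sup_left (Ideal.mem_sup_left (Ideal.subset_span ⟨j, rfl⟩))
  · simp only [f, Sum.elim_inr, Sum.elim_inl]
    split_ifs with h
    · exact Ideal.mem_sup_left (Ideal.mem_sup_right (Ideal.subset_span ⟨i, h, rfl⟩))
    · exact Ideal.zero_mem _
  · exact Ideal.mem_sup_right (Ideal.mem_span_singleton_self _)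

/-- separation on a finite section -/
theorem core_fin {t : Fin n → Aˣ} {e : ℕ} {χ : G →* ℂˣ} (he : D.ρ ≤ e)
    (H : ∀ m m' : Fin n →₀ ℕ, m.degree = e → m'.degree = e → chr D.α m = χ → chr D.α m' = χ →
      val t m = val t m')
    {y : Fin n → ℂ} (hy0 : y ≠ 0) (hy : D.Z y) (hyt : ∀ j, aeval (pt y t) (D.f j) = 0)
    (hfin : FinZ fun v : Fin n → ℂ => D.Z v ∧ ∀ i, y i = 0 → v i = 0)
    (base : (∃ (μ : Aˣ) (g : G), ∀ i, y i ≠ 0 →
        t i = μ * Units.map (algebraMap ℂ A).toMonoidHom (D.α i g)) ∨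
      ∃ T, ∀ s, T ≤ s → ∀ φ : G →* ℂˣ, ∃ F, Typ D.α φ s F ∧ eval y F = 0 ∧ aeval (pt y t) F ≠ 0) :
    ∃ (μ : Aˣ) (g : G), ∀ i, y i ≠ 0 →
      t i = μ * Units.map (algebraMap ℂ A).toMonoidHom (D.α i g) := by
  classical
  rcases base with h | ⟨T, hT⟩
  · exact h
  exfalso
  obtain ⟨Z, hZ⟩ := hfin
  set b : ℕ := max T (D.ρ + 1) with hb
  obtain ⟨p, hp, hpZ⟩ := generic D.sit D.top
    ((insert y Z).filter fun z => z ≠ 0 ∧ ∀ q ∈ D.I, eval z q = 0)
    (fun z hz => (Finset.mem_filter.1 hz).2) (0 : Additive (G →* ℂˣ)) (t := b)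
    ((Nat.le_succ _).trans (le_max_right _ _))
  have hpT := typ_of_wh hp
  set ξ : G →* ℂˣ := Additive.toMul 0 with hξ
  have hpT' : Typ D.α ξ b p := hpT
  have hpy : eval y p ≠ 0 :=
    hpZ y (Finset.mem_filter.2 ⟨Finset.mem_insert_self _ _, hy0, (D.zero_iff y).2 hy⟩)
  obtain ⟨F, hF, hF0, hFt⟩ := hT (b + e) ((le_max_left T _).trans (Nat.le_add_right _ _)) (χ * ξ)
  have hFJ : F ∈ D.J {k | y k = 0} ⊔ Ideal.span {p} := by
    refine mem_of_form D {k | y k = 0} (b := b) ?_ hpT'.1 ?_ (s := b + e) (by omega) hF.1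
    · have := le_max_right T (D.ρ + 1)
      omega
    · intro v hv hvT hvp
      by_contra hv0
      obtain ⟨z, hz, a, rfl⟩ := hZ v ⟨hv, hvT⟩
      have ha : a ≠ 0 := by
        rintro rfl
        exact hv0 (zero_smul _ _)
      have hz0 : z ≠ 0 := by
        rintro rfl
        exact hv0 (smul_zero _)
      have hzZ : D.Z z := by
        have h3 := zero_cone D hv a⁻¹
        rwa [smul_smul, inv_mul_cancel₀ ha, one_smul] at h3
      have h3 := hpZ z (Finset.mem_filter.2 ⟨Finset.mem_insert_of_mem hz, hz0,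
        (D.zero_iff z).2 hzZ⟩)
      have h4 := eval_smul' hpT'.1 a z
      have h5 : (fun i => a * z i) = a • z := rfl
      rw [h5, hvp] at h4
      exact (mul_ne_zero (pow_ne_zero _ ha) h3) h4.symm
  obtain ⟨Q, hQ, hQJ⟩ := split_p D {k | y k = 0} hpT' hF hFJ
  have h1 := Dat.aeval_J D (A := ℂ) (z := y) (fun j => by rw [aeval_eq_eval]; exact hy j)
    (fun k hk => hk) hQJ
  rw [aeval_eq_eval] at h1
  simp only [map_sub, map_mul] at h1
  have h1' : eval y F - eval y p * eval y Q = 0 := h1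
  rw [hF0, _root_.zero_sub, neg_eq_zero] at h1'
  have hQy : eval y Q = 0 := by
    rcases mul_eq_zero.1 h1' with h | h
    · exact absurd h hpy
    · exact h
  have h2 := Dat.aeval_J D (A := A) (z := pt y t) hyt (fun k hk => by
    have hk' : y k = 0 := hk
    rw [pt, hk', map_zero, zero_mul]) hQJ
  have h3 : aeval (pt y t) Q = 0 := by
    by_cases hs : Q.support = ∅
    · rw [MvPolynomial.support_eq_empty.1 hs, map_zero]
    · obtain ⟨m0, hm0⟩ := Finset.nonempty_of_ne_empty hs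
      obtain ⟨h4, h5⟩ := Typ.supp hQ hm0
      rw [aeval_pt_const y t Q (val t m0) fun m hm => ?_, hQy, map_zero, mul_zero]
      obtain ⟨h6, h7⟩ := Typ.supp hQ hm
      exact H m m0 h6 h4 h7 h5
  rw [map_sub, map_mul, h3, mul_zero, sub_zero] at h2
  exact hFt h2

/-- the case that all the `f j` are semi-invariant for `t` -/
theorem core1 {t : Fin n → Aˣ} {e : ℕ} {χ : G →* ℂˣ} (he : D.ρ + 1 ≤ e)
    (hB : ∀ j, ∃ q : Fin n →₀ ℕ, q.degree + D.d j = e ∧ chr D.α q * D.ψ j = χ)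
    (H : ∀ m m' : Fin n →₀ ℕ, m.degree = e → m'.degree = e → chr D.α m = χ → chr D.α m' = χ →
      val t m = val t m')
    {y : Fin n → ℂ} (hy0 : y ≠ 0) (hy : D.Z y)
    (base : ∀ x : Fin n → ℂ, x ≠ 0 → D.Z x → (∀ j, aeval (pt x t) (D.f j) = 0) →
      (∃ (μ : Aˣ) (g : G), ∀ i, x i ≠ 0 →
        t i = μ * Units.map (algebraMap ℂ A).toMonoidHom (D.α i g)) ∨
      ∃ T, ∀ s, T ≤ s → ∀ φ : G →* ℂˣ, ∃ F, Typ D.α φ s F ∧ eval x F = 0 ∧ aeval (pt x t) F ≠ 0) :
    ∃ (μ : Aˣ) (g : G), ∀ i, t i = μ * Units.map (algebraMap ℂ A).toMonoidHom (D.α i g) := by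
  classical
  -- a zero of minimal support whose translate is a zero
  obtain ⟨x, hx, hxt⟩ : ∃ x, D.Min x ∧ ∀ j, aeval (pt x t) (D.f j) = 0 := by
    obtain ⟨x, hx, _⟩ := D.exists_min hy0 hy
    refine ⟨x, hx, fun j => ?_⟩
    obtain ⟨q, hq, hqc⟩ := hB j
    by_cases hs : (D.f j).support = ∅
    · rw [MvPolynomial.support_eq_empty.1 hs, map_zero]
    · obtain ⟨m0, hm0⟩ := Finset.nonempty_of_ne_empty hs
      rw [aeval_pt_const x t (D.f j) (val t m0) ?_, hx.2.1 j, map_zero, mul_zero]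
      intro m hm
      obtain ⟨h1, h2⟩ := Typ.supp (D.typ j) hm
      obtain ⟨h3, h4⟩ := Typ.supp (D.typ j) hm0
      have h5 := H (q + m) (q + m0) (by rw [map_add, h1, hq]) (by rw [map_add, h3, hq])
        (by rw [chr_add, h2, hqc]) (by rw [chr_add, h4, hqc])
      rw [val_add, val_add] at h5
      exact mul_left_cancel h5
  obtain ⟨a, ha⟩ : ∃ a, x a ≠ 0 := by
    by_contra hc
    push Not at hc
    exact hx.1 (funext hc)
  have hP : D.Prp x t χ e := by
    obtain ⟨m0, hm0, hm0c, _⟩ := D.exists_mono hx.1 hx.2.1 χ (t := e) (by omega)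
    refine ⟨(val t m0 : A), fun F hF => aeval_pt_const x t F _ fun m hm => ?_⟩
    obtain ⟨h1, h2⟩ := Typ.supp hF hm
    exact H m m0 h1 hm0 h2 hm0c
  rcases base x hx.1 hx.2.1 hxt with ⟨μ, g, hμ⟩ | ⟨T, hT⟩
  · -- extension to all coordinates
    refine ⟨μ, g, fun i => ?_⟩
    set U : ℂˣ →* Aˣ := Units.map (algebraMap ℂ A).toMonoidHom with hU
    have hval : ∀ m : Fin n →₀ ℕ, mon m x ≠ 0 → val t m = μ ^ m.degree * U (chr D.α m g) := by
      intro m hm
      unfold val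
      rw [chr_apply, map_prod, Finsupp.degree_eq_sum, ← Finset.prod_pow_eq_pow_sum,
        ← Finset.prod_mul_distrib]
      refine Finset.prod_congr rfl fun k _ => ?_
      by_cases hk : m k = 0
      · rw [hk, pow_zero, pow_zero, pow_zero, map_one, one_mul]
      · have hxk : x k ≠ 0 := by
          intro h
          apply hm
          unfold mon
          exact Finset.prod_eq_zero (Finset.mem_univ k) (by rw [h, zero_pow hk])
        rw [hμ k hxk, mul_pow, map_pow]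
    obtain ⟨m0, hm0, hm0c, hm0x⟩ := D.exists_mono hx.1 hx.2.1 χ (t := e) (by omega)
    obtain ⟨m, hm, hmc, hmx⟩ := D.exists_mono hx.1 hx.2.1 (χ * (D.α i)⁻¹) (t := e - 1) (by omega)
    have hsing : chr D.α (m + Finsupp.single i 1) = χ := by
      rw [chr_add, chr_single, hmc, hinv]
    have h1 := H (m + Finsupp.single i 1) m0 (by
      rw [map_add, hm, Finsupp.degree_single]
      omega) hm0 hsing hm0c
    rw [val_add, val_single, hval m hmx, hval m0 hm0x, hm, hm0, hmc, hm0c, MonoidHom.mul_apply,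
      map_mul, MonoidHom.inv_apply, map_inv] at h1
    have h2 : μ ^ e = μ ^ (e - 1) * μ := by
      rw [← pow_succ]
      congr 1
      omega
    rw [h2] at h1
    have h3 : μ ^ (e - 1) * U (χ g) * t i = μ ^ (e - 1) * U (χ g) * (μ * U (D.α i g)) := by
      calc μ ^ (e - 1) * U (χ g) * t i
          = (μ ^ (e - 1) * (U (χ g) * (U (D.α i g))⁻¹) * t i) * U (D.α i g) := by
            rw [← mul_assoc, mul_right_comm, mul_right_comm (μ ^ (e - 1) * U (χ g)),
              inv_mul_cancel_right, mul_right_comm (μ ^ (e - 1)) (t i)]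
        _ = (μ ^ (e - 1) * μ * U (χ g)) * U (D.α i g) := by rw [h1]
        _ = _ := by
            rw [mul_right_comm (μ ^ (e - 1)), mul_assoc]
    exact mul_left_cancel h3
  · exfalso
    obtain ⟨u, hu⟩ := Dat.Prp.iter D hx hxt ha (by omega) hP T
    obtain ⟨F, hF, hF0, hFt⟩ := hT (e + T) (by omega) (χ * D.α a ^ T)
    apply hFt
    rw [hu F hF, hF0, map_zero, mul_zero]

end Pool.Agent.W5h70.Fuj
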