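import Pool.Agent.W5h70.Fuj.Prm

/-!
# Sections of a curve by hypersurfaces, and a form of Bézout's theorem
-/

set_option autoImplicit false

namespace Pool.Agent.W5h70.Fuj

open MvPolynomial Module Pool.Agent.TH144.MB

variable {σ : Type} {K : Type} [Field K]

theorem whom_of_hom {I : Ideal (MvPolynomial σ K)} (hI : Hom I) :
    WHom (fun _ : σ => (1 : ℤ)) I := by
  classical
  intro p hp μ
  rw [← sum_homogeneousComponent p, map_sum]
  refine Ideal.sum_mem _ fun k _ => ?_
  have h1 : IsWeightedHomogeneous (fun _ : σ => (1 : ℤ)) (homogeneousComponent k p) (k : ℤ) :=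
    wh_one.2 (homogeneousComponent_isHomogeneous k p)
  rw [weightedHomogeneousComponent_of_mem
    (show _ ∈ weightedHomogeneousSubmodule K _ (k : ℤ) from h1)]
  split_ifs
  · exact hI p hp k
  · exact I.zero_mem

theorem finrank_W_mono [Finite σ] {I J : Ideal (MvPolynomial σ K)} (h : I ≤ J) (t : ℕ) :
    finrank K (W J t) ≤ finrank K (W I t) := by
  have h1 : W J t = (W I t).map (Ideal.Quotient.factorₐ K h).toLinearMap := by
    ext x
    constructor
    · intro hx
      obtain ⟨p, hp, rfl⟩ := mem_W.1 hx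
      exact ⟨Ideal.Quotient.mk I p, mem_W.2 ⟨p, hp, rfl⟩, rfl⟩
    · rintro ⟨y, hy, rfl⟩
      obtain ⟨p, hp, rfl⟩ := mem_W.1 hy
      exact mem_W.2 ⟨p, hp, rfl⟩
  rw [h1]
  have h2 : Module.Finite K (W I t) := by
    rw [← WW_eq]
    exact finite_WW fd_one I _
  exact Submodule.finrank_map_le _ _

theorem nz_of_prime {q : Ideal (MvPolynomial σ K)} (hq : q.IsPrime) {p : MvPolynomial σ K}
    (hp : p ∉ q) : NZ p q := fun _ h => (hq.mem_or_mem h).resolve_left hp

theorem fin_cut_prime [Fintype σ] [Infinite K] {q : Ideal (MvPolynomial σ K)} (hq : q.IsPrime)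
    (hH : Hom q) {C : ℕ} (hC : ∀ t, finrank K (W q t) ≤ C * (t + 1)) {p : MvPolynomial σ K}
    {b : ℕ} (hb : 0 < b) (hp : p.IsHomogeneous b) (hpq : p ∉ q) :
    FinZ fun v : σ → K => (∀ f ∈ q, eval v f = 0) ∧ eval v p = 0 := by
  classical
  by_contra hcon
  set w : σ → ℤ := fun _ => 1 with hw
  have h1 := hf_sup (fd_one (K := K) (σ := σ)) (whom_of_hom hH) (wh_one.2 hp) (nz_of_prime hq hpq)
  have h11 : ∀ (I : Ideal (MvPolynomial σ K)) (s : ℕ), hf w I (s : ℤ) = (finrank K (W I s) : ℤ) := by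
    intro I s
    rw [hf, hw, WW_eq]
  have h2 : ∀ B : ℕ, B < finrank K (W (q ⊔ Ideal.span {p}) B) := by
    intro B
    by_contra h
    apply hcon
    refine (finite_of_single (not_lt.1 h)).mono fun v hv => ?_
    rw [zero_sup]
    exact hv
  have h3 : ∀ t : ℕ, hf w q ((t : ℤ) - b) + t + 1 ≤ hf w q (t : ℤ) := by
    intro t
    have h4 := congrFun h1 (t : ℤ)
    rw [h11] at h4
    simp only [E] at h4
    have h5 := h2 t
    have h6 : (t : ℤ) + 1 ≤ (finrank K (W (q ⊔ Ideal.span {p}) t) : ℤ) := by exact_mod_cast h5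
    linarith
  have h4 : ∀ M : ℕ, (b : ℤ) * M * (M + 1) ≤ 2 * hf w q ((b * M : ℕ) : ℤ) := by
    intro M
    induction M with
    | zero =>
      have h5 := hf_nonneg w q ((b * 0 : ℕ) : ℤ)
      rw [Nat.cast_zero, mul_zero, zero_mul]
      linarith
    | succ M ih =>
      have h5 := h3 (b * (M + 1))
      have h6 : ((b * (M + 1) : ℕ) : ℤ) - b = ((b * M : ℕ) : ℤ) := by
        push_cast
        ring
      rw [h6] at h5
      push_cast at h5 ih ⊢
      nlinarith
  have h5 := h4 (2 * C + 2)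
  have h6 := hC (b * (2 * C + 2))
  rw [h11] at h5
  have h7 : (finrank K (W q (b * (2 * C + 2))) : ℤ) ≤ C * (b * (2 * C + 2) + 1) := by
    exact_mod_cast h6
  push_cast at h5
  have hb' : (1 : ℤ) ≤ b := by exact_mod_cast hb
  have hC' : (0 : ℤ) ≤ C := Int.natCast_nonneg C
  nlinarith

/-- a curve is cut in finitely many points by a form which does not vanish on its components -/
theorem fin_cut [Fintype σ] [Infinite K] {I : Ideal (MvPolynomial σ K)} (hI : Hom I) {C : ℕ}
    (hC : ∀ t, finrank K (W I t) ≤ C * (t + 1)) {p : MvPolynomial σ K}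
    {b : ℕ} (hb : 0 < b) (hp : p.IsHomogeneous b)
    (h : ∀ q ∈ I.minimalPrimes, (¬ FinZ fun v : σ → K => ∀ f ∈ q, eval v f = 0) → p ∉ q) :
    FinZ fun v : σ → K => (∀ f ∈ I, eval v f = 0) ∧ eval v p = 0 := by
  classical
  obtain ⟨s, hs⟩ := finite_minimal I
  refine (FinZ.biUnion s (P := fun q v => (∀ f ∈ q, eval v f = 0) ∧ eval v p = 0)
    fun q hq => ?_).mono fun v hv => ?_
  · have hq' := (hs q).1 hq
    by_cases hfin : FinZ fun v : σ → K => ∀ f ∈ q, eval v f = 0
    · exact hfin.mono fun v hv => hv.1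
    · exact fin_cut_prime hq'.1.1 (hom_minimal hI hq')
        (fun t => (finrank_W_mono hq'.1.2 t).trans (hC t)) hb hp (h q hq' hfin)
  · obtain ⟨q, hq, hqv⟩ := zero_minimal hv.1
    exact ⟨q, (hs q).2 hq, hqv, hv.2⟩

/-- If `q η = q' β` on an irreducible curve (or variety) `V(P)` on which `q` and `q'` have no common
zeros and the degree of `β` is less than the degree of `q`, then `β` vanishes on it. -/
theorem bezout [IsAlgClosed K] [Fintype σ] {P : Ideal (MvPolynomial σ K)} (hP : P.IsPrime)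
    (hH : Hom P) {q q' β η : MvPolynomial σ K} {dq dβ : ℕ} (hq : q.IsHomogeneous dq)
    (hβ : β.IsHomogeneous dβ) (hlt : dβ < dq) (hrel : q * η - q' * β ∈ P)
    (htop : ∀ v : σ → K, (∀ f ∈ P, eval v f = 0) → eval v q = 0 → eval v q' = 0 → v = 0)
    {i : σ} (hi : X i ∉ P) {w : σ → K} (hw : ∀ f ∈ P, eval w f = 0) (hwi : w i = 0)
    (hwq : eval w q ≠ 0) : β ∈ P := by
  classical
  obtain ⟨T, hT⟩ := exists_top (I := P ⊔ Ideal.span {q} ⊔ Ideal.span {q'}) (by
    intro v hv
    rw [zero_sup, zero_sup] at hv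
    exact htop v hv.1.1 hv.1.2 hv.2)
  set r : ℕ := dq - dβ with hr
  set k : ℕ := T + dq with hk
  -- the quotient domain and its field of fractions
  have : IsDomain (MvPolynomial σ K ⧸ P) := Ideal.Quotient.isDomain P
  let A := MvPolynomial σ K ⧸ P
  let L := FractionRing A
  let φ : MvPolynomial σ K →ₐ[K] L := (IsScalarTower.toAlgHom K A L).comp (Ideal.Quotient.mkₐ K P)
  have hφ : ∀ f, φ f = 0 ↔ f ∈ P := by
    intro f
    have h1 : φ f = algebraMap A L (Ideal.Quotient.mk P f) := rfl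
    rw [h1, FaithfulSMul.algebraMap_eq_zero_iff, Ideal.Quotient.eq_zero_iff_mem]
  have hqP : q ∉ P := fun h => hwq (hw q h)
  have hq0 : φ q ≠ 0 := fun h => hqP ((hφ q).1 h)
  set s : L := φ (X i ^ r * β) / φ q with hs
  let M : Submodule K L := (homogeneousSubmodule σ K k).map φ.toLinearMap
  have hMfin : Module.Finite K M := by
    have h3 : (homogeneousSubmodule σ K k).FG := homogeneousSubmodule_fg σ K k
    exact Module.Finite.iff_fg.2 (h3.map _)
  have hstab : ∀ x ∈ M, LinearMap.mulLeft K s x ∈ M := by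
    rintro x ⟨h, hh, rfl⟩
    have hh' : h.IsHomogeneous k := hh
    -- `h β ∈ (q) + P`
    have h1 : h * β ∈ P ⊔ Ideal.span {q} := by
      obtain ⟨a', ha'⟩ := mem_sup_iff.1 (hT k (by omega) h hh')
      obtain ⟨a, ha⟩ := mem_sup_iff.1 ha'
      refine mem_sup_iff.2 ⟨a * β + a' * η, ?_⟩
      have h2 := P.add_mem (P.mul_mem_right β ha) (P.mul_mem_left (-a') hrel)
      convert h2 using 1
      ring
    obtain ⟨h', hh'', h2⟩ := mem_sup_hom hH hq (n := k - r) (by
      have h3 := hh'.mul hβ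
      have h4 : k + dβ = dq + (k - r) := by omega
      rwa [h4] at h3) h1
    refine ⟨X i ^ r * h', ?_, ?_⟩
    · have h3 := ((isHomogeneous_X K i).pow r).mul hh''
      have h4 : 1 * r + (k - r) = k := by omega
      rw [h4] at h3
      exact h3
    · have h3 : φ (h * β) = φ (q * h') := by
        rw [← sub_eq_zero, ← map_sub]
        exact (hφ _).2 h2
      show φ (X i ^ r * h') = s * φ h
      rw [hs, div_mul_eq_mul_div, eq_div_iff hq0]
      simp only [map_mul] at h3 ⊢
      linear_combination (-(φ (X i ^ r))) * h3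
  have hMne : Nontrivial M := by
    refine ⟨⟨⟨φ (X i ^ k), ⟨X i ^ k, ?_, rfl⟩⟩, 0, fun h => ?_⟩⟩
    · have h3 := (isHomogeneous_X K i).pow k
      rw [one_mul] at h3
      exact h3
    · have h4 : φ (X i ^ k) = 0 := congrArg Subtype.val h
      exact hi (hP.mem_of_pow_mem k ((hφ _).1 h4))
  obtain ⟨lam, hlam⟩ := Module.End.exists_eigenvalue ((LinearMap.mulLeft K s).restrict hstab)
  obtain ⟨x, hx⟩ := hlam.exists_hasEigenvector
  have hx1 : s * (x : L) = lam • (x : L) := congrArg Subtype.val hx.apply_eq_smul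
  have hx0 : (x : L) ≠ 0 := fun h => hx.2 (Subtype.ext h)
  have hs2 : s = algebraMap K L lam := by
    rw [Algebra.smul_def] at hx1
    exact mul_right_cancel₀ hx0 hx1
  have h5 : X i ^ r * β - C lam * q ∈ P := by
    rw [← hφ, map_sub, map_mul φ (C lam) q]
    have h6 : φ (C lam) = algebraMap K L lam := φ.commutes lam
    rw [h6, ← hs2, hs, div_mul_cancel₀ _ hq0, sub_self]
  have h6 : lam = 0 := by
    have h7 := hw _ h5
    rw [map_sub, map_mul, map_mul, map_pow, eval_X, eval_C, hwi, zero_pow (by omega), zero_mul,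
      _root_.zero_sub, neg_eq_zero] at h7
    exact (mul_eq_zero.1 h7).resolve_right hwq
  rw [h6, C_0, zero_mul, _root_.sub_zero] at h5
  rcases hP.mem_or_mem h5 with h | h
  · exact absurd (hP.mem_of_pow_mem r h) hi
  · exact h

end Pool.Agent.W5h70.Fuj
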