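import Pool.Agent.TH144.MB.Macaulay

/-!
# Macaulay's bound with one form more than necessary

If forms without nonzero common zeros are more than there are variables, then a form `f j0` of
smallest degree may be dropped from the bound.
-/

set_option autoImplicit false

namespace Pool.Agent.W5h70.Fuj

open MvPolynomial Module Pool.Agent.TH144.MB

variable {K : Type} [Field K]

/-- a polynomial map to a space of larger dimension satisfies a polynomial relation -/
theorem exists_rel {T τ : Type} [Fintype T] [Fintype τ] (F : T → MvPolynomial τ K)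
    (hc : Fintype.card τ < Fintype.card T) :
    ∃ Φ : MvPolynomial T K, Φ ≠ 0 ∧ ∀ v : τ → K, eval (fun i => eval v (F i)) Φ = 0 := by
  classical
  have h1 : ¬ AlgebraicIndependent K F := by
    intro h
    have h2 := h.cardinalMk_le_trdeg
    rw [MvPolynomial.trdeg_of_isDomain, Cardinal.lift_id, Cardinal.mk_fintype,
      Cardinal.mk_fintype, Nat.cast_le] at h2
    omega
  rw [algebraicIndependent_iff] at h1
  push Not at h1
  obtain ⟨Φ, hΦ, hΦ0⟩ := h1
  refine ⟨Φ, hΦ0, fun v => ?_⟩
  have h3 : eval v (aeval F Φ) = eval (fun i => eval v (F i)) Φ := by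
    have h4 : ((aeval v : MvPolynomial τ K →ₐ[K] K).comp (aeval F)) Φ
        = aeval (fun i => aeval v (F i)) Φ := by
      rw [comp_aeval]
    simpa [aeval_eq_eval] using h4
  rw [← h3, hΦ, map_zero]

/-- forms `g j` of the degrees `d j`, `j ≠ j0`, in the ideal of the `f j`, without common zeros -/
theorem exists_drop [IsAlgClosed K] {ι σ : Type} [Fintype ι] [Fintype σ] [DecidableEq ι]
    (f : ι → MvPolynomial σ K) (d : ι → ℕ) (hf : ∀ i, (f i).IsHomogeneous (d i)) (j0 : ι)
    (hj0 : ∀ j, d j0 ≤ d j) (hc : Fintype.card σ + 1 ≤ Fintype.card ι)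
    (hv : ∀ v : σ → K, (∀ i, eval v (f i) = 0) → v = 0) :
    ∃ g : {j // j ≠ j0} → MvPolynomial σ K, (∀ j, (g j).IsHomogeneous (d j)) ∧
      (∀ j, g j ∈ Ideal.span (Set.range f)) ∧
      ∀ v : σ → K, (∀ j, eval v (g j) = 0) → v = 0 := by
  classical
  have := IsAlgClosed.instInfinite (K := K)
  let J : Type := {j // j ≠ j0}
  have hJ : Fintype.card J + 1 = Fintype.card ι := by
    have h1 : Fintype.card J = Fintype.card ι - 1 := by
      simp only [J]
      rw [Fintype.card_subtype_compl, Fintype.card_subtype_eq]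
    rw [h1]
    have : 0 < Fintype.card ι := Fintype.card_pos_iff.2 ⟨j0⟩
    omega
  let T : Type := Option (J × σ)
  let τ : σ → Type := fun i => {l // l ≠ i} ⊕ (Unit ⊕ (J × {l // l ≠ i}))
  let φ : (i : σ) → MvPolynomial σ K →ₐ[K] MvPolynomial (τ i) K := fun i =>
    aeval fun l => if h : l ≠ i then X (Sum.inl ⟨l, h⟩) else 1
  let s : (i : σ) → MvPolynomial (τ i) K := fun i => X (Sum.inr (Sum.inl ()))
  let a : J → ℕ := fun j => d j - d j0
  let F : (i : σ) → T → MvPolynomial (τ i) K := fun i o => o.elim (s i * φ i (f j0)) fun x =>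
    if h : x.2 ≠ i then X (Sum.inr (Sum.inr (x.1, ⟨x.2, h⟩)))
    else s i * φ i (f x.1) - ∑ l : {l // l ≠ i}, X (Sum.inr (Sum.inr (x.1, l))) * X (Sum.inl l) ^ a x.1
  have hcard : ∀ i, Fintype.card (τ i) < Fintype.card T := by
    intro i
    have h1 : Fintype.card {l // l ≠ i} + 1 = Fintype.card σ := by
      rw [Fintype.card_subtype_compl, Fintype.card_subtype_eq]
      have : 0 < Fintype.card σ := Fintype.card_pos_iff.2 ⟨i⟩
      omega
    simp only [τ, T, Fintype.card_sum, Fintype.card_option, Fintype.card_prod, Fintype.card_unit]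
    rw [← h1]
    have h2 : Fintype.card {l // l ≠ i} + 1 ≤ Fintype.card J := by omega
    rw [Nat.mul_add, Nat.mul_one]
    omega
  have hrel := fun i => exists_rel (F i) (hcard i)
  choose Φ hΦ0 hΦ using hrel
  obtain ⟨p, hp⟩ : ∃ p : T → K, eval p (X none * ∏ i, Φ i) ≠ 0 := by
    by_contra hcon
    push Not at hcon
    have h1 : (X none : MvPolynomial T K) * ∏ i, Φ i = 0 :=
      MvPolynomial.funext fun c => by rw [hcon c, map_zero]
    rcases mul_eq_zero.1 h1 with h | h
    · exact X_ne_zero _ h
    · rw [Finset.prod_eq_zero_iff] at h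
      obtain ⟨i, _, hi⟩ := h
      exact hΦ0 i hi
  rw [map_mul, eval_X, map_prod] at hp
  set lam : K := p none with hlam
  have hlam0 : lam ≠ 0 := left_ne_zero_of_mul hp
  have hpΦ : ∀ i, eval p (Φ i) ≠ 0 := fun i =>
    (Finset.prod_ne_zero_iff.1 (right_ne_zero_of_mul hp)) i (Finset.mem_univ i)
  let h : J → MvPolynomial σ K := fun j => ∑ l, C (p (some (j, l))) * X l ^ a j
  let g : J → MvPolynomial σ K := fun j => C lam * f j - h j * f j0
  have hh : ∀ j, (h j).IsHomogeneous (a j) := by
    intro j
    refine IsHomogeneous.sum _ _ _ fun l _ => ?_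
    have h1 := (isHomogeneous_C σ (p (some (j, l)))).mul ((isHomogeneous_X K l).pow (a j))
    simpa using h1
  have hg : ∀ j, (g j).IsHomogeneous (d j) := by
    intro j
    refine ((hf j).C_mul _).sub ?_
    have h1 := (hh j).mul (hf j0)
    have h2 : a j + d j0 = d j := by
      have := hj0 j
      simp only [a]
      omega
    rwa [h2] at h1
  refine ⟨g, hg, fun j => Ideal.sub_mem _ (Ideal.mul_mem_left _ _ (Ideal.subset_span ⟨j, rfl⟩))
    (Ideal.mul_mem_left _ _ (Ideal.subset_span ⟨j0, rfl⟩)), fun v hv1 => ?_⟩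
  by_contra hv0
  obtain ⟨i, hi⟩ : ∃ i, v i ≠ 0 := by
    by_contra hcon
    push Not at hcon
    exact hv0 (funext hcon)
  -- normalization
  set u : σ → K := fun l => (v i)⁻¹ * v l with hu
  have hui : u i = 1 := by
    simp only [hu]
    exact inv_mul_cancel₀ hi
  have hug : ∀ j, eval u (g j) = 0 := by
    intro j
    rw [hu, eval_smul' (hg j), hv1 j, mul_zero]
  have hge : ∀ j : J, lam * eval u (f j) = (∑ l, p (some (j, l)) * u l ^ a j) * eval u (f j0) := by
    intro j
    have h1 := hug j
    simp only [g, h, map_sub, map_mul, map_sum, map_pow, eval_C, eval_X] at h1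
    exact sub_eq_zero.1 h1
  by_cases hf0 : eval u (f j0) = 0
  · have h1 : u = 0 := by
      refine hv u fun j => ?_
      by_cases hj : j = j0
      · rw [hj, hf0]
      · have h2 := hge ⟨j, hj⟩
        rw [hf0, mul_zero] at h2
        exact (mul_eq_zero.1 h2).resolve_left hlam0
    have h2 := congrFun h1 i
    rw [hui] at h2
    exact one_ne_zero h2
  · -- the point is in the image of the chart
    set s0 : K := lam / eval u (f j0) with hs0
    let q : τ i → K := Sum.elim (fun l => u l) (Sum.elim (fun _ => s0) fun x => p (some (x.1, x.2)))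
    have hφ : ∀ P : MvPolynomial σ K, eval q (φ i P) = eval u P := by
      intro P
      have h2 : (aeval q : MvPolynomial (τ i) K →ₐ[K] K).comp (φ i) = aeval u := by
        apply algHom_ext
        intro l
        simp only [φ, AlgHom.comp_apply, aeval_X]
        split_ifs with h
        · rw [aeval_X]
          rfl
        · rw [map_one, not_not.1 h, hui]
      have h3 := DFunLike.congr_fun h2 P
      simpa [aeval_eq_eval] using h3
    have hpt : (fun o => eval q (F i o)) = p := by
      funext o
      rcases o with _ | ⟨j, l⟩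
      · simp only [F, Option.elim, map_mul, s, eval_X, hφ]
        show s0 * eval u (f j0) = p none
        rw [hs0, div_mul_cancel₀ _ hf0]
      · by_cases hl : l ≠ i
        · simp only [F, Option.elim, dif_pos hl, eval_X]
          rfl
        · have hl' : l = i := not_not.1 hl
          subst hl'
          simp only [F, Option.elim, ne_eq, not_true_eq_false, dite_false, map_sub, map_mul,
            map_sum, map_pow, s, eval_X, hφ]
          show s0 * eval u (f j) - ∑ l' : {l' // l' ≠ l}, p (some (j, l'.1)) * u l'.1 ^ a j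
            = p (some (j, l))
          have h4 := hge j
          rw [← Finset.add_sum_erase Finset.univ (fun l' => p (some (j, l')) * u l' ^ a j)
            (Finset.mem_univ l), hui, one_pow, mul_one] at h4
          have h5 : ∑ l' : {l' // l' ≠ l}, p (some (j, l'.1)) * u l'.1 ^ a j
              = ∑ l' ∈ Finset.univ.erase l, p (some (j, l')) * u l' ^ a j := by
            refine (Finset.sum_subtype (Finset.univ.erase l) (fun x => ?_)
              (fun l' => p (some (j, l')) * u l' ^ a j)).symm
            simp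
          rw [h5, hs0, div_mul_eq_mul_div, h4, mul_div_cancel_right₀ _ hf0]
          ring
    have h6 := hΦ i q
    rw [hpt] at h6
    exact hpΦ i h6

theorem macaulay_drop [IsAlgClosed K] {ι σ : Type} [Fintype ι] [Fintype σ]
    (f : ι → MvPolynomial σ K) (d : ι → ℕ) (hf : ∀ i, (f i).IsHomogeneous (d i))
    (hd : ∀ i, 0 < d i) (j0 : ι) (hj0 : ∀ j, d j0 ≤ d j)
    (hc : Fintype.card σ + 1 ≤ Fintype.card ι)
    (hv : ∀ v : σ → K, (∀ i, eval v (f i) = 0) → v = 0) {t : ℕ}
    (ht : ∑ i, (d i - 1) < t + (d j0 - 1)) {p : MvPolynomial σ K} (hp : p.IsHomogeneous t) :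
    p ∈ Ideal.span (Set.range f) := by
  classical
  obtain ⟨g, hg, hgf, hgv⟩ := exists_drop f d hf j0 hj0 hc hv
  have h1 := macaulay g (fun j => d j) hg (fun j => hd j) (by
    rw [Fintype.card_subtype_compl, Fintype.card_subtype_eq]
    omega) hgv (t := t) (by
    have h2 := Finset.add_sum_erase Finset.univ (fun i => d i - 1) (Finset.mem_univ j0)
    have h3 : ∑ j : {j // j ≠ j0}, (d j - 1) = ∑ j ∈ Finset.univ.erase j0, (d j - 1) :=
      (Finset.sum_subtype (Finset.univ.erase j0) (fun x => by simp) (fun j => d j - 1)).symm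
    rw [h3]
    omega) hp
  refine (Ideal.span_le.2 ?_ : Ideal.span (Set.range g) ≤ _) h1
  rintro _ ⟨j, rfl⟩
  exact hgf j

end Pool.Agent.W5h70.Fuj
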