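import Mathlib

/-!
# Difference operators on functions `ℤ × A → ℤ`

`E γ h μ = h μ - h (μ - γ)`; `Rf s h μ = h (s - μ)`. `symm`: the symmetry of the Hilbert function of
a finite length complete intersection. `pos`: the positivity of the Hilbert function of a curve in
the upper half of the degrees.
-/

set_option autoImplicit false

namespace Pool.Agent.W5h70.Fuj

section Fn

variable {M : Type} [AddCommGroup M]

/-- the difference operator -/
def E (γ : M) (h : M → ℤ) : M → ℤ := fun μ => h μ - h (μ - γ)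

/-- several difference operators -/
def EL : List M → (M → ℤ) → (M → ℤ)
  | [], h => h
  | γ :: Γ, h => EL Γ (E γ h)

/-- reflection -/
def Rf (s : M) (h : M → ℤ) : M → ℤ := fun μ => h (s - μ)

theorem E_comm (γ γ' : M) (h : M → ℤ) : E γ (E γ' h) = E γ' (E γ h) := by
  funext μ
  simp only [E]
  rw [show μ - γ - γ' = μ - γ' - γ by abel]
  ring

theorem EL_E (Γ : List M) : ∀ (γ : M) (h : M → ℤ), EL Γ (E γ h) = E γ (EL Γ h) := by
  induction Γ with
  | nil => intro γ h; rfl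
  | cons γ' Γ ih =>
    intro γ h
    simp only [EL]
    rw [E_comm γ' γ h, ih γ (E γ' h)]

theorem EL_comm (Γ Γ' : List M) : ∀ h : M → ℤ, EL Γ (EL Γ' h) = EL Γ' (EL Γ h) := by
  induction Γ with
  | nil => intro h; rfl
  | cons γ Γ ih =>
    intro h
    simp only [EL]
    rw [← EL_E Γ' γ h, ih (E γ h)]

theorem EL_append (Γ Γ' : List M) : ∀ h : M → ℤ, EL (Γ ++ Γ') h = EL Γ' (EL Γ h) := by
  induction Γ with
  | nil => intro h; rfl
  | cons γ Γ ih => intro h; exact ih _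

theorem E_sub (γ : M) (h h' : M → ℤ) : E γ (h - h') = E γ h - E γ h' := by
  funext μ
  simp only [E, Pi.sub_apply]
  ring

theorem EL_sub (Γ : List M) : ∀ h h' : M → ℤ, EL Γ (h - h') = EL Γ h - EL Γ h' := by
  induction Γ with
  | nil => intro h h'; rfl
  | cons γ Γ ih =>
    intro h h'
    simp only [EL]
    rw [E_sub, ih]

theorem E_smul (γ : M) (c : ℤ) (h : M → ℤ) : E γ (c • h) = c • E γ h := by
  funext μ
  simp only [E, Pi.smul_apply, smul_eq_mul]
  ring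

theorem EL_smul (Γ : List M) : ∀ (c : ℤ) (h : M → ℤ), EL Γ (c • h) = c • EL Γ h := by
  induction Γ with
  | nil => intro c h; rfl
  | cons γ Γ ih =>
    intro c h
    simp only [EL]
    rw [E_smul, ih]

theorem E_Rf (γ s : M) (h : M → ℤ) : E γ (Rf s h) = (-1 : ℤ) • Rf (s + γ) (E γ h) := by
  funext μ
  simp only [E, Rf, Pi.smul_apply, smul_eq_mul]
  rw [show s - (μ - γ) = s + γ - μ by abel, show s + γ - μ - γ = s - μ by abel]
  ring

theorem EL_Rf (Γ : List M) : ∀ (s : M) (h : M → ℤ),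
    EL Γ (Rf s h) = ((-1 : ℤ) ^ Γ.length) • Rf (s + Γ.sum) (EL Γ h) := by
  induction Γ with
  | nil => intro s h; simp [EL]
  | cons γ Γ ih =>
    intro s h
    simp only [EL]
    rw [E_Rf, EL_smul, ih, List.length_cons, List.sum_cons, smul_smul, pow_succ, add_assoc]
    ring_nf

end Fn

section Band

variable {A : Type} [AddCommGroup A]

/-- `h` vanishes in very negative degrees -/
def Bd (h : ℤ × A → ℤ) : Prop := ∃ B : ℤ, ∀ μ : ℤ × A, μ.1 < B → h μ = 0

theorem Bd.E {h : ℤ × A → ℤ} (hh : Bd h) (γ : ℤ × A) : Bd (E γ h) := by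
  obtain ⟨B, hB⟩ := hh
  refine ⟨min B (B + γ.1), fun μ hμ => ?_⟩
  rw [lt_min_iff] at hμ
  simp only [Fuj.E]
  rw [hB μ hμ.1, hB (μ - γ) (by rw [Prod.fst_sub]; omega), sub_zero]

theorem eq_zero_of_E {h : ℤ × A → ℤ} (hh : Bd h) {w : ℤ × A} (hw : w.1 = 1) (h0 : E w h = 0) :
    h = 0 := by
  obtain ⟨B, hB⟩ := hh
  have h1 : ∀ (n : ℕ) (μ : ℤ × A), h μ = h (μ - n • w) := by
    intro n
    induction n with
    | zero => intro μ; simp
    | succ n ih =>
      intro μ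
      have h2 := congrFun h0 (μ - n • w)
      simp only [E, Pi.zero_apply] at h2
      rw [ih μ, succ_nsmul, ← sub_sub]
      exact sub_eq_zero.1 h2
  funext μ
  rw [h1 (μ.1 - B + 1).toNat μ]
  refine hB _ ?_
  rw [Prod.fst_sub, Prod.smul_fst, hw, nsmul_eq_mul, mul_one]
  have := Int.self_le_toNat (μ.1 - B + 1)
  omega

theorem eq_zero_of_EL (W : List (ℤ × A)) : ∀ {h : ℤ × A → ℤ}, Bd h → (∀ w ∈ W, w.1 = 1) →
    EL W h = 0 → h = 0 := by
  induction W with
  | nil => intro h _ _ h0; exact h0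
  | cons w W ih =>
    intro h hh hW h0
    exact eq_zero_of_E hh (hW w (by simp)) (ih (hh.E w) (fun w' hw' => hW w' (by simp [hw'])) h0)

/-- the symmetry of the Hilbert function of a complete intersection of finite length -/
theorem symm (W Γ : List (ℤ × A)) (hlen : W.length = Γ.length) (hW : ∀ w ∈ W, w.1 = 1)
    {h0 : ℤ × A → ℤ} {δ0 : ℤ × A → ℤ} (hδ : Rf 0 δ0 = δ0) (h1 : EL W h0 = δ0) {q : ℤ × A → ℤ}
    (hq : q = EL Γ h0) {B1 B2 : ℤ} (hB1 : ∀ μ : ℤ × A, μ.1 < B1 → q μ = 0)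
    (hB2 : ∀ μ : ℤ × A, B2 < μ.1 → q μ = 0) : Rf (Γ.sum - W.sum) q = q := by
  have h2 : EL W q = EL Γ δ0 := by rw [hq, EL_comm, h1]
  have h3 : EL W (Rf (Γ.sum - W.sum) q) = EL Γ δ0 := by
    rw [EL_Rf, h2, sub_add_cancel, hlen]
    conv_rhs => rw [← hδ]
    rw [EL_Rf, zero_add]
  have h4 : EL W (Rf (Γ.sum - W.sum) q - q) = 0 := by rw [EL_sub, h3, h2, sub_self]
  have h5 : Bd (Rf (Γ.sum - W.sum) q - q) := by
    refine ⟨min B1 ((Γ.sum - W.sum).1 - B2), fun μ hμ => ?_⟩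
    rw [lt_min_iff] at hμ
    simp only [Pi.sub_apply, Rf]
    rw [hB1 μ hμ.1, hB2 (Γ.sum - W.sum - μ) (by rw [Prod.fst_sub]; omega), sub_zero]
  exact sub_eq_zero.1 (eq_zero_of_EL W h5 hW h4)

/-- the second difference of `h - Rf ω h` vanishes -/
theorem second (W Γ : List (ℤ × A)) (hlen : W.length = Γ.length + 2) (hW : ∀ w ∈ W, w.1 = 1)
    {h0 : ℤ × A → ℤ} {δ0 : ℤ × A → ℤ} (hδ : Rf 0 δ0 = δ0) (h1 : EL W h0 = δ0) {h : ℤ × A → ℤ}
    (hh : h = EL Γ h0) (γ γ' : ℤ × A) {B1 B2 : ℤ}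
    (hB1 : ∀ μ : ℤ × A, μ.1 < B1 → E γ' (E γ h) μ = 0)
    (hB2 : ∀ μ : ℤ × A, B2 < μ.1 → E γ' (E γ h) μ = 0) :
    E γ' (E γ (h - Rf (Γ.sum - W.sum) h)) = 0 := by
  have hq : E γ' (E γ h) = EL (Γ ++ [γ, γ']) h0 := by
    rw [EL_append, ← hh]
    rfl
  have h2 := symm W (Γ ++ [γ, γ']) (by simp [hlen]) hW hδ h1 hq hB1 hB2
  have h3 : E γ' (E γ (Rf (Γ.sum - W.sum) h)) = E γ' (E γ h) := by
    rw [E_Rf, E_smul, E_Rf, smul_smul]
    rw [show (-1 : ℤ) * -1 = 1 by norm_num, one_smul]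
    have h4 : (Γ ++ [γ, γ']).sum - W.sum = Γ.sum - W.sum + γ + γ' := by
      rw [List.sum_append]
      simp only [List.sum_cons, List.sum_nil, add_zero]
      abel
    rw [h4] at h2
    exact h2
  rw [E_sub, E_sub, h3, sub_self]

end Band

end Pool.Agent.W5h70.Fuj
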