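import Pool.Agent.W5h70.Fuj.Fin

/-!
# A regular sequence of `n - 1` forms in `n` variables has finitely many common zeros
-/

set_option autoImplicit false

namespace Pool.Agent.W5h70.Fuj

open MvPolynomial Module Pool.Agent.TH144.MB

theorem E_nsmul (d : ℕ) (h : ℤ → ℤ) (μ : ℤ) :
    E (d : ℤ) h μ = ∑ i ∈ Finset.range d, E 1 h (μ - i) := by
  induction d with
  | zero => simp [E]
  | succ d ih =>
    rw [Finset.sum_range_succ, ← ih]
    simp only [E]
    push_cast
    rw [show μ - d - 1 = μ - (d + 1) by ring]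
    ring

theorem van (D : List ℕ) : ∀ (h : ℤ → ℤ) (T : ℤ),
    (∀ μ, T < μ → EL (List.replicate D.length (1 : ℤ)) h μ = 0) →
    ∃ T', ∀ μ, T' < μ → EL (D.map fun d : ℕ => (d : ℤ)) h μ = 0 := by
  induction D with
  | nil => intro h T hT; exact ⟨T, hT⟩
  | cons d D ih =>
    intro h T hT
    refine ih (E (d : ℤ) h) (T + d) fun μ hμ => ?_
    rw [EL_E, E_nsmul]
    refine Finset.sum_eq_zero fun i hi => ?_
    have h1 := hT (μ - i) (by
      have := Finset.mem_range.1 hi
      omega)
    rw [List.length_cons, List.replicate_succ] at h1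
    simp only [EL] at h1
    rw [EL_E] at h1
    exact h1

variable {σ : Type} {K : Type} [Field K]

theorem wh_one {p : MvPolynomial σ K} {d : ℕ} :
    IsWeightedHomogeneous (fun _ : σ => (1 : ℤ)) p (d : ℤ) ↔ p.IsHomogeneous d := by
  have h1 : ∀ m : σ →₀ ℕ, Finsupp.weight (fun _ : σ => (1 : ℤ)) m = (m.degree : ℤ) := by
    intro m
    rw [Finsupp.weight_apply, Finsupp.degree_apply, Finsupp.sum]
    simp
  constructor
  · intro h m hm
    have h2 := h hm
    rw [h1, Nat.cast_inj] at h2
    rw [Finsupp.degree_eq_weight_one] at h2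
    exact h2
  · intro h m hm
    rw [h1, Nat.cast_inj]
    by_contra h2
    exact hm (h.coeff_eq_zero h2)

theorem wh_neg {p : MvPolynomial σ K} {d : ℤ} (hd : d < 0)
    (h : IsWeightedHomogeneous (fun _ : σ => (1 : ℤ)) p d) : p = 0 := by
  have h1 : ∀ m : σ →₀ ℕ, Finsupp.weight (fun _ : σ => (1 : ℤ)) m = (m.degree : ℤ) := by
    intro m
    rw [Finsupp.weight_apply, Finsupp.degree_apply, Finsupp.sum]
    simp
  ext m
  rw [coeff_zero]
  by_contra hm
  have h2 := h hm
  rw [h1] at h2
  omega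

theorem WW_eq (I : Ideal (MvPolynomial σ K)) (t : ℕ) :
    WW (fun _ : σ => (1 : ℤ)) I (t : ℤ) = W I t := by
  ext x
  rw [mem_WW, mem_W]
  simp only [wh_one]

theorem fd_one [Finite σ] : FD K (fun _ : σ => (1 : ℤ)) := by
  intro μ
  have h2 : weightedHomogeneousSubmodule K (fun _ : σ => (1 : ℤ)) μ
      ≤ homogeneousSubmodule σ K μ.toNat := by
    intro p hp
    rcases lt_or_ge μ 0 with h | h
    · rw [wh_neg h hp]
      exact Submodule.zero_mem _
    · have h3 : μ = (μ.toNat : ℤ) := (Int.toNat_of_nonneg h).symm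
      rw [h3] at hp
      exact wh_one.1 hp
  have h3 : Module.Finite K (homogeneousSubmodule σ K μ.toNat) :=
    Module.Finite.iff_fg.2 (homogeneousSubmodule_fg σ K μ.toNat)
  exact Submodule.finiteDimensional_of_le h2

theorem finite_of_reg [Fintype σ] [Infinite K] (gs : List (MvPolynomial σ K × ℕ))
    (hgs : ∀ x ∈ gs, x.1.IsHomogeneous x.2) (hlen : gs.length + 1 = Fintype.card σ)
    (hreg : Reg ⊥ (gs.map Prod.fst)) :
    FinZ fun v : σ → K => ∀ x ∈ gs, eval v x.1 = 0 := by
  classical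
  set w : σ → ℤ := fun _ => 1 with hw
  set I : Ideal (MvPolynomial σ K) := TH144.MB.ext ⊥ (gs.map Prod.fst) with hI
  have h1 := (hf_ext (fd_one (K := K) (σ := σ)) (gs.map fun x => (x.1, (x.2 : ℤ))) ⊥
    (whom_bot w) (by
      intro x hx
      obtain ⟨y, hy, rfl⟩ := List.mem_map.1 hx
      exact wh_one.2 (hgs y hy)) (by
      rw [List.map_map]
      exact hreg)).1
  rw [List.map_map, List.map_map] at h1
  have h2 : List.map (Prod.fst ∘ fun x : MvPolynomial σ K × ℕ => (x.1, (x.2 : ℤ))) gs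
      = gs.map Prod.fst := rfl
  have h3 : List.map (Prod.snd ∘ fun x : MvPolynomial σ K × ℕ => (x.1, (x.2 : ℤ))) gs
      = (gs.map Prod.snd).map fun d : ℕ => (d : ℤ) := by rw [List.map_map]; rfl
  rw [h2, h3, ← hI] at h1
  set h : ℤ → ℤ := hf w I with hh
  set h0 : ℤ → ℤ := hf w (⊥ : Ideal (MvPolynomial σ K)) with hh0
  obtain ⟨T', hT'⟩ := van (gs.map Prod.snd) (E 1 h0) 0 (by
    intro μ hμ
    have h4 := EL_X (fd_one (K := K) (σ := σ))
    have h5 : (Finset.univ : Finset σ).toList.map w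
        = List.replicate (gs.map Prod.snd).length (1 : ℤ) ++ [1] := by
      rw [List.eq_replicate_of_mem (a := (1 : ℤ)) (l := (Finset.univ : Finset σ).toList.map w)
        (fun b hb => by
          obtain ⟨i, _, rfl⟩ := List.mem_map.1 hb
          rfl)]
      rw [List.length_map, List.length_map, Finset.length_toList, Finset.card_univ, ← hlen,
        List.replicate_succ']
    have h6 : EL (List.replicate (gs.map Prod.snd).length (1 : ℤ)) (E 1 h0)
        = EL ((Finset.univ : Finset σ).toList.map w) h0 := by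
      rw [h5, EL_append, EL_E]
      rfl
    rw [h6, h4]
    exact hf_X w hμ.ne')
  have h7 : ∀ μ, T' < μ → h μ = h (μ - 1) := by
    intro μ hμ
    have h8 := hT' μ hμ
    rw [EL_E, ← h1] at h8
    exact sub_eq_zero.1 h8
  have hfin : ∃ B, ∀ t, finrank K (W I t) ≤ B := by
    refine ⟨∑ s ∈ Finset.range (T'.toNat + 2), finrank K (W I s), fun t => ?_⟩
    induction t using Nat.strong_induction_on with
    | _ t ih =>
      rcases lt_or_ge t (T'.toNat + 2) with h8 | h8
      · exact Finset.single_le_sum (f := fun s => finrank K (W I s)) (fun _ _ => Nat.zero_le _)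
          (Finset.mem_range.2 h8)
      · have h9 := h7 (t : ℤ) (by omega)
        have h10 : ((t : ℤ) - 1) = ((t - 1 : ℕ) : ℤ) := by omega
        rw [h10] at h9
        have h11 : ∀ s : ℕ, h (s : ℤ) = (finrank K (W I s) : ℤ) := by
          intro s
          rw [hh, hf, hw, WW_eq]
        rw [h11, h11, Nat.cast_inj] at h9
        rw [h9]
        exact ih (t - 1) (by omega)
  obtain ⟨B, hB⟩ := hfin
  obtain ⟨Z, hZ⟩ := finite_of_bounded hB
  refine ⟨Z, fun v hv => hZ v ?_⟩
  show ∀ p ∈ I, eval v p = 0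
  rw [hI, ext_zero_bot]
  intro f hf
  obtain ⟨x, hx, rfl⟩ := List.mem_map.1 hf
  exact hv x hx

end Pool.Agent.W5h70.Fuj
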