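import Pool.Agent.W5h40.Fuj.Reduce
import Pool.Agent.W5h70.Fuj.RegFin

/-!
# Curves in a coordinate plane

If the semi-invariant forms `f j` have infinitely many common zeros on a coordinate plane, without
vanishing there, then the curve of their common zeros contains a curve with a semi-invariant
equation `h`, the greatest common divisor of their restrictions.
-/

set_option autoImplicit false

namespace Pool.Agent.W5h70.Fuj

open MvPolynomial Module Pool.Agent.TH144.MB Pool.Agent.W5h40.Fuj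

section
variable {σ : Type} {K : Type} [Field K]

/-- a divisor of a form is a form -/
theorem hom_of_mul {p q : MvPolynomial σ K} {d : ℕ} (h : (p * q).IsHomogeneous d)
    (h0 : p * q ≠ 0) : p.IsHomogeneous p.totalDegree := by
  classical
  have hp0 : p ≠ 0 := left_ne_zero_of_mul h0
  have hq0 : q ≠ 0 := right_ne_zero_of_mul h0
  have ex : ∀ r : MvPolynomial σ K, r ≠ 0 → ∃ a, homogeneousComponent a r ≠ 0 := by
    intro r hr
    by_contra hc
    push Not at hc
    apply hr
    rw [← sum_homogeneousComponent r]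
    exact Finset.sum_eq_zero fun i _ => hc i
  have le_td : ∀ (r : MvPolynomial σ K) (a : ℕ), homogeneousComponent a r ≠ 0 →
      a ≤ r.totalDegree := by
    intro r a ha
    by_contra hc
    exact ha (homogeneousComponent_eq_zero _ _ (by omega))
  set a := Nat.find (ex p hp0) with ha
  set b := Nat.find (ex q hq0) with hb
  have ha1 : homogeneousComponent a p ≠ 0 := Nat.find_spec (ex p hp0)
  have hb1 : homogeneousComponent b q ≠ 0 := Nat.find_spec (ex q hq0)
  have ha2 : ∀ i, i < a → homogeneousComponent i p = 0 := fun i hi => by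
    by_contra hc
    exact Nat.find_min (ex p hp0) hi hc
  have hb2 : ∀ i, i < b → homogeneousComponent i q = 0 := fun i hi => by
    by_contra hc
    exact Nat.find_min (ex q hq0) hi hc
  have key : homogeneousComponent (a + b) (p * q)
      = homogeneousComponent a p * homogeneousComponent b q := by
    conv_lhs => rw [← sum_homogeneousComponent p, Finset.sum_mul, map_sum]
    rw [Finset.sum_eq_single a]
    · rw [comp_mul (homogeneousComponent_isHomogeneous a p)]
    · intro i _ hi
      rcases lt_or_gt_of_ne hi with h1 | h1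
      · rw [ha2 i h1, zero_mul, map_zero]
      · rcases Nat.lt_or_ge (a + b) i with h2 | h2
        · exact comp_mul_lt (homogeneousComponent_isHomogeneous i p) q h2
        · obtain ⟨k, hk⟩ := Nat.exists_eq_add_of_le h2
          rw [hk, comp_mul (homogeneousComponent_isHomogeneous i p), hb2 k (by omega), mul_zero]
    · intro h1
      exfalso
      apply h1
      rw [Finset.mem_range]
      have := le_td p a ha1
      omega
  have hab : a + b = d := by
    by_contra hc
    have h1 : homogeneousComponent (a + b) (p * q) = 0 := by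
      rw [homogeneousComponent_of_mem (show p * q ∈ homogeneousSubmodule σ K d from h), if_neg hc]
    rw [key] at h1
    exact mul_ne_zero ha1 hb1 h1
  have htd : p.totalDegree + q.totalDegree = d := by
    rw [← totalDegree_mul_of_isDomain hp0 hq0]
    exact h.totalDegree h0
  have ha3 := le_td p a ha1
  have hb3 := le_td q b hb1
  have hap : a = p.totalDegree := by omega
  have h2 : p = homogeneousComponent p.totalDegree p := by
    conv_lhs => rw [← sum_homogeneousComponent p]
    refine Finset.sum_eq_single _ (fun i hi hi2 => ?_) (fun h1 => ?_)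
    · have := Finset.mem_range.1 hi
      exact ha2 i (by omega)
    · exact absurd (Finset.mem_range.2 (Nat.lt_succ_self _)) h1
  rw [h2]
  have h3 := homogeneousComponent_isHomogeneous p.totalDegree p
  rw [← h2]
  rw [← h2] at h3
  exact h3

theorem hom_of_dvd {p q : MvPolynomial σ K} {d : ℕ} (hpq : p ∣ q) (h : q.IsHomogeneous d)
    (h0 : q ≠ 0) : p.IsHomogeneous p.totalDegree ∧ p.totalDegree ≤ d := by
  obtain ⟨r, rfl⟩ := hpq
  refine ⟨hom_of_mul h h0, ?_⟩
  have h1 := h.totalDegree h0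
  rw [totalDegree_mul_of_isDomain (left_ne_zero_of_mul h0) (right_ne_zero_of_mul h0)] at h1
  omega

theorem exists_gcd {ι : Type} (s : Finset ι) (r : ι → MvPolynomial σ K) :
    ∃ h, (∀ j ∈ s, h ∣ r j) ∧ ∀ k, (∀ j ∈ s, k ∣ r j) → k ∣ h := by
  classical
  letI : GCDMonoid (MvPolynomial σ K) := UniqueFactorizationMonoid.toGCDMonoid _
  induction s using Finset.induction_on with
  | empty => exact ⟨0, by simp, fun k _ => dvd_zero k⟩
  | insert j s _ ih =>
    obtain ⟨h, h1, h2⟩ := ih
    refine ⟨gcd (r j) h, fun i hi => ?_, fun k hk => ?_⟩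
    · rcases Finset.mem_insert.1 hi with rfl | hi
      · exact gcd_dvd_left _ _
      · exact (gcd_dvd_right _ _).trans (h1 i hi)
    · exact dvd_gcd (hk j (Finset.mem_insert_self _ _))
        (h2 k fun i hi => hk i (Finset.mem_insert_of_mem hi))

end

variable {G : Type} [Group G] {n : ℕ}

/-- a polynomial which is divisible by its transforms is semi-invariant -/
theorem semi_of_dvd {α : Fin n → G →* ℂˣ} {h : MvPolynomial (Fin n) ℂ} (h0 : h ≠ 0)
    (hd : ∀ g, act α g h ∣ h) : ∃ β : G →* ℂˣ, ∀ m ∈ h.support, chr α m = β := by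
  classical
  obtain ⟨m0, hm0⟩ : h.support.Nonempty := by
    rw [Finset.nonempty_iff_ne_empty]
    exact fun h1 => h0 (MvPolynomial.support_eq_empty.1 h1)
  refine ⟨chr α m0, fun m hm => ?_⟩
  ext g
  obtain ⟨q, hq⟩ := hd g
  have hsupp : (act α g h).support = h.support := by
    ext m
    rw [MvPolynomial.mem_support_iff, MvPolynomial.mem_support_iff, coeff_act]
    constructor
    · exact fun h1 => left_ne_zero_of_mul h1
    · exact fun h1 => mul_ne_zero h1 (Units.ne_zero _)
  have htd : (act α g h).totalDegree = h.totalDegree := by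
    unfold MvPolynomial.totalDegree
    rw [hsupp]
  have hq0 : q ≠ 0 := by
    rintro rfl
    rw [mul_zero] at hq
    exact h0 hq
  have ha0 : act α g h ≠ 0 := by
    intro h1
    rw [h1, zero_mul] at hq
    exact h0 hq
  have h1 := totalDegree_mul_of_isDomain ha0 hq0
  rw [← hq, htd] at h1
  have h2 : q.totalDegree = 0 := by omega
  rw [totalDegree_eq_zero_iff_eq_C] at h2
  have h3 : ∀ m ∈ h.support, (chr α m g : ℂ) * coeff 0 q = 1 := by
    intro m hm
    have h4 := congrArg (coeff m) hq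
    rw [h2, mul_comm, coeff_C_mul, coeff_act] at h4
    have h5 := MvPolynomial.mem_support_iff.1 hm
    have h6 : coeff m h * ((chr α m g : ℂ) * coeff 0 q) = coeff m h * 1 := by
      rw [mul_one]
      linear_combination -h4
    exact mul_left_cancel₀ h5 h6
  have h4 := h3 m hm
  have h5 := h3 m0 hm0
  have h6 : coeff 0 q ≠ 0 := right_ne_zero_of_mul (h4.trans_ne one_ne_zero)
  exact mul_right_cancel₀ h6 (h4.trans h5.symm)

theorem plane {c : ℕ} (α : Fin n → G →* ℂˣ)
    (f : Fin c → MvPolynomial (Fin n) ℂ) (d : Fin c → ℕ) (ψ : Fin c → G →* ℂˣ)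
    (hf : ∀ j, Typ α (ψ j) (d j) (f j)) (T : Finset (Fin n)) (hT : T.card = 3)
    (hne : ∃ j, ∃ v : Fin n → ℂ, (∀ i ∉ T, v i = 0) ∧ eval v (f j) ≠ 0)
    (hinf : ¬ ∃ Z : Finset (Fin n → ℂ), ∀ v : Fin n → ℂ, (∀ j, eval v (f j) = 0) →
      (∀ i ∉ T, v i = 0) → ∃ z ∈ Z, ∃ b : ℂ, v = b • z) :
    ∃ (h : MvPolynomial (Fin n) ℂ) (b : ℕ) (β : G →* ℂˣ), Typ α β b h ∧ 0 < b ∧
      (∀ j, (∃ v : Fin n → ℂ, (∀ i ∉ T, v i = 0) ∧ eval v (f j) ≠ 0) → b ≤ d j) ∧
      ∀ v : Fin n → ℂ, (∀ i ∉ T, v i = 0) → eval v h = 0 → ∀ j, eval v (f j) = 0 := by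
  classical
  let iso := T.orderIsoOfFin hT
  obtain ⟨ε, hε⟩ : ∃ ε : Fin 3 → Fin n, ∀ l, ε l = (iso l : Fin n) := ⟨_, fun _ => rfl⟩
  obtain ⟨X0, hXT, hX1⟩ : ∃ X0 : (Fin 3 → ℂ) → (Fin n → ℂ),
      (∀ x i (h : i ∈ T), X0 x i = x (iso.symm ⟨i, h⟩)) ∧ ∀ x i, i ∉ T → X0 x i = 0 :=
    ⟨fun x i => if h : i ∈ T then x (iso.symm ⟨i, h⟩) else 0,
      fun x i h => dif_pos h, fun x i h => dif_neg h⟩
  have hX2 : ∀ v : Fin n → ℂ, (∀ i ∉ T, v i = 0) → X0 (fun l => v (ε l)) = v := by
    intro v hv
    funext i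
    by_cases hi : i ∈ T
    · rw [hXT _ i hi, hε, iso.apply_symm_apply]
    · rw [hX1 _ i hi, hv i hi]
  let R : MvPolynomial (Fin n) ℂ →ₐ[ℂ] MvPolynomial (Fin 3) ℂ :=
    aeval fun i => if h : i ∈ T then X (iso.symm ⟨i, h⟩) else 0
  have hR : ∀ (x : Fin 3 → ℂ) (q : MvPolynomial (Fin n) ℂ), eval x (R q) = eval (X0 x) q := by
    intro x q
    have h2 : (aeval x : MvPolynomial (Fin 3) ℂ →ₐ[ℂ] ℂ).comp R = aeval (X0 x) := by
      apply algHom_ext
      intro i
      simp only [R, AlgHom.comp_apply, aeval_X]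
      split_ifs with h
      · rw [aeval_X, hXT x i h]
      · rw [map_zero, hX1 x i h]
    have h3 := DFunLike.congr_fun h2 q
    simpa [aeval_eq_eval] using h3
  have hRh : ∀ {q : MvPolynomial (Fin n) ℂ} {m : ℕ}, q.IsHomogeneous m →
      (R q).IsHomogeneous m := by
    intro q m hq
    have h1 := hq.aeval (fun i => if h : i ∈ T then X (iso.symm ⟨i, h⟩) else 0 :
      Fin n → MvPolynomial (Fin 3) ℂ) (n := 1) (fun i => by
        split_ifs
        · exact isHomogeneous_X _ _
        · exact isHomogeneous_zero _ _ _)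
    rw [one_mul] at h1
    exact h1
  let α' : Fin 3 → G →* ℂˣ := fun l => α (ε l)
  have hmv : ∀ (g : G) (x : Fin 3 → ℂ), X0 (mv α' g x) = mv α g (X0 x) := by
    intro g x
    funext i
    by_cases hi : i ∈ T
    · rw [hXT _ i hi]
      simp only [mv, α']
      rw [hXT _ i hi, hε, iso.apply_symm_apply]
    · rw [hX1 _ i hi]
      simp only [mv]
      rw [hX1 _ i hi, mul_zero]
  let r : Fin c → MvPolynomial (Fin 3) ℂ := fun j => R (f j)
  have hr : ∀ j, Typ α' (ψ j) (d j) (r j) := by
    intro j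
    refine ⟨hRh (hf j).1, fun g x => ?_⟩
    rw [hR, hR, hmv]
    exact (hf j).2 g _
  have hlive : ∀ j, (∃ v : Fin n → ℂ, (∀ i ∉ T, v i = 0) ∧ eval v (f j) ≠ 0) → r j ≠ 0 := by
    rintro j ⟨v, hv, hvj⟩ h0
    apply hvj
    have h3 := hR (fun l => v (ε l)) (f j)
    rw [hX2 v hv] at h3
    rw [← h3]
    show eval _ (r j) = 0
    rw [h0, map_zero]
  obtain ⟨h, h1, h2⟩ := exists_gcd Finset.univ r
  obtain ⟨j1, hj1⟩ := hne
  have hrj1 : r j1 ≠ 0 := hlive j1 hj1
  have h0 : h ≠ 0 := by
    rintro rfl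
    exact hrj1 (zero_dvd_iff.1 (h1 j1 (Finset.mem_univ _)))
  have hhom := (hom_of_dvd (h1 j1 (Finset.mem_univ _)) (hr j1).1 hrj1).1
  obtain ⟨β, hβ⟩ := semi_of_dvd (α := α') h0 (fun g => h2 _ fun j _ => by
    have h3 := map_dvd (act α' g) (h1 j (Finset.mem_univ _))
    rw [Typ.act (hr j)] at h3
    have h4 : r j = C (((ψ j g)⁻¹ : ℂˣ) : ℂ) * (C (ψ j g : ℂ) * r j) := by
      rw [← mul_assoc, ← C_mul, Units.inv_mul, C_1, one_mul]
    rw [h4]
    exact h3.mul_left _)
  have htyp : Typ α' β h.totalDegree h := by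
    refine ⟨hhom, fun g x => ?_⟩
    rw [eval_eq_mon, eval_eq_mon, Finset.mul_sum]
    refine Finset.sum_congr rfl fun m hm => ?_
    rw [mon_mv, hβ m hm]
    ring
  refine ⟨rename ε h, h.totalDegree, β, Dat.typ_rename (fun l => rfl) htyp, ?_, ?_, ?_⟩
  · by_contra hdeg
    have hdeg' : h.totalDegree = 0 := by omega
    rw [totalDegree_eq_zero_iff_eq_C] at hdeg'
    have hunit : IsUnit h := by
      rw [hdeg']
      refine (IsUnit.mk0 (coeff 0 h) fun hc => h0 ?_).map C
      rw [hdeg', hc, C_0]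
    apply hinf
    -- finitely many common zeros in the plane
    have hfin : FinZ fun x : Fin 3 → ℂ => ∀ j, eval x (r j) = 0 := by
      obtain ⟨F, hF, hFr⟩ := UniqueFactorizationMonoid.exists_prime_factors (r j1) hrj1
      have hp : ∀ p ∈ F, FinZ fun x : Fin 3 → ℂ => eval x p = 0 ∧ ∀ j, eval x (r j) = 0 := by
        intro p hpF
        have hpp := hF p hpF
        have hpd : p ∣ r j1 := (Multiset.dvd_prod hpF).trans hFr.dvd
        obtain ⟨j, hj⟩ : ∃ j, ¬ p ∣ r j := by
          by_contra hcon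
          push Not at hcon
          exact hpp.not_isUnit (isUnit_of_dvd_unit (h2 p fun j _ => hcon j) hunit)
        obtain ⟨Z, hZ⟩ := finite_of_reg [(p, p.totalDegree), (r j, d j)] (by
          intro x hx
          simp only [List.mem_cons, List.not_mem_nil, or_false] at hx
          rcases hx with rfl | rfl
          · exact (hom_of_dvd hpd (hr j1).1 hrj1).1
          · exact (hr j).1) (by simp) (by
          refine ⟨?_, ?_, trivial⟩
          · intro q hq
            rw [Ideal.mem_bot] at hq ⊢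
            exact (mul_eq_zero.1 hq).resolve_left hpp.ne_zero
          · intro q hq
            rw [bot_sup_eq, Ideal.mem_span_singleton] at hq ⊢
            exact (hpp.dvd_or_dvd hq).resolve_left hj)
        refine ⟨Z, fun x hx => hZ x ?_⟩
        intro y hy
        simp only [List.mem_cons, List.not_mem_nil, or_false] at hy
        rcases hy with rfl | rfl
        · exact hx.1
        · exact hx.2 j
      choose! Zp hZp using hp
      refine ⟨F.toFinset.biUnion Zp, fun x hx => ?_⟩
      have h3 : eval x F.prod = 0 := by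
        obtain ⟨u, hu⟩ := hFr.symm
        rw [← hu, map_mul, hx j1, zero_mul]
      rw [map_multiset_prod, Multiset.prod_eq_zero_iff] at h3
      obtain ⟨p, hpF, hpx⟩ := Multiset.mem_map.1 h3
      obtain ⟨z, hz, b, hb⟩ := hZp p hpF x ⟨hpx, hx⟩
      exact ⟨z, Finset.mem_biUnion.2 ⟨p, Multiset.mem_toFinset.2 hpF, hz⟩, b, hb⟩
    obtain ⟨Z, hZ⟩ := hfin
    refine ⟨Z.image X0, fun v hv hvT => ?_⟩
    obtain ⟨z, hz, b, hb⟩ := hZ (fun l => v (ε l)) (fun j => by
      show eval _ (R (f j)) = 0
      rw [hR, hX2 v hvT]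
      exact hv j)
    refine ⟨X0 z, Finset.mem_image_of_mem _ hz, b, ?_⟩
    have h3 := hX2 v hvT
    rw [← h3, hb]
    funext i
    by_cases hi : i ∈ T
    · rw [hXT _ i hi, Pi.smul_apply, Pi.smul_apply, hXT _ i hi]
    · rw [hX1 _ i hi, Pi.smul_apply, hX1 _ i hi, smul_zero]
  · intro j hj
    exact (hom_of_dvd (h1 j (Finset.mem_univ _)) (hr j).1 (hlive j hj)).2
  · intro v hv hvh j
    rw [eval_rename] at hvh
    obtain ⟨q, hq⟩ := h1 j (Finset.mem_univ _)
    have h4 := hR (fun l => v (ε l)) (f j)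
    rw [hX2 v hv] at h4
    rw [← h4]
    show eval _ (r j) = 0
    rw [hq, map_mul]
    have h3 : eval (fun l => v (ε l)) h = 0 := hvh
    rw [h3, zero_mul]

end Pool.Agent.W5h70.Fuj
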