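import Pool.Agent.W5h70.Fuj.Occ
import Pool.Agent.W5h70.Fuj.Drop
import Pool.Agent.W5h70.Fuj.Plane

/-!
# The three cases
-/

set_option autoImplicit false

namespace Pool.Agent.W5h70.Fuj

open MvPolynomial Module Pool.Agent.TH144.MB Pool.Agent.W5h40.Fuj

variable {G : Type} [Group G] {n c : ℕ} (D : Dat G n c)

theorem zeroJ (T : Set (Fin n)) (v : Fin n → ℂ) :
    (∀ p ∈ D.J T, eval v p = 0) ↔ D.Z v ∧ ∀ k ∈ T, v k = 0 := by
  constructor
  · intro h
    refine ⟨fun j => h _ (Ideal.mem_sup_left (Ideal.subset_span ⟨j, rfl⟩)), fun k hk => ?_⟩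
    have := h (X k) (Ideal.mem_sup_right (Ideal.subset_span ⟨k, hk, rfl⟩))
    rwa [eval_X] at this
  · rintro ⟨h1, h2⟩ p hp
    have := Dat.aeval_J D (A := ℂ) (z := v) (fun j => by rw [aeval_eq_eval]; exact h1 j)
      (T := T) h2 hp
    rw [aeval_eq_eval] at this
    exact this

/-- a point of small support on an improper section -/
theorem excess {S : Finset (Fin n)} (hinf : ¬ FinOn D S) :
    ∃ w, D.Min w ∧ (∀ i ∉ S, w i = 0) ∧
      ((Finset.univ : Finset (Fin n)).filter fun i => w i ≠ 0).card + 1 ≤ S.card := by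
  classical
  obtain ⟨i, hi⟩ : S.Nonempty := by
    rw [Finset.nonempty_iff_ne_empty]
    rintro rfl
    exact hinf (fin_empty D)
  obtain ⟨v, hvZ, hvS, hvi, hv0⟩ : ∃ v : Fin n → ℂ, D.Z v ∧ (∀ k ∉ S, v k = 0) ∧ v i = 0 ∧
      v ≠ 0 := by
    by_contra hcon
    push Not at hcon
    apply hinf
    obtain ⟨Z, hZ⟩ := finite_of_hyper (I := D.J {k | k ∉ S}) (D.homJ _) one_pos
      (isHomogeneous_X ℂ i) (by
        intro v hv hvi
        rw [zeroJ] at hv
        rw [eval_X] at hvi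
        exact hcon v hv.1 hv.2 hvi)
    exact ⟨Z, fun v hv => hZ v ((zeroJ D _ v).2 ⟨hv.1, hv.2⟩)⟩
  obtain ⟨w, hw, hwv⟩ := D.exists_min hv0 hvZ
  refine ⟨w, hw, fun k hk => hwv k (hvS k hk), ?_⟩
  have h1 : ((Finset.univ : Finset (Fin n)).filter fun i => w i ≠ 0) ⊆ S.erase i := by
    intro k hk
    rw [Finset.mem_filter] at hk
    rw [Finset.mem_erase]
    refine ⟨?_, ?_⟩
    · rintro rfl
      exact hk.2 (hwv _ hvi)
    · by_contra h
      exact hk.2 (hwv _ (hvS k h))
  have h2 := Finset.card_le_card h1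
  rw [Finset.card_erase_of_mem hi] at h2
  have h3 : 0 < S.card := Finset.card_pos.2 ⟨i, hi⟩
  omega

/-- `J` contains the indices of the forms which do not vanish identically on `supp w` -/
theorem mem_of_min' {w : Fin n → ℂ} (hw : D.Min w) (J : Finset (Fin c))
    (hJ : ∀ j ∉ J, ∀ v : Fin n → ℂ, (∀ i, w i = 0 → v i = 0) → eval v (D.f j) = 0)
    (hwc : ((Finset.univ : Finset (Fin n)).filter fun i => w i ≠ 0).card ≤ J.card)
    {j0 : Fin c} (hj0J : j0 ∈ J) (hj0 : ∀ j ∈ J, D.d j0 ≤ D.d j) {a : Fin n} (ha : w a ≠ 0) {t : ℕ}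
    (ht : ∑ j ∈ J, (D.d j - 1) < t + (D.d j0 - 1)) {p : MvPolynomial (Fin n) ℂ}
    (hp : p.IsHomogeneous t) :
    p ∈ D.J (insert a {k | w k = 0}) := by
  classical
  set U : Set (Fin n) := {k | w k ≠ 0 ∧ k ≠ a} with hU
  have hUc : (insert a {k | w k = 0} : Set (Fin n)) = Uᶜ := by
    ext k
    simp only [hU, Set.mem_insert_iff, Set.mem_ofPred_eq, Set.mem_compl_iff]
    tauto
  let r : MvPolynomial (Fin n) ℂ →ₐ[ℂ] MvPolynomial {k // k ∈ U} ℂ :=
    aeval fun i => if h : i ∈ U then X ⟨i, h⟩ else 0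
  have hr : ∀ (v' : {k // k ∈ U} → ℂ) (q : MvPolynomial (Fin n) ℂ),
      eval v' (r q) = eval (fun i => if h : i ∈ U then v' ⟨i, h⟩ else 0) q := by
    intro v' q
    have h2 : (aeval v' : MvPolynomial {k // k ∈ U} ℂ →ₐ[ℂ] ℂ).comp r
        = aeval (fun i => if h : i ∈ U then v' ⟨i, h⟩ else 0) := by
      apply algHom_ext
      intro i
      simp only [r, AlgHom.comp_apply, aeval_X]
      split_ifs with h
      · rw [aeval_X]
      · rw [map_zero]
    have h3 := DFunLike.congr_fun h2 q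
    simpa [aeval_eq_eval] using h3
  have hrh : ∀ {q : MvPolynomial (Fin n) ℂ} {m : ℕ}, q.IsHomogeneous m →
      (r q).IsHomogeneous m := by
    intro q m hq
    have h1 := hq.aeval (fun i => if h : i ∈ U then X ⟨i, h⟩ else 0 :
      Fin n → MvPolynomial {k // k ∈ U} ℂ) (n := 1) (fun i => by
        split_ifs
        · exact isHomogeneous_X _ _
        · exact isHomogeneous_zero _ _ _)
    rw [one_mul] at h1
    exact h1
  have hcard : Fintype.card {k // k ∈ U} + 1 ≤ J.card := by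
    have h1 : Fintype.card {k // k ∈ U}
        = (((Finset.univ : Finset (Fin n)).filter fun i => w i ≠ 0).erase a).card := by
      rw [Fintype.card_subtype]
      congr 1
      ext k
      simp only [hU, Set.mem_ofPred_eq, Finset.mem_filter, Finset.mem_univ, true_and,
        Finset.mem_erase]
      tauto
    rw [h1, Finset.card_erase_of_mem (by simp [ha])]
    have h2 : 0 < ((Finset.univ : Finset (Fin n)).filter fun i => w i ≠ 0).card :=
      Finset.card_pos.2 ⟨a, by simp [ha]⟩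
    omega
  have h1 := macaulay_drop (ι := {j // j ∈ J}) (fun j => r (D.f j.1)) (fun j => D.d j.1)
    (fun j => hrh (D.typ j.1).1)
    (fun j => by have := D.two j.1; omega) ⟨j0, hj0J⟩ (fun j => hj0 j.1 j.2)
    (by rw [Fintype.card_coe]; exact hcard) (by
      intro v' hv'
      have h2 := hw.2.2 (fun i => if h : i ∈ U then v' ⟨i, h⟩ else 0) (fun j => by
        by_cases hj : j ∈ J
        · rw [← hr]
          exact hv' ⟨j, hj⟩
        · refine hJ j hj _ fun i hi => ?_
          have : i ∉ U := fun h => h.1 hi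
          simp [this]) (fun i hi => by
        have : i ∉ U := fun h => h.1 hi
        simp [this]) ⟨a, ha, by
        have : a ∉ U := fun h => h.2 rfl
        simp [this]⟩
      funext k
      have h3 := congrFun h2 k.1
      simpa using h3) (t := t) (by
      have h4 := Finset.sum_coe_sort J fun j => D.d j - 1
      rw [h4]
      exact ht) (hrh hp)
  -- back to all variables
  let ι : MvPolynomial {k // k ∈ U} ℂ →ₐ[ℂ] MvPolynomial (Fin n) ℂ := rename Subtype.val
  have hι : ∀ q, ι (r q) = res U q := by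
    intro q
    have h2 : ι.comp r = res U := by
      apply algHom_ext
      intro i
      simp only [ι, r, res, AlgHom.comp_apply, aeval_X]
      split_ifs with h
      · rw [rename_X]
      · rw [map_zero]
    exact DFunLike.congr_fun h2 q
  have hres : ∀ q : MvPolynomial (Fin n) ℂ, q - res U q ∈ D.J Uᶜ := fun q =>
    Ideal.mem_sup_right (sub_res_mem U q)
  have h2 : Ideal.span (Set.range fun j : {j // j ∈ J} => r (D.f j.1)) ≤ (D.J Uᶜ).comap ι := by
    rw [Ideal.span_le]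
    rintro _ ⟨j, rfl⟩
    show ι (r (D.f j.1)) ∈ D.J Uᶜ
    rw [hι]
    have h3 := (D.J Uᶜ).sub_mem
      (Ideal.mem_sup_left (Ideal.subset_span ⟨j.1, rfl⟩) : D.f j.1 ∈ D.J Uᶜ) (hres (D.f j.1))
    convert h3 using 1
    ring
  have h3 : ι (r p) ∈ D.J Uᶜ := h2 h1
  rw [hι] at h3
  rw [hUc]
  have h4 := (D.J Uᶜ).add_mem h3 (hres p)
  convert h4 using 1
  ring

variable [Fintype G]

/-- all characters occur at a point of small support, also in the degrees
`≥ ∑ (d_j - 1) - (d_min - 1)` -/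
theorem occ_min {w : Fin n → ℂ} (hw : D.Min w) (J : Finset (Fin c))
    (hJ : ∀ j ∉ J, ∀ v : Fin n → ℂ, (∀ i, w i = 0 → v i = 0) → eval v (D.f j) = 0)
    (hwc : ((Finset.univ : Finset (Fin n)).filter fun i => w i ≠ 0).card ≤ J.card)
    {j0 : Fin c} (hj0J : j0 ∈ J) (hj0 : ∀ j ∈ J, D.d j0 ≤ D.d j) (k : ℕ) :
    ∀ (ψ : G →* ℂˣ) (s : ℕ),
    ∑ j ∈ J, (D.d j - 1) ≤ s + (D.d j0 - 1) → D.ρ ≤ s + k →
    ∃ m : Fin n →₀ ℕ, m.degree = s ∧ chr D.α m = ψ ∧ mon m w ≠ 0 := by
  classical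
  obtain ⟨a, ha⟩ : ∃ a, w a ≠ 0 := by
    by_contra hc
    push Not at hc
    exact hw.1 (funext hc)
  induction k with
  | zero => intro ψ s _ h; exact D.exists_mono hw.1 hw.2.1 ψ (by omega)
  | succ k ih =>
    intro ψ s h1 h2
    obtain ⟨m, hm, hmc, hmw⟩ := ih (ψ * D.α a) (s + 1) (by omega) (by omega)
    have hF : Typ D.α (ψ * D.α a) (1 + s) (monomial m 1) := by
      have h3 := typ_monomial hmc
      rw [hm, add_comm s 1] at h3
      exact h3
    obtain ⟨Q, hQ, hQJ⟩ := D.split {k | w k = 0} hF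
      (mem_of_min' D hw J hJ hwc hj0J hj0 ha (t := 1 + s) (by omega) hF.1)
    have h4 := (zeroJ D {k | w k = 0} w).2 ⟨hw.2.1, fun k hk => hk⟩ _ hQJ
    rw [map_sub, map_mul, eval_X, eval_mono, sub_eq_zero] at h4
    have h5 : eval w Q ≠ 0 := by
      intro h
      rw [h, mul_zero] at h4
      exact hmw h4
    rw [eval_eq_mon] at h5
    obtain ⟨m', hm', hm2⟩ := Finset.exists_ne_zero_of_sum_ne_zero h5
    obtain ⟨h6, h7⟩ := Typ.supp hQ hm'
    exact ⟨m', h6, h7, right_ne_zero_of_mul hm2⟩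

theorem plane_occ {S : Finset (Fin n)} (hfin : ∀ i ∈ S, FinOn D (S.erase i))
    (hinf : ¬ FinOn D S) (hS : S.card = 3) (hlive : (live D S).Nonempty) {t : ℕ}
    (ht : D.ρ ≤ 2 * t + 1) (ψ : G →* ℂˣ) :
    ∃ m : Fin n →₀ ℕ, m.degree = t ∧ chr D.α m = ψ ∧ ∀ i ∉ S, m i = 0 := by
  classical
  obtain ⟨j, hj⟩ := hlive
  rw [mem_live] at hj
  obtain ⟨h, b, β, h1, h2, h3, h4⟩ := plane D.α D.f D.d D.ψ D.typ S hS ⟨j, hj⟩ (by
    rintro ⟨Z, hZ⟩
    exact hinf ⟨Z, fun v hv => hZ v hv.1 hv.2⟩)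
  refine curve D.sit D.top S [(h, b, β)] ?_ ?_ ?_ ?_ ?_ ψ
  · intro x hx
    rw [List.mem_singleton] at hx
    subst hx
    exact ⟨h1.1, h2, h1.2⟩
  · rw [List.length_singleton]
    omega
  · intro v hv hv2
    exact (D.zero_iff v).2 (h4 v hv (hv2 (h, b, β) (by simp)))
  · intro i hi
    obtain ⟨Z, hZ⟩ := hfin i hi
    refine ⟨Z, fun v hv hvS hvi => hZ v ⟨(D.zero_iff v).1 hv, fun k hk => ?_⟩⟩
    rw [Finset.mem_erase, not_and_or, not_not] at hk
    rcases hk with rfl | hk
    · exact hvi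
    · exact hvS k hk
  · simp only [List.map_cons, List.map_nil, List.sum_cons, List.sum_nil, add_zero]
    have h5 := h3 j hj
    have h6 : D.d j - 1 ≤ D.ρ :=
      Finset.single_le_sum (f := fun j => D.d j - 1) (fun _ _ => Nat.zero_le _)
        (Finset.mem_univ j)
    omega

/-- the three cases -/
def Alt (e : ℕ) (y : Fin n → ℂ) : Prop :=
  (∀ (j : Fin c) (ψ : G →* ℂˣ), ∃ q : Fin n →₀ ℕ, q.degree + D.d j = e ∧ chr D.α q = ψ ∧
      mon q y ≠ 0) ∨
    (∃ t0, 2 * t0 + 1 ≤ e ∧ ∀ s, t0 ≤ s → ∀ ψ : G →* ℂˣ, ∃ q : Fin n →₀ ℕ, q.degree = s ∧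
      chr D.α q = ψ ∧ mon q y ≠ 0) ∨
    FinZ fun v : Fin n → ℂ => D.Z v ∧ ∀ i, y i = 0 → v i = 0

theorem alt {e : ℕ} (he : D.ρ + 1 ≤ e)
    (hAB : ∀ S : Finset (Fin n), 4 ≤ S.card → S.card ≤ c + 1 → ¬ FinOn D S →
      (∀ i ∈ S, FinOn D (S.erase i)) → (live D S).card + 2 = S.card ∨
        ∀ i ∈ live D S, ∀ j ∈ live D S, D.ρ + D.d j + 1 ≤ e + D.d i)
    (y : Fin n → ℂ) : Alt D e y := by
  classical
  set S : Finset (Fin n) := Finset.univ.filter fun i => y i ≠ 0 with hS
  have hSy : ∀ i, i ∉ S ↔ y i = 0 := by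
    intro i
    simp [hS]
  by_cases hfin : FinOn D S
  · refine Or.inr (Or.inr ?_)
    obtain ⟨Z, hZ⟩ := hfin
    exact ⟨Z, fun v hv => hZ v ⟨hv.1, fun i hi => hv.2 i ((hSy i).1 hi)⟩⟩
  obtain ⟨S', hS', hinf, hfin'⟩ := exists_section D S hfin
  have hmon : ∀ q : Fin n →₀ ℕ, (∀ i ∉ S', q i = 0) → mon q y ≠ 0 := by
    intro q hq
    unfold mon
    rw [Finset.prod_ne_zero_iff]
    intro i _
    by_cases hi : i ∈ S'
    · refine pow_ne_zero _ fun h => ?_
      exact ((hSy i).2 h) (hS' hi)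
    · rw [hq i hi, pow_zero]
      exact one_ne_zero
  have hhalf : (∀ t, D.ρ ≤ 2 * t + 1 → ∀ ψ : G →* ℂˣ,
      ∃ m : Fin n →₀ ℕ, m.degree = t ∧ chr D.α m = ψ ∧ ∀ i ∉ S', m i = 0) → Alt D e y := by
    intro h
    refine Or.inr (Or.inl ⟨D.ρ / 2, by omega, fun s hs ψ => ?_⟩)
    obtain ⟨m, h1, h2, h3⟩ := h s (by omega) ψ
    exact ⟨m, h1, h2, hmon m h3⟩
  obtain ⟨i, hi⟩ : S'.Nonempty := by
    rw [Finset.nonempty_iff_ne_empty]
    rintro rfl
    exact hinf (fin_empty D)
  have hcount := count D hi (hfin' i hi)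
  by_cases hprop : (live D S').card + 2 = S'.card
  · exact hhalf fun t ht ψ => curve_occ D hfin' hprop ht ψ
  have hlc : (live D S').card ≤ c := by
    have := Finset.card_le_univ (live D S')
    rwa [Fintype.card_fin] at this
  have hpos : 0 < S'.card := Finset.card_pos.2 ⟨i, hi⟩
  have hlive : S'.card ≤ (live D S').card + 1 := by omega
  by_cases h4 : 4 ≤ S'.card
  · rcases hAB S' h4 (by omega) hinf hfin' with hB | hA
    · exact absurd hB hprop
    · left
      obtain ⟨w, hw, hwS, hwc⟩ := excess D hinf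
      obtain ⟨j0, hj0J, hj0⟩ := Finset.exists_min_image (live D S') D.d
        (Finset.card_pos.1 (by omega))
      have hJ : ∀ j ∉ live D S', ∀ v : Fin n → ℂ, (∀ i, w i = 0 → v i = 0) →
          eval v (D.f j) = 0 := fun j hj v hv =>
        not_mem_live D hj fun i hi => hv i (hwS i hi)
      have hsum : ∑ j ∈ live D S', (D.d j - 1) ≤ D.ρ :=
        Finset.sum_le_sum_of_subset (Finset.subset_univ _)
      have h7 := D.two j0
      intro j ψ
      have h8 : ∑ j ∈ live D S', (D.d j - 1) ≤ e - D.d j + (D.d j0 - 1) ∧ D.d j ≤ e := by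
        by_cases hj : j ∈ live D S'
        · have h5 := hA j0 hj0J j hj
          have h6 : D.d j0 - 1 ≤ D.ρ :=
            Finset.single_le_sum (f := fun j => D.d j - 1) (fun _ _ => Nat.zero_le _)
              (Finset.mem_univ j0)
          omega
        · have h5 : ∑ j ∈ live D S', (D.d j - 1) + (D.d j - 1) ≤ D.ρ := by
            have h9 := Finset.sum_insert (f := fun j => D.d j - 1) hj
            rw [add_comm, ← h9]
            exact Finset.sum_le_sum_of_subset (Finset.subset_univ _)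
          have := D.two j
          omega
      obtain ⟨m, h8', h9, h10⟩ := occ_min D hw _ hJ (by omega) hj0J hj0 D.ρ ψ (e - D.d j)
        h8.1 (by omega)
      refine ⟨m, by omega, h9, ?_⟩
      unfold mon at h10 ⊢
      rw [Finset.prod_ne_zero_iff] at h10 ⊢
      intro k hk
      have h11 := h10 k hk
      by_cases hmk : m k = 0
      · rw [hmk, pow_zero]
        exact one_ne_zero
      · refine pow_ne_zero _ fun h => h11 ?_
        have : w k = 0 := hwS k fun hk' => ((hSy k).2 h) (hS' hk')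
        rw [this, zero_pow hmk]
  · -- at most three coordinates
    rcases Nat.lt_or_ge S'.card 2 with h5 | h5
    · exfalso
      have h6 : S'.card = 1 := by omega
      obtain ⟨a, rfl⟩ := Finset.card_eq_one.1 h6
      exact hinf (fin_single D a)
    · have hne : (live D S').Nonempty := Finset.card_pos.1 (by omega)
      rcases Nat.lt_or_ge S'.card 3 with h6 | h6
      · exact absurd (fin_pair D (by omega) hne) hinf
      · exact hhalf fun t ht ψ => plane_occ D hfin' hinf (by omega) hne ht ψ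

end Pool.Agent.W5h70.Fuj
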