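import Pool.Agent.W5h70.Fuj.Resid
import Pool.Agent.W5h70.Fuj.Occ2

/-!
# Curves in coordinate subspaces of dimension three
-/

set_option autoImplicit false

namespace Pool.Agent.W5h70.Fuj

open MvPolynomial Module Pool.Agent.TH144.MB Pool.Agent.W5h40.Fuj

theorem eval_res' {σ : Type} {K : Type} [Field K] (S : Set σ) [DecidablePred (· ∈ S)]
    (p : MvPolynomial σ K) (v : σ → K) :
    eval v (res S p) = eval (fun i => if i ∈ S then v i else 0) p := by
  have h2 : (aeval v : MvPolynomial σ K →ₐ[K] K).comp (res S)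
      = aeval (fun i => if i ∈ S then v i else 0) := by
    apply algHom_ext
    intro i
    simp only [res, AlgHom.comp_apply, aeval_X]
    by_cases h : i ∈ S
    · simp [h]
    · simp [h]
  have h3 := DFunLike.congr_fun h2 p
  simpa [aeval_eq_eval] using h3

variable {G : Type} [Group G] {n c : ℕ}

theorem typ_res {α : Fin n → G →* ℂˣ} {χ : G →* ℂˣ} {b : ℕ} {p : MvPolynomial (Fin n) ℂ}
    (h : Typ α χ b p) (S : Set (Fin n)) : Typ α χ b (res S p) := by
  classical
  refine ⟨res_hom S h.1, fun g x => ?_⟩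
  rw [eval_res', eval_res', ← h.2]
  congr 1
  congr 1
  funext i
  simp only [mv]
  split_ifs <;> simp

/-- divisors of semi-invariant forms which are divisible by their transforms -/
theorem typ_of_dvd {α : Fin n → G →* ℂˣ} {h p : MvPolynomial (Fin n) ℂ} {b : ℕ}
    (hp : p.IsHomogeneous b) (hp0 : p ≠ 0) (hhp : h ∣ p) (hd : ∀ g, act α g h ∣ h) :
    ∃ β : G →* ℂˣ, Typ α β h.totalDegree h := by
  have h0 : h ≠ 0 := fun h1 => hp0 (zero_dvd_iff.1 (h1 ▸ hhp))
  obtain ⟨β, hβ⟩ := semi_of_dvd (α := α) h0 hd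
  refine ⟨β, (hom_of_dvd hhp hp hp0).1, fun g x => ?_⟩
  rw [eval_eq_mon, eval_eq_mon, Finset.mul_sum]
  refine Finset.sum_congr rfl fun m hm => ?_
  rw [mon_mv, hβ m hm]
  ring

theorem act_dvd {α : Fin n → G →* ℂˣ} {χ : G →* ℂˣ} {b : ℕ} {h p : MvPolynomial (Fin n) ℂ}
    (hp : Typ α χ b p) (hhp : h ∣ p) (g : G) : act α g h ∣ p := by
  have h3 := map_dvd (act α g) hhp
  rw [Typ.act hp] at h3
  have h4 : p = C (((χ g)⁻¹ : ℂˣ) : ℂ) * (C (χ g : ℂ) * p) := by
    rw [← mul_assoc, ← C_mul, Units.inv_mul, C_1, one_mul]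
  rw [h4]
  exact h3.mul_left _

/-- the quotient of semi-invariant forms -/
theorem typ_quot {α : Fin n → G →* ℂˣ} {χ β : G →* ℂˣ} {b d : ℕ} {h u p : MvPolynomial (Fin n) ℂ}
    (hp : Typ α χ b p) (hp0 : p ≠ 0) (hh : Typ α β d h) (hpu : p = h * u) :
    ∃ β' : G →* ℂˣ, Typ α β' u.totalDegree u := by
  have hh0 : h ≠ 0 := by
    rintro rfl
    rw [zero_mul] at hpu
    exact hp0 hpu
  refine typ_of_dvd hp.1 hp0 ⟨h, by rw [hpu, mul_comm]⟩ fun g => ?_
  have h1 := congrArg (act α g) hpu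
  rw [map_mul, Typ.act hp, Typ.act hh, hpu] at h1
  have h2 : h * (C (χ g : ℂ) * u) = h * (C (β g : ℂ) * act α g u) := by
    linear_combination h1
  have h3 := mul_left_cancel₀ hh0 h2
  refine ⟨C (((χ g)⁻¹ : ℂˣ) : ℂ) * C (β g : ℂ), ?_⟩
  have h4 : (C (((χ g)⁻¹ : ℂˣ) : ℂ) * C (χ g : ℂ) : MvPolynomial (Fin n) ℂ) = 1 := by
    rw [← C_mul, Units.inv_mul, C_1]
  linear_combination (-u) * h4 + C (((χ g)⁻¹ : ℂˣ) : ℂ) * h3

theorem sub_res_mem' {P : Ideal (MvPolynomial (Fin n) ℂ)} {S : Finset (Fin n)}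
    (hX : ∀ i ∉ S, X i ∈ P) (p : MvPolynomial (Fin n) ℂ) : p - res (S : Set (Fin n)) p ∈ P := by
  refine (Ideal.span_le.2 ?_ : Ideal.span (X '' (S : Set (Fin n))ᶜ) ≤ P) (sub_res_mem _ p)
  rintro _ ⟨i, hi, rfl⟩
  exact hX i (by simpa using hi)

theorem res_mem_iff {P : Ideal (MvPolynomial (Fin n) ℂ)} {S : Finset (Fin n)}
    (hX : ∀ i ∉ S, X i ∈ P) (p : MvPolynomial (Fin n) ℂ) :
    res (S : Set (Fin n)) p ∈ P ↔ p ∈ P := by
  have h1 := sub_res_mem' hX p
  constructor
  · intro h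
    have := P.add_mem h1 h
    rwa [sub_add_cancel] at this
  · intro h
    have := P.sub_mem h h1
    rwa [sub_sub_cancel] at this

variable [Fintype G]

/-- The two cases for a curve in a coordinate subspace of dimension three and an equation `f k`. -/
theorem four (D : Dat G n c) {S : Finset (Fin n)} (hS : S.card = 4) (hinf : ¬ FinOn D S)
    (hfin : ∀ i ∈ S, FinOn D (S.erase i)) (k : Fin c) :
    (∀ t, D.ρ ≤ 2 * t + 1 → ∀ ψ : G →* ℂˣ,
      ∃ m : Fin n →₀ ℕ, m.degree = t ∧ chr D.α m = ψ ∧ ∀ i ∉ S, m i = 0) ∨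
    ∀ t, D.ρ ≤ t + (D.d k - 1) → ∀ ψ : G →* ℂˣ,
      ∃ m : Fin n →₀ ℕ, m.degree = t ∧ chr D.α m = ψ ∧ ∀ i ∉ S, m i = 0 := by
  classical
  obtain ⟨i1, hi1⟩ : S.Nonempty := Finset.card_pos.1 (by omega)
  have hcount := count D hi1 (hfin i1 hi1)
  set r : Fin c → MvPolynomial (Fin n) ℂ := fun j => res (S : Set (Fin n)) (D.f j) with hr
  have hrt : ∀ j, Typ D.α (D.ψ j) (D.d j) (r j) := fun j => typ_res (D.typ j) _
  have hreval : ∀ (j : Fin c) (v : Fin n → ℂ), (∀ i ∉ S, v i = 0) →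
      eval v (r j) = eval v (D.f j) := by
    intro j v hv
    exact eval_res _ _ fun i hi => hv i (by simpa using hi)
  have hlive : ∀ j ∈ live D S, r j ≠ 0 := by
    intro j hj h0
    obtain ⟨v, hv, hvj⟩ := (mem_live D).1 hj
    apply hvj
    rw [← hreval j v hv, h0, map_zero]
  have hdead : ∀ j ∉ live D S, r j = 0 := by
    intro j hj
    rw [hr, res_eq_zero_iff]
    intro v hv
    exact not_mem_live D hj fun i hi => hv i (by simpa using hi)
  obtain ⟨j0, hj0, hj0k⟩ : ∃ j0 ∈ live D S, j0 ≠ k :=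
    Finset.exists_mem_ne (by omega) k
  have hrj0 := hlive j0 hj0
  obtain ⟨h, h1, h2⟩ := exists_gcd ((Finset.univ : Finset (Fin c)).erase k) r
  have hmem : ∀ {j : Fin c}, j ≠ k → j ∈ (Finset.univ : Finset (Fin c)).erase k := fun hj =>
    Finset.mem_erase.2 ⟨hj, Finset.mem_univ _⟩
  have hh0 : h ≠ 0 := by
    rintro rfl
    exact hrj0 (zero_dvd_iff.1 (h1 j0 (hmem hj0k)))
  obtain ⟨β, hβ⟩ := typ_of_dvd (α := D.α) (hrt j0).1 hrj0 (h1 j0 (hmem hj0k))
    fun g => h2 _ fun j hj => act_dvd (hrt j) (h1 j hj) g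
  rcases Nat.eq_zero_or_pos h.totalDegree with hdeg | hdeg
  · -- no common factor
    right
    intro t ht ψ
    have hunit : IsUnit h := by
      have h3 := (totalDegree_eq_zero_iff_eq_C (p := h)).1 hdeg
      rw [h3]
      refine (IsUnit.mk0 (coeff 0 h) fun hc => hh0 ?_).map C
      rw [h3, hc, C_0]
    -- an irreducible curve
    obtain ⟨P, hP, hPH, hPI, hPinf⟩ := exists_prime (D.homJ {i | i ∉ S}) (by
      intro hf
      apply hinf
      exact hf.mono fun v hv => (zeroJ D {i | i ∉ S} v).2 ⟨hv.1, hv.2⟩)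
    have hJP : ∀ j, D.f j ∈ P := fun j =>
      hPI (Ideal.mem_sup_left (Ideal.subset_span ⟨j, rfl⟩))
    have hXP : ∀ i ∉ S, X i ∈ P := fun i hi =>
      hPI (Ideal.mem_sup_right (Ideal.subset_span ⟨i, hi, rfl⟩))
    have hrP : ∀ j, r j ∈ P := fun j => (res_mem_iff hXP _).2 (hJP j)
    have hnotunit : ∀ {f : MvPolynomial (Fin n) ℂ}, f ∈ P → ¬ IsUnit f := fun hf hu =>
      hP.ne_top (Ideal.eq_top_of_isUnit_mem _ hf hu)
    have hunit0 : ∀ {f : MvPolynomial (Fin n) ℂ}, f ≠ 0 → f.totalDegree = 0 → IsUnit f := by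
      intro f hf0 hf
      have h3 := (totalDegree_eq_zero_iff_eq_C (p := f)).1 hf
      rw [h3]
      refine (IsUnit.mk0 (coeff 0 f) fun hc => hf0 ?_).map C
      rw [h3, hc, C_0]
    -- a divisor of `r j0` of least degree
    have hex : ∃ d, ∃ (g : MvPolynomial (Fin n) ℂ) (β : G →* ℂˣ), Typ D.α β d g ∧ g ∣ r j0 ∧
        g ∈ P := ⟨D.d j0, r j0, D.ψ j0, hrt j0, dvd_rfl, hrP j0⟩
    set d0 := Nat.find hex with hd0
    obtain ⟨g, β1, hg1, hg2, hg3⟩ := Nat.find_spec hex
    have hmin : ∀ d (g : MvPolynomial (Fin n) ℂ) (β : G →* ℂˣ), Typ D.α β d g → g ∣ r j0 →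
        g ∈ P → d0 ≤ d := fun d g β h1 h2 h3 => Nat.find_min' hex ⟨g, β, h1, h2, h3⟩
    rw [← hd0] at hg1
    set g1 := res (S : Set (Fin n)) g with hg1d
    have hg1t : Typ D.α β1 d0 g1 := typ_res hg1 _
    have hresr : ∀ j, res (S : Set (Fin n)) (r j) = r j := fun j => res_res _ _
    have hg1r : g1 ∣ r j0 := by
      have h3 := map_dvd (res (S : Set (Fin n))) hg2
      rwa [hresr] at h3
    have hg1P : g1 ∈ P := (res_mem_iff hXP _).2 hg3
    have hg10 : g1 ≠ 0 := fun h3 => hrj0 (zero_dvd_iff.1 (h3 ▸ hg1r))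
    have hg1deg : g1.totalDegree = d0 := hg1t.1.totalDegree hg10
    have hd0pos : 0 < d0 := by
      by_contra h3
      exact hnotunit hg1P (hunit0 hg10 (by omega))
    obtain ⟨j1, hj1k, hj1⟩ : ∃ j1, j1 ≠ k ∧ ¬ g1 ∣ r j1 := by
      by_contra hcon
      push Not at hcon
      exact hnotunit hg1P (isUnit_of_dvd_unit
        (h2 g1 fun j hj => hcon j (Finset.mem_erase.1 hj).1) hunit)
    have hrj1 : r j1 ≠ 0 := fun h3 => hj1 (h3 ▸ dvd_zero _)
    have hj01 : j0 ≠ j1 := by
      rintro rfl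
      exact hj1 hg1r
    have hprime : IsRelPrime g1 (r j1) := by
      obtain ⟨h', hh1, hh2⟩ := exists_gcd (Finset.univ : Finset Bool)
        (fun b => if b then g1 else r j1)
      have e1 : h' ∣ g1 := by
        have := hh1 true (Finset.mem_univ _)
        simpa using this
      have e2 : h' ∣ r j1 := by
        have := hh1 false (Finset.mem_univ _)
        simpa using this
      have e3 : ∀ k, k ∣ g1 → k ∣ r j1 → k ∣ h' := by
        intro k hk1 hk2
        refine hh2 k fun b _ => ?_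
        cases b
        · simpa using hk2
        · simpa using hk1
      have e0 : h' ≠ 0 := fun h3 => hg10 (zero_dvd_iff.1 (h3 ▸ e1))
      obtain ⟨β', hβ'⟩ := typ_of_dvd (α := D.α) hg1t.1 hg10 e1
        fun g => e3 _ (act_dvd hg1t e1 g) (act_dvd (hrt j1) e2 g)
      obtain ⟨u, hu⟩ := e1
      have hu0 : u ≠ 0 := by
        rintro rfl
        rw [mul_zero] at hu
        exact hg10 hu
      have hdegs : d0 = h'.totalDegree + u.totalDegree := by
        rw [← hg1deg, hu, totalDegree_mul_of_isDomain e0 hu0]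
      have hunit' : IsUnit h' := by
        have h4 : h' * u ∈ P := hu ▸ hg1P
        rcases hP.mem_or_mem h4 with h5 | h5
        · exfalso
          have h6 := hmin _ h' β' hβ' ((Dvd.intro u hu.symm).trans hg1r) h5
          have h7 : IsUnit u := hunit0 hu0 (by omega)
          apply hj1
          obtain ⟨v, hv⟩ := h7.exists_right_inv
          refine dvd_trans ⟨v, ?_⟩ e2
          rw [hu, mul_assoc, hv, mul_one]
        · obtain ⟨β'', hβ''⟩ := typ_quot hg1t hg10 hβ' hu
          have h6 := hmin _ u β'' hβ'' ((Dvd.intro_left h' hu.symm).trans hg1r) h5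
          exact hunit0 e0 (by omega)
      intro d hd1 hd2
      exact isUnit_of_dvd_unit (e3 d hd1 hd2) hunit'
    have hset : {i | i ∈ Sᶜ.toList} = ((S : Set (Fin n))ᶜ : Set (Fin n)) := by
      ext i
      simp
    refine resid D S [(g1, d0, β1), (r j1, D.d j1, D.ψ j1)] ?_ ?_ ?_ hP hPH hJP hXP ?_ hPinf
      (hfin i1 hi1) ?_ ψ
    · intro x hx
      simp only [List.mem_cons, List.not_mem_nil, or_false] at hx
      rcases hx with rfl | rfl
      · exact ⟨hg1t, hd0pos⟩
      · exact ⟨hrt j1, by have := D.two j1; simp only; omega⟩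
    · simp only [List.length_cons, List.length_nil]
      omega
    · rw [reg_append]
      refine ⟨reg_X_bot _ (Finset.nodup_toList _), ?_, ?_, trivial⟩
      · rw [ext_X_bot, hset]
        refine nz_res _ ?_
        show res (S : Set (Fin n)) g1 ≠ 0
        rw [hg1d, res_res]
        exact hg10
      · rw [ext_X_bot, hset]
        intro q hq
        obtain ⟨a, ha⟩ := mem_sup_iff.1 hq
        rw [mem_span_iff_res] at ha
        have h3 : r j1 * res (S : Set (Fin n)) q = g1 * res (S : Set (Fin n)) a := by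
          have h4 : res (S : Set (Fin n)) (r j1 * q - g1 * a) = 0 := ha
          rw [map_sub, map_mul, map_mul, hresr, hg1d, res_res, ← hg1d] at h4
          exact sub_eq_zero.1 h4
        obtain ⟨a', ha'⟩ := hprime.dvd_of_dvd_mul_left (Dvd.intro _ h3.symm)
        refine mem_sup_iff.2 ⟨a', ?_⟩
        rw [← ha']
        exact sub_res_mem _ q
    · intro x hx
      simp only [List.mem_cons, List.not_mem_nil, or_false] at hx
      rcases hx with rfl | rfl
      · exact hg1P
      · exact hrP j1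
    · simp only [List.map_cons, List.map_nil, List.sum_cons, List.sum_nil, add_zero]
      have h5 : d0 ≤ D.d j0 := hmin _ _ _ (hrt j0) dvd_rfl (hrP j0)
      have h6 : (D.d j0 - 1) + ((D.d j1 - 1) + (D.d k - 1)) ≤ D.ρ := by
        have h7 := Finset.sum_pair (f := fun j => D.d j - 1) hj1k
        have h8 : j0 ∉ ({j1, k} : Finset (Fin c)) := by
          simp [hj01, hj0k]
        have h9 := Finset.sum_insert (f := fun j => D.d j - 1) h8
        rw [h7] at h9
        rw [← h9]
        exact Finset.sum_le_sum_of_subset (Finset.subset_univ _)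
      omega
  · -- a common factor
    left
    intro t ht ψ
    refine curve D.sit D.top S [(h, h.totalDegree, β), (D.f k, D.d k, D.ψ k)] ?_ ?_ ?_ ?_ ?_ ψ
    · intro x hx
      simp only [List.mem_cons, List.not_mem_nil, or_false] at hx
      rcases hx with rfl | rfl
      · exact ⟨hβ.1, hdeg, hβ.2⟩
      · exact ⟨(D.typ k).1, by have := D.two k; simp only; omega, (D.typ k).2⟩
    · simp only [List.length_cons, List.length_nil]
      omega
    · intro v hv hv2
      refine (D.zero_iff v).2 fun j => ?_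
      by_cases hjk : j = k
      · subst hjk
        exact hv2 (D.f j, D.d j, D.ψ j) (by simp)
      · obtain ⟨u, hu⟩ := h1 j (hmem hjk)
        rw [← hreval j v hv, hu, map_mul, hv2 (h, h.totalDegree, β) (by simp), zero_mul]
    · intro i hi
      obtain ⟨Z, hZ⟩ := hfin i hi
      refine ⟨Z, fun v hv hvS hvi => hZ v ⟨(D.zero_iff v).1 hv, fun k hk => ?_⟩⟩
      rw [Finset.mem_erase, not_and_or, not_not] at hk
      rcases hk with rfl | hk
      · exact hvi
      · exact hvS k hk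
    · simp only [List.map_cons, List.map_nil, List.sum_cons, List.sum_nil, add_zero]
      have h5 := (hom_of_dvd (h1 j0 (hmem hj0k)) (hrt j0).1 hrj0).2
      have h6 : (D.d j0 - 1) + (D.d k - 1) ≤ D.ρ := by
        have h7 := Finset.sum_pair (f := fun j => D.d j - 1) hj0k
        rw [← h7]
        exact Finset.sum_le_sum_of_subset (Finset.subset_univ _)
      omega

end Pool.Agent.W5h70.Fuj
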