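import Pool.Agent.W5h70.Fuj.Semi

/-!
# Characters on curves

`curve`: if the coordinate subspace `T` meets `V` in a curve which is cut out in `T` by
`|T| - 2` semi-invariant forms `gs`, then every character occurs among the monomials of degree `t` in
the variables of `T`, for all `t` with `2 t + 1 ≥ ∑ (d - 1)`.
-/

set_option autoImplicit false

namespace Pool.Agent.W5h70.Fuj

open MvPolynomial Module Pool.Agent.TH144.MB

variable {K : Type} [Field K] {G : Type} [Group G] {n : ℕ}

theorem ext_zero_bot {σ : Type} (fs : List (MvPolynomial σ K)) (v : σ → K) :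
    (∀ p ∈ TH144.MB.ext ⊥ fs, eval v p = 0) ↔ ∀ f ∈ fs, eval v f = 0 := by
  rw [zero_ext]
  constructor
  · exact fun h => h.2
  · refine fun h => ⟨fun p hp => ?_, h⟩
    rw [Ideal.mem_bot] at hp
    rw [hp, map_zero]

theorem mem_ext {σ : Type} (L : List (MvPolynomial σ K)) (I : Ideal (MvPolynomial σ K)) :
    ∀ f ∈ L, f ∈ TH144.MB.ext I L := by
  induction L with
  | nil => intro f hf; simp at hf
  | cons g L ih =>
    intro f hf
    rw [ext_cons]
    rcases List.mem_cons.1 hf with rfl | hf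
    · exact Ideal.mem_sup_right (Ideal.mem_span_singleton_self f)
    · exact Ideal.mem_sup_left (ih f hf)

theorem rf_symm {A : Type} [AddCommGroup A] (δ0 : ℤ × A → ℤ) (h : ∀ μ, μ ≠ 0 → δ0 μ = 0) :
    Rf 0 δ0 = δ0 := by
  funext μ
  by_cases hμ : μ = 0
  · simp [Rf, hμ]
  · have h5 : (0 : ℤ × A) - μ ≠ 0 := by
      rw [_root_.zero_sub]
      exact neg_ne_zero.2 hμ
    simp only [Rf]
    rw [h μ hμ, h _ h5]

theorem curve [IsAlgClosed K] [CharZero K] [Fintype G] (S : Sit K G n) {ρ : ℕ}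
    (hρ : TopBound S.I ρ) (T : Finset (Fin n)) (gs : List (MvPolynomial (Fin n) K × ℕ × (G →* Kˣ)))
    (hgs : ∀ x ∈ gs, x.1.IsHomogeneous x.2.1 ∧ 0 < x.2.1 ∧
      ∀ g v, eval (mv S.α g v) x.1 = (x.2.2 g : K) * eval v x.1)
    (hlen : gs.length + 2 = T.card)
    (hzero : ∀ v : Fin n → K, (∀ i ∉ T, v i = 0) → (∀ x ∈ gs, eval v x.1 = 0) →
      ∀ p ∈ S.I, eval v p = 0)
    (hfin : ∀ i ∈ T, ∃ Z : Finset (Fin n → K), ∀ v : Fin n → K, (∀ p ∈ S.I, eval v p = 0) →
      (∀ j ∉ T, v j = 0) → v i = 0 → ∃ z ∈ Z, ∃ c : K, v = c • z)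
    {t : ℕ} (ht : (gs.map fun x => x.2.1 - 1).sum ≤ 2 * t + 1) (ψ : G →* Kˣ) :
    ∃ m : Fin n →₀ ℕ, m.degree = t ∧ chr S.α m = ψ ∧ ∀ i ∉ T, m i = 0 := by
  classical
  set A := Additive (G →* Kˣ) with hA
  let w : Fin n → ℤ × A := wt S.α
  have hw1 : ∀ i, (w i).1 = 1 := fun i => rfl
  have hFD : FD K w := fd_wt S.α
  -- the equations of the curve
  let fsl : List (MvPolynomial (Fin n) K × ℕ) :=
    (gs.map fun x => (x.1, x.2.1)) ++ (Tᶜ.toList.map fun i => (X i, 1))
  let Ws : List (MvPolynomial (Fin n) K × (ℤ × A)) :=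
    (gs.map fun x => (x.1, ((x.2.1 : ℤ), Additive.ofMul x.2.2))) ++
      (Tᶜ.toList.map fun i => (X i, w i))
  have hfst : fsl.map Prod.fst = Ws.map Prod.fst := by
    simp only [fsl, Ws, List.map_append, List.map_map]
    rfl
  have hTc : Tᶜ.toList.length + T.card = n := by
    rw [Finset.length_toList, Finset.card_compl, Fintype.card_fin]
    have := Finset.card_le_univ T
    rw [Fintype.card_fin] at this
    omega
  have hWlen : Ws.length + 2 = n := by
    simp only [Ws, List.length_append, List.length_map]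
    omega
  have hflen : fsl.length + 2 = n := by
    simp only [fsl, List.length_append, List.length_map]
    omega
  have hWw : ∀ x ∈ Ws, IsWeightedHomogeneous w x.1 x.2 := by
    intro x hx
    rcases List.mem_append.1 hx with hx | hx
    · obtain ⟨y, hy, rfl⟩ := List.mem_map.1 hx
      exact wh_semi (hgs y hy).1 (hgs y hy).2.2
    · obtain ⟨i, _, rfl⟩ := List.mem_map.1 hx
      exact isWeightedHomogeneous_X K w i
  have hfd : ∀ x ∈ fsl, x.1.IsHomogeneous x.2 ∧ 0 < x.2 := by
    intro x hx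
    rcases List.mem_append.1 hx with hx | hx
    · obtain ⟨y, hy, rfl⟩ := List.mem_map.1 hx
      exact ⟨(hgs y hy).1, (hgs y hy).2.1⟩
    · obtain ⟨i, _, rfl⟩ := List.mem_map.1 hx
      exact ⟨isHomogeneous_X K i, one_pos⟩
  have hz : ∀ v : Fin n → K, (∀ f ∈ Ws.map Prod.fst, eval v f = 0) →
      (∀ i ∉ T, v i = 0) ∧ ∀ p ∈ S.I, eval v p = 0 := by
    intro v hv
    have h1 : ∀ i ∉ T, v i = 0 := by
      intro i hi
      have h2 := hv (X i) (List.mem_map.2 ⟨(X i, w i), List.mem_append_right _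
        (List.mem_map.2 ⟨i, by simpa using hi, rfl⟩), rfl⟩)
      rwa [eval_X] at h2
    refine ⟨h1, hzero v h1 fun x hx => ?_⟩
    exact hv x.1 (List.mem_map.2 ⟨_, List.mem_append_left _ (List.mem_map.2 ⟨x, hx, rfl⟩), rfl⟩)
  -- the basic regular sequences
  have key : ∀ (i : Fin n) (p : MvPolynomial (Fin n) K) (b : ℕ), 0 < b → p.IsHomogeneous b →
      (∀ v : Fin n → K, (∀ f ∈ Ws.map Prod.fst, eval v f = 0) → v i = 0 → eval v p = 0 → v = 0) →
      Reg ⊥ (Ws.map Prod.fst ++ [X i, p]) ∧ ∃ B : ℕ, ∀ s, B < s →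
        ∀ q : MvPolynomial (Fin n) K, q.IsHomogeneous s →
          q ∈ TH144.MB.ext ⊥ (Ws.map Prod.fst ++ [X i, p]) := by
    intro i p b hb hp hv
    obtain ⟨h1, h2⟩ := square (fsl ++ [(X i, 1), (p, b)]) [] (by
      intro x hx
      rcases List.mem_append.1 hx with hx | hx
      · exact hfd x hx
      · simp only [List.mem_cons, List.not_mem_nil, or_false] at hx
        rcases hx with rfl | rfl
        · exact ⟨isHomogeneous_X K i, one_pos⟩
        · exact ⟨hp, hb⟩) (by
      simp only [List.length_nil, List.length_append, List.length_cons, Fintype.card_fin]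
      omega) (by
      intro v _ hv2
      refine hv v (fun f hf => ?_) ?_ ?_
      · rw [← hfst] at hf
        obtain ⟨x, hx, rfl⟩ := List.mem_map.1 hf
        exact hv2 x (List.mem_append_left _ hx)
      · have := hv2 (X i, 1) (by simp)
        simpa using this
      · exact hv2 (p, b) (by simp))
    simp only [List.map_nil, List.nil_append, List.map_append, List.map_cons, hfst] at h1 h2
    exact ⟨h1, _, h2⟩
  -- the Hilbert function
  set I : Ideal (MvPolynomial (Fin n) K) := TH144.MB.ext ⊥ (Ws.map Prod.fst) with hI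
  have hT0 : ∃ i0, i0 ∈ T := by
    have : 0 < T.card := by omega
    exact Finset.card_pos.1 this
  obtain ⟨i0, hi0⟩ := hT0
  -- generic forms
  have hgen : ∀ i ∈ T, ∀ (b : ℕ) (ξ : A), ρ ≤ b → 0 < b → ∃ p : MvPolynomial (Fin n) K,
      IsWeightedHomogeneous w p ((b : ℤ), ξ) ∧ (∀ v : Fin n → K,
        (∀ f ∈ Ws.map Prod.fst, eval v f = 0) → v i = 0 → eval v p = 0 → v = 0) := by
    intro i hi b ξ hb hb0
    obtain ⟨Z, hZ⟩ := hfin i hi
    obtain ⟨p, hp, hpZ⟩ := generic S hρ (Z.filter fun z => z ≠ 0 ∧ ∀ p ∈ S.I, eval z p = 0)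
      (fun z hz => (Finset.mem_filter.1 hz).2) ξ hb
    refine ⟨p, hp, fun v hv hvi hvp => ?_⟩
    by_contra hv0
    obtain ⟨h1, h2⟩ := hz v hv
    obtain ⟨z, hzZ, c, rfl⟩ := hZ v h2 h1 hvi
    have hc : c ≠ 0 := by
      rintro rfl
      exact hv0 (zero_smul _ _)
    have hz0 : z ≠ 0 := by
      rintro rfl
      exact hv0 (smul_zero _)
    have hzI : ∀ p ∈ S.I, eval z p = 0 := by
      have h3 := cone S.hom h2 c⁻¹
      rwa [smul_smul, inv_mul_cancel₀ hc, one_smul] at h3
    have h3 := hpZ z (Finset.mem_filter.2 ⟨hzZ, hz0, hzI⟩)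
    have h4 := eval_smul' (isHomogeneous_of_wt hp) c z
    have h5 : (fun i => c * z i) = c • z := rfl
    rw [h5, hvp] at h4
    exact (mul_ne_zero (pow_ne_zero _ hc) h3) h4.symm
  have hreg : Reg ⊥ (Ws.map Prod.fst) := by
    obtain ⟨p, hp, hv⟩ := hgen i0 hi0 (ρ + 1) 0 (by omega) (by omega)
    have h1 := (key i0 p (ρ + 1) (by omega) (isHomogeneous_of_wt hp) hv).1
    rw [reg_append] at h1
    exact h1.1
  obtain ⟨hh, hIW⟩ := hf_ext hFD Ws ⊥ (whom_bot w) hWw hreg
  rw [← hI] at hh hIW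
  set h : ℤ × A → ℤ := hf w I with hh'
  set Γ : List (ℤ × A) := Ws.map Prod.snd with hΓ
  set Wl : List (ℤ × A) := (Finset.univ : Finset (Fin n)).toList.map w with hWl
  have hWl1 : ∀ x ∈ Wl, x.1 = 1 := by
    intro x hx
    obtain ⟨i, _, rfl⟩ := List.mem_map.1 hx
    rfl
  have hWlen2 : Wl.length = Γ.length + 2 := by
    simp only [hWl, hΓ, List.length_map, Finset.length_toList, Finset.card_univ,
      Fintype.card_fin]
    omega
  have hneg : ∀ (J : Ideal (MvPolynomial (Fin n) K)) (μ : ℤ × A), μ.1 < 0 → hf w J μ = 0 := by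
    intro J μ hμ
    refine hf_eq_zero fun p hp => ?_
    rw [eq_zero_of_neg hp hμ]
    exact J.zero_mem
  have hsec : ∀ i ∈ T, ∀ γ : ℤ × A, ((ρ : ℤ) + 1) ≤ γ.1 →
      E γ (E (w i) (h - Rf (Γ.sum - Wl.sum) h)) = 0 := by
    intro i hi γ hγ
    obtain ⟨b, hb⟩ : ∃ b : ℕ, γ.1 = b := ⟨γ.1.toNat, by rw [Int.toNat_of_nonneg (by omega)]⟩
    obtain ⟨p, hp, hv⟩ := hgen i hi b γ.2 (by omega) (by omega)
    obtain ⟨h1, B, h2⟩ := key i p b (by omega) (isHomogeneous_of_wt hp) hv
    have hγ' : γ = ((b : ℤ), γ.2) := by rw [← hb]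
    rw [← hγ'] at hp
    have h3 := (hf_ext hFD (Ws ++ [(X i, w i), (p, γ)]) ⊥ (whom_bot w) (by
      intro x hx
      rcases List.mem_append.1 hx with hx | hx
      · exact hWw x hx
      · simp only [List.mem_cons, List.not_mem_nil, or_false] at hx
        rcases hx with rfl | rfl
        · exact isWeightedHomogeneous_X K w i
        · exact hp) (by
      simp only [List.map_append, List.map_cons, List.map_nil]
      exact h1)).1
    have h4 : E γ (E (w i) h) = hf w (TH144.MB.ext ⊥ (Ws.map Prod.fst ++ [X i, p])) := by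
      simp only [List.map_append, List.map_cons, List.map_nil] at h3
      rw [h3, EL_append, ← hΓ, ← hh]
      rfl
    refine second Wl Γ hWlen2 hWl1 (h0 := hf w ⊥) (δ0 := hf w (TH144.MB.ext ⊥
      ((Finset.univ : Finset (Fin n)).toList.map (X : Fin n → MvPolynomial (Fin n) K)))) ?_
      (EL_X hFD) hh (w i) γ (B1 := 0) (B2 := B) ?_ ?_
    · exact rf_symm _ fun μ hμ => hf_X w hμ
    · intro μ hμ
      rw [h4]
      exact hneg _ μ hμ
    · intro μ hμ
      rw [h4]
      refine hf_eq_zero fun q hq => ?_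
      have h5 : μ = ((μ.1.toNat : ℤ), μ.2) := by
        rw [Int.toNat_of_nonneg (by omega)]
      rw [h5] at hq
      exact h2 μ.1.toNat (by omega) q (isHomogeneous_of_wt hq)
  -- a point of the curve in the hyperplane
  obtain ⟨z, hz0, hzW, hzi⟩ : ∃ z : Fin n → K, z ≠ 0 ∧ (∀ f ∈ Ws.map Prod.fst, eval z f = 0) ∧
      z i0 = 0 := by
    by_contra hc
    push Not at hc
    obtain ⟨h1, _⟩ := key i0 (X i0) 1 one_pos (isHomogeneous_X K i0) (by
      intro v hv hv1 _
      by_contra hv0
      exact hc v hv0 hv hv1)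
    rw [reg_append] at h1
    obtain ⟨_, _, h2, _⟩ := h1
    have h3 := h2 1 (by
      rw [mul_one]
      exact Ideal.mem_sup_right (Ideal.mem_span_singleton_self _))
    have h4 : ∀ p ∈ TH144.MB.ext ⊥ (Ws.map Prod.fst) ⊔ Ideal.span {X i0},
        eval (0 : Fin n → K) p = 0 := by
      rw [zero_sup, ext_zero_bot]
      refine ⟨fun f hf => ?_, by simp⟩
      rw [← hfst] at hf
      obtain ⟨x, hx, rfl⟩ := List.mem_map.1 hf
      have h5 := eval_smul' (hfd x hx).1 (0 : K) (0 : Fin n → K)
      rw [zero_pow (hfd x hx).2.ne', zero_mul] at h5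
      have h6 : (fun i => (0 : K) * (0 : Fin n → K) i) = 0 := by
        funext j
        simp
      rw [h6] at h5
      exact h5
    have h5 := h4 1 h3
    rw [map_one] at h5
    exact one_ne_zero h5
  obtain ⟨hzT, hzI⟩ := hz z hzW
  have hmono : ∀ (b : ℕ) (ξ : A), ρ ≤ b → ∃ m : Fin n →₀ ℕ, Finsupp.weight w m = ((b : ℤ), ξ) ∧
      mon m z ≠ 0 := by
    intro b ξ hb
    obtain ⟨m, hm, hmc, hmz⟩ := S.exists_monomial hρ hz0 hzI (Additive.toMul ξ) hb
    refine ⟨m, ?_, hmz⟩
    show Finsupp.weight (wt S.α) m = _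
    rw [weight_wt, hm]
    have : chr S.α m = Additive.toMul ξ := MonoidHom.ext fun g => by rw [chr_apply, hmc]
    rw [this]
    rfl
  -- the abstract lemma
  have hpos := half w hw1 h (hf_nonneg w I) (hneg I) (Γ.sum - Wl.sum) ((ρ : ℤ) + 1)
    (S := {i | i ∈ T}) (fun i hi γ hγ => hsec i hi γ hγ) i0 hi0 (by
      intro μ hμ
      have hNZ : NZ (X i0 : MvPolynomial (Fin n) K) I := by
        obtain ⟨p, hp, hv⟩ := hgen i0 hi0 (ρ + 1) 0 (by omega) (by omega)
        have h1 := (key i0 p (ρ + 1) (by omega) (isHomogeneous_of_wt hp) hv).1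
        rw [reg_append] at h1
        exact h1.2.1
      have h1 := congrFun (hf_sup hFD hIW (isWeightedHomogeneous_X K w i0) hNZ) μ
      have h2 : 0 < hf w (I ⊔ Ideal.span {X i0}) μ := by
        obtain ⟨m, hm, hmz⟩ := hmono μ.1.toNat μ.2 (by omega)
        have h5 : μ = ((μ.1.toNat : ℤ), μ.2) := by
          rw [Int.toNat_of_nonneg (by omega)]
        refine hf_pos hFD (p := monomial m 1) (isWeightedHomogeneous_monomial _ _ _
          (by rw [hm, ← h5])) fun h6 => ?_
        have h7 : ∀ p ∈ I ⊔ Ideal.span {X i0}, eval z p = 0 := by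
          rw [zero_sup, hI, ext_zero_bot]
          exact ⟨hzW, by rw [eval_X, hzi]⟩
        have h8 := h7 _ h6
        rw [eval_monomial, Finsupp.prod_fintype _ _ (fun i => pow_zero _), one_mul] at h8
        exact hmz h8
      rw [h1] at h2
      have h9 : E (w i0) (hf w I) μ = h μ - h (μ - w i0) := rfl
      rw [h9] at h2
      omega) (by
      refine ⟨Fintype.card G, Fintype.card_pos, ?_⟩
      have h1 : ∀ i, Fintype.card G • w i = ((Fintype.card G : ℤ), (0 : A)) := by
        intro i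
        have h2 : (S.α i) ^ Fintype.card G = 1 := by
          ext g
          rw [MonoidHom.pow_apply, ← map_pow, pow_card_eq_one, map_one]
          rfl
        have h3 : Fintype.card G • (Additive.ofMul (S.α i) : A) = 0 := by
          rw [← ofMul_pow, h2]
          rfl
        refine Prod.ext ?_ ?_
        · show Fintype.card G • (1 : ℤ) = _
          simp
        · exact h3
      intro i _
      rw [h1, h1]) (by
      refine ⟨ρ, fun ξ => ?_⟩
      obtain ⟨m, hm, hmz⟩ := hmono ρ ξ le_rfl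
      obtain ⟨L, hL, hL1, hL2⟩ := exists_list w m
      refine ⟨L, fun i hi => ?_, ?_, ?_⟩
      · by_contra hiT
        have h1 := (Finset.prod_ne_zero_iff.1 hmz) i (Finset.mem_univ i)
        rw [hzT i hiT, zero_pow (hL i hi)] at h1
        exact h1 rfl
      · rw [hL1]
        have := congrArg Prod.fst hm
        rw [show Finsupp.weight w m = _ from weight_wt S.α m] at this
        simpa using this
      · rw [hL2, hm])
  -- the degree of the canonical class
  have hω : (Γ.sum - Wl.sum).1 + 2 = (((gs.map fun x => x.2.1 - 1).sum : ℕ) : ℤ) := by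
    have e1 : ∀ (L : List (MvPolynomial (Fin n) K × ℕ × (G →* Kˣ))), (∀ x ∈ L, 0 < x.2.1) →
        ((L.map fun x => (x.2.1 : ℤ)).sum) =
          (((L.map fun x => x.2.1 - 1).sum : ℕ) : ℤ) + L.length := by
      intro L
      induction L with
      | nil => intro _; simp
      | cons x L ih =>
        intro hL
        have h1 := ih fun y hy => hL y (by simp [hy])
        have h2 := hL x (by simp)
        simp only [List.map_cons, List.sum_cons, List.length_cons]
        rw [h1]
        push_cast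
        rw [Nat.cast_sub (by omega)]
        push_cast
        ring
    have e2 : ∀ L : List (ℤ × A), L.sum.1 = (L.map Prod.fst).sum := by
      intro L
      induction L with
      | nil => rfl
      | cons x L ih =>
        rw [List.sum_cons, List.map_cons, List.sum_cons, ← ih]
        rfl
    have e3 : ∀ L : List (Fin n), ((L.map fun _ => (1 : ℤ)).sum) = L.length := by
      intro L
      simp
    rw [Prod.fst_sub, e2, e2, hΓ, hWl]
    simp only [Ws, List.map_append, List.map_map, List.sum_append]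
    have g1 : List.map (Prod.fst ∘ Prod.snd ∘ fun x : MvPolynomial (Fin n) K × ℕ × (G →* Kˣ) =>
        (x.1, ((x.2.1 : ℤ), Additive.ofMul x.2.2))) gs = gs.map fun x => (x.2.1 : ℤ) := rfl
    have g2 : List.map (Prod.fst ∘ Prod.snd ∘ fun i : Fin n =>
        ((X i : MvPolynomial (Fin n) K), w i)) Tᶜ.toList = Tᶜ.toList.map fun _ => (1 : ℤ) := rfl
    have g3 : List.map (Prod.fst ∘ w) (Finset.univ : Finset (Fin n)).toList
        = (Finset.univ : Finset (Fin n)).toList.map fun _ => (1 : ℤ) := rfl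
    rw [g1, g2, g3, e1 gs (fun x hx => (hgs x hx).2.1), e3, e3]
    have g4 : (Finset.univ : Finset (Fin n)).toList.length = n := by simp
    rw [g4]
    omega
  obtain ⟨m, hm, hmI⟩ := exists_mono_of_pos (hpos ((t : ℤ), Additive.ofMul ψ) (by
    show (Γ.sum - Wl.sum).1 < 2 * (t : ℤ)
    omega))
  rw [show Finsupp.weight w m = _ from weight_wt S.α m, Prod.mk.injEq, Nat.cast_inj] at hm
  refine ⟨m, hm.1, Additive.ofMul.injective hm.2, fun i hi => ?_⟩
  by_contra hmi
  apply hmI
  have h5 : (monomial m 1 : MvPolynomial (Fin n) K)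
      = monomial (m - Finsupp.single i 1) 1 * X i := by
    rw [← pow_one (X i : MvPolynomial (Fin n) K), X_pow_eq_monomial, monomial_mul, mul_one,
      tsub_add_cancel_of_le]
    rw [Finsupp.single_le_iff]
    omega
  rw [h5]
  refine Ideal.mul_mem_left _ _ ?_
  rw [hI]
  refine mem_ext _ _ _ (List.mem_map.2 ⟨(X i, w i), List.mem_append_right _
    (List.mem_map.2 ⟨i, by simpa using hi, rfl⟩), rfl⟩)

end Pool.Agent.W5h70.Fuj
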