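import Pool.Agent.W5h70.Fuj.Core2
import Pool.Agent.W5h70.Fuj.Coord

/-!
# Sections by coordinate subspaces
-/

set_option autoImplicit false

namespace Pool.Agent.W5h70.Fuj

open MvPolynomial Module Pool.Agent.TH144.MB Pool.Agent.W5h40.Fuj

variable {G : Type} [Group G] {n c : ℕ} (D : Dat G n c)

/-- finitely many points on the coordinate subspace `S` -/
def FinOn (S : Finset (Fin n)) : Prop := FinZ fun v : Fin n → ℂ => D.Z v ∧ ∀ i ∉ S, v i = 0

open Classical in
/-- the forms which do not vanish identically on the coordinate subspace `S` -/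
noncomputable def live (S : Finset (Fin n)) : Finset (Fin c) :=
  Finset.univ.filter fun j => ∃ v : Fin n → ℂ, (∀ i ∉ S, v i = 0) ∧ eval v (D.f j) ≠ 0

theorem mem_live {S : Finset (Fin n)} {j : Fin c} :
    j ∈ live D S ↔ ∃ v : Fin n → ℂ, (∀ i ∉ S, v i = 0) ∧ eval v (D.f j) ≠ 0 := by
  classical
  simp [live]

theorem not_mem_live {S : Finset (Fin n)} {j : Fin c} (h : j ∉ live D S) {v : Fin n → ℂ}
    (hv : ∀ i ∉ S, v i = 0) : eval v (D.f j) = 0 := by
  by_contra h1
  exact h ((mem_live D).2 ⟨v, hv, h1⟩)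

theorem exists_section (S : Finset (Fin n)) (h : ¬ FinOn D S) :
    ∃ S' ⊆ S, ¬ FinOn D S' ∧ ∀ i ∈ S', FinOn D (S'.erase i) := by
  induction S using Finset.strongInduction with
  | _ S ih =>
    by_cases hh : ∀ i ∈ S, FinOn D (S.erase i)
    · exact ⟨S, subset_rfl, h, hh⟩
    · push Not at hh
      obtain ⟨i, hi, hni⟩ := hh
      obtain ⟨S', h1, h2⟩ := ih (S.erase i) (Finset.erase_ssubset hi) hni
      exact ⟨S', h1.trans (Finset.erase_subset _ _), h2⟩

/-- the dimension of a section is at least the expected one -/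
theorem count {S : Finset (Fin n)} {i : Fin n} (hi : i ∈ S) (h : FinOn D (S.erase i)) :
    S.card ≤ (live D S).card + 2 := by
  classical
  by_contra hlt
  push Not at hlt
  obtain ⟨a, ha⟩ := FinZ.exists_lin h
  obtain ⟨v, hv0, hv⟩ := exists_common
    (((live D S).toList.map fun j => (D.f j, D.d j)) ++ (Sᶜ.toList.map fun k => (X k, 1)) ++
      [(X i, 1), (lin a, 1)]) (by
    intro x hx
    rcases List.mem_append.1 hx with hx | hx
    · rcases List.mem_append.1 hx with hx | hx
      · obtain ⟨j, _, rfl⟩ := List.mem_map.1 hx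
        exact ⟨(D.typ j).1, by have := D.two j; simp only; omega⟩
      · obtain ⟨k, _, rfl⟩ := List.mem_map.1 hx
        exact ⟨isHomogeneous_X _ _, one_pos⟩
    · simp only [List.mem_cons, List.not_mem_nil, or_false] at hx
      rcases hx with rfl | rfl
      · exact ⟨isHomogeneous_X _ _, one_pos⟩
      · exact ⟨lin_hom _, one_pos⟩) (by
    simp only [List.length_append, List.length_map, List.length_cons, List.length_nil,
      Finset.length_toList, Finset.card_compl, Fintype.card_fin]
    have := Finset.card_le_univ S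
    rw [Fintype.card_fin] at this
    omega)
  have h1 : ∀ k, k ∉ S → v k = 0 := by
    intro k hk
    have := hv (X k, 1) (by simp [hk])
    simpa using this
  have h2 : v i = 0 := by
    have := hv (X i, 1) (by simp)
    simpa using this
  have h3 : D.Z v := by
    intro j
    by_cases hj : j ∈ live D S
    · exact hv (D.f j, D.d j) (List.mem_append_left _ (List.mem_append_left _
        (List.mem_map.2 ⟨j, by simpa using hj, rfl⟩)))
    · exact not_mem_live D hj h1
  refine hv0 (ha v ⟨h3, fun k hk => ?_⟩ (hv (lin a, 1) (by simp)))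
  rw [Finset.mem_erase, not_and_or, not_not] at hk
  rcases hk with rfl | hk
  · exact h2
  · exact h1 k hk

theorem fin_empty : FinOn D ∅ := by
  refine ⟨{0}, fun v hv => ⟨0, by simp, 1, ?_⟩⟩
  funext i
  rw [hv.2 i (by simp)]
  simp

theorem fin_single (i : Fin n) : FinOn D {i} := by
  classical
  refine ⟨{Pi.single i 1}, fun v hv => ⟨Pi.single i 1, by simp, v i, ?_⟩⟩
  funext k
  by_cases hk : k = i
  · subst hk
    simp
  · rw [hv.2 k (by simpa using hk)]
    simp [hk]

/-- a line on which not all forms vanish -/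
theorem fin_pair {S : Finset (Fin n)} (hS : S.card = 2) (h : (live D S).Nonempty) :
    FinOn D S := by
  classical
  obtain ⟨j, hj⟩ := h
  rw [mem_live] at hj
  have hset : {i | i ∈ Sᶜ.toList} = ((S : Set (Fin n))ᶜ : Set (Fin n)) := by
    ext i
    simp
  have h1 := finite_of_reg ((Sᶜ.toList.map fun k => ((X k : MvPolynomial (Fin n) ℂ), 1)) ++
    [(D.f j, D.d j)]) (by
    intro x hx
    rcases List.mem_append.1 hx with hx | hx
    · obtain ⟨k, _, rfl⟩ := List.mem_map.1 hx
      exact isHomogeneous_X _ _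
    · simp only [List.mem_cons, List.not_mem_nil, or_false] at hx
      subst hx
      exact (D.typ j).1) (by
    simp only [List.length_append, List.length_map, List.length_cons, List.length_nil,
      Finset.length_toList, Finset.card_compl, Fintype.card_fin]
    have := Finset.card_le_univ S
    rw [Fintype.card_fin] at this
    omega) (by
    rw [List.map_append, List.map_map, reg_append]
    have h2 : List.map (Prod.fst ∘ fun k : Fin n => ((X k : MvPolynomial (Fin n) ℂ), 1))
        Sᶜ.toList = Sᶜ.toList.map X := rfl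
    rw [h2]
    refine ⟨reg_X_bot _ (Finset.nodup_toList _), ?_, trivial⟩
    rw [ext_X_bot, hset]
    refine nz_res _ fun h3 => ?_
    rw [res_eq_zero_iff] at h3
    obtain ⟨v, hv, hv2⟩ := hj
    exact hv2 (h3 v fun i hi => hv i (by simpa using hi)))
  obtain ⟨Z, hZ⟩ := h1
  refine ⟨Z, fun v hv => hZ v ?_⟩
  intro x hx
  rcases List.mem_append.1 hx with hx | hx
  · obtain ⟨k, hk, rfl⟩ := List.mem_map.1 hx
    rw [eval_X]
    exact hv.2 k (by simpa using hk)
  · simp only [List.mem_cons, List.not_mem_nil, or_false] at hx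
    subst hx
    exact hv.1 j

variable [Fintype G]

/-- proper sections -/
theorem curve_occ {S : Finset (Fin n)} (hfin : ∀ i ∈ S, FinOn D (S.erase i))
    (hcard : (live D S).card + 2 = S.card) {t : ℕ} (ht : D.ρ ≤ 2 * t + 1) (ψ : G →* ℂˣ) :
    ∃ m : Fin n →₀ ℕ, m.degree = t ∧ chr D.α m = ψ ∧ ∀ i ∉ S, m i = 0 := by
  classical
  refine curve D.sit D.top S ((live D S).toList.map fun j => (D.f j, D.d j, D.ψ j)) ?_ ?_ ?_ ?_
    ?_ ψ
  · intro x hx
    obtain ⟨j, _, rfl⟩ := List.mem_map.1 hx
    exact ⟨(D.typ j).1, by have := D.two j; simp only; omega, (D.typ j).2⟩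
  · rw [List.length_map, Finset.length_toList]
    exact hcard
  · intro v hv hv2
    refine (D.zero_iff v).2 fun j => ?_
    by_cases hj : j ∈ live D S
    · exact hv2 (D.f j, D.d j, D.ψ j) (List.mem_map.2 ⟨j, by simpa using hj, rfl⟩)
    · exact not_mem_live D hj hv
  · intro i hi
    obtain ⟨Z, hZ⟩ := hfin i hi
    refine ⟨Z, fun v hv hvS hvi => hZ v ⟨(D.zero_iff v).1 hv, fun k hk => ?_⟩⟩
    rw [Finset.mem_erase, not_and_or, not_not] at hk
    rcases hk with rfl | hk
    · exact hvi
    · exact hvS k hk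
  · rw [List.map_map]
    refine le_trans ?_ ht
    have h1 : (List.map ((fun x : MvPolynomial (Fin n) ℂ × ℕ × (G →* ℂˣ) => x.2.1 - 1) ∘
        fun j => (D.f j, D.d j, D.ψ j)) (live D S).toList).sum = ∑ j ∈ live D S, (D.d j - 1) :=
      Finset.sum_map_toList _ _
    rw [h1]
    exact Finset.sum_le_sum_of_subset (Finset.subset_univ _)

end Pool.Agent.W5h70.Fuj
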