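import Pool.Agent.W5h70.Fuj.Cut
import Pool.Agent.W5h70.Fuj.Occ

/-!
# Forms in general position
-/

set_option autoImplicit false

namespace Pool.Agent.W5h70.Fuj

open MvPolynomial Module Pool.Agent.TH144.MB Pool.Agent.W5h40.Fuj

theorem asc {M : Type} [AddCommGroup M] (a b : M) : a + (b - a) = b := add_sub_cancel a b

theorem zs {M : Type} [AddCommGroup M] (b : M) : 0 - b = -b := zero_sub b

/-- a vector on which finitely many nonzero functionals do not vanish -/
theorem exists_avoid_fun {K V : Type} [Field K] [Infinite K] [AddCommGroup V] [Module K V]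
    (P : Submodule K V) {ι : Type} (s : Finset ι) (φ : ι → V →ₗ[K] K)
    (h : ∀ i ∈ s, ∃ v ∈ P, φ i v ≠ 0) : ∃ v ∈ P, ∀ i ∈ s, φ i v ≠ 0 := by
  classical
  induction s using Finset.induction_on with
  | empty => exact ⟨0, P.zero_mem, by simp⟩
  | insert i s _ ih =>
    obtain ⟨v, hv, hvs⟩ := ih fun j hj => h j (Finset.mem_insert_of_mem hj)
    obtain ⟨u, hu, hui⟩ := h i (Finset.mem_insert_self _ _)
    obtain ⟨c, hc⟩ := Infinite.exists_notMem_finset
      ((insert i s).image fun j => - (φ j v) / φ j u)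
    refine ⟨v + c • u, P.add_mem hv (P.smul_mem c hu), fun j hj h => ?_⟩
    rw [map_add, map_smul, smul_eq_mul] at h
    by_cases h0 : φ j u = 0
    · rw [h0, mul_zero, add_zero] at h
      rcases Finset.mem_insert.1 hj with rfl | hj'
      · exact hui h0
      · exact hvs j hj' h
    · refine hc (Finset.mem_image.2 ⟨j, hj, ?_⟩)
      rw [div_eq_iff h0]
      linear_combination -h

variable {G : Type} [Group G] {n c : ℕ}

theorem wh_of_typ {α : Fin n → G →* ℂˣ} {χ : G →* ℂˣ} {b : ℕ} {p : MvPolynomial (Fin n) ℂ}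
    (h : Typ α χ b p) : IsWeightedHomogeneous (wt α) p ((b : ℤ), Additive.ofMul χ) :=
  wh_semi h.1 h.2

theorem wh_mono {α : Fin n → G →* ℂˣ} {m : Fin n →₀ ℕ} {b : ℕ} {χ : G →* ℂˣ} (h1 : m.degree = b)
    (h2 : chr α m = χ) : IsWeightedHomogeneous (wt α) (monomial m (1 : ℂ))
      ((b : ℤ), Additive.ofMul χ) := by
  refine isWeightedHomogeneous_monomial _ _ _ ?_
  rw [weight_wt, h1, h2]

variable [Fintype G]

theorem card_nsmul (χ : Additive (G →* ℂˣ)) : Fintype.card G • χ = 0 := by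
  have h2 : (Additive.toMul χ) ^ Fintype.card G = 1 := by
    ext g
    rw [MonoidHom.pow_apply, ← map_pow, pow_card_eq_one, map_one]
    rfl
  have h3 : Fintype.card G • χ = Additive.ofMul ((Additive.toMul χ) ^ Fintype.card G) := rfl
  rw [h3, h2]
  rfl

theorem nsmul0 {M : Type} [AddCommGroup M] {g : ℕ} {x : M} (h : g • x = 0) (k : ℕ) :
    (g * k) • x = 0 := by
  rw [mul_comm, mul_smul, h, smul_zero]

theorem card_mul_nsmul (χ : Additive (G →* ℂˣ)) (k : ℕ) : (Fintype.card G * k) • χ = 0 :=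
  nsmul0 (M := Additive (G →* ℂˣ)) (x := χ) (card_nsmul χ) k

/-- an invariant form of large degree which does not vanish at finitely many points -/
theorem exists_inv (α : Fin n → G →* ℂˣ) (Z : Finset (Fin n → ℂ)) (N : ℕ) :
    ∃ (b : ℕ) (p : MvPolynomial (Fin n) ℂ), N ≤ b ∧ 0 < b ∧
      IsWeightedHomogeneous (wt α) p ((b : ℤ), 0) ∧ ∀ z ∈ Z, z ≠ 0 → eval z p ≠ 0 := by
  classical
  set b : ℕ := Fintype.card G * (N + 1) with hb
  have hG : 0 < Fintype.card G := Fintype.card_pos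
  have hb1 : N + 1 ≤ b := Nat.le_mul_of_pos_left _ hG
  obtain ⟨p, hp, h⟩ := exists_avoid_fun (weightedHomogeneousSubmodule ℂ (wt α) ((b : ℤ), 0))
    (Z.filter fun z => z ≠ 0) (fun z => (aeval z : MvPolynomial (Fin n) ℂ →ₐ[ℂ] ℂ).toLinearMap) (by
      intro z hz
      obtain ⟨k, hk⟩ : ∃ k, z k ≠ 0 := by
        by_contra hc
        push Not at hc
        exact (Finset.mem_filter.1 hz).2 (funext hc)
      refine ⟨X k ^ b, ?_, ?_⟩
      · have h1 := (isWeightedHomogeneous_X ℂ (wt α) k).pow b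
        have h2 : b • wt α k = ((b : ℤ), (0 : Additive (G →* ℂˣ))) := by
          refine Prod.ext ?_ (card_mul_nsmul _ _)
          show b • (1 : ℤ) = _
          simp
        rw [h2] at h1
        exact h1
      · show aeval z (X k ^ b) ≠ 0
        rw [map_pow, aeval_X]
        exact pow_ne_zero _ hk)
  refine ⟨b, p, by omega, by omega, hp, fun z hz hz0 => ?_⟩
  have h1 := h z (Finset.mem_filter.2 ⟨hz, hz0⟩)
  have h2 : (aeval z : MvPolynomial (Fin n) ℂ →ₐ[ℂ] ℂ).toLinearMap p = eval z p := by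
    show aeval z p = _
    rw [aeval_eq_eval]
  rwa [h2] at h1

/-- An invariant form `p` which does not vanish at finitely many points and is equal to `x_i q` on
`V(P)`, with `q` not vanishing at `w`. -/
theorem exists_pq (D : Dat G n c) {P : Ideal (MvPolynomial (Fin n) ℂ)} (hJ : ∀ j, D.f j ∈ P)
    (i1 : Fin n) {ι : Type} (s : Finset ι) (z : ι → Fin n → ℂ)
    (hz : ∀ i ∈ s, z i ≠ 0 ∧ ((∃ j, eval (z i) (D.f j) ≠ 0) ∨ (D.Z (z i) ∧ z i i1 ≠ 0)))
    {w : Fin n → ℂ} (hw0 : w ≠ 0) (hwZ : D.Z w) :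
    ∃ (b : ℕ) (p q : MvPolynomial (Fin n) ℂ), D.ρ + 2 ≤ b ∧
      IsWeightedHomogeneous (wt D.α) p ((b : ℤ), 0) ∧
      IsWeightedHomogeneous (wt D.α) q (((b : ℤ), 0) - wt D.α i1) ∧ p - X i1 * q ∈ P ∧
      eval w q ≠ 0 ∧ ∀ i ∈ s, eval (z i) p ≠ 0 := by
  classical
  set Pd : ℕ := ∏ j, D.d j with hPd
  have hG : 0 < Fintype.card G := Fintype.card_pos
  have hPd0 : 0 < Pd := Finset.prod_pos fun j _ => by have := D.two j; omega
  set b : ℕ := Fintype.card G * (Pd * (D.ρ + 2)) with hb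
  have hb1 : D.ρ + 2 ≤ b :=
    (Nat.le_mul_of_pos_left _ hPd0).trans (Nat.le_mul_of_pos_left _ hG)
  set γ : ℤ × Additive (G →* ℂˣ) := ((b : ℤ), 0) with hγ
  -- powers of the equations
  have hpow : ∀ j, ∃ a : ℕ, 0 < a ∧ IsWeightedHomogeneous (wt D.α) (D.f j ^ a) γ := by
    intro j
    obtain ⟨k, hk⟩ : D.d j ∣ Pd := Finset.dvd_prod_of_mem D.d (Finset.mem_univ j)
    have hk0 : 0 < k := by
      rcases Nat.eq_zero_or_pos k with h | h
      · rw [h, mul_zero] at hk
        omega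
      · exact h
    refine ⟨Fintype.card G * (k * (D.ρ + 2)), by positivity, ?_⟩
    have h1 := (wh_of_typ (D.typ j)).pow (Fintype.card G * (k * (D.ρ + 2)))
    have h2 : (Fintype.card G * (k * (D.ρ + 2))) • (((D.d j : ℕ) : ℤ), Additive.ofMul (D.ψ j)) = γ := by
      refine Prod.ext ?_ ?_
      · show (Fintype.card G * (k * (D.ρ + 2))) • ((D.d j : ℕ) : ℤ) = (b : ℤ)
        rw [nsmul_eq_mul, hb, hk]
        push_cast
        ring
      · exact card_mul_nsmul _ _
    rw [h2] at h1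
    exact h1
  -- monomials
  have hmono : ∀ y : Fin n → ℂ, y ≠ 0 → D.Z y → ∃ m : Fin n →₀ ℕ,
      IsWeightedHomogeneous (wt D.α) (monomial m (1 : ℂ)) (γ - wt D.α i1) ∧ mon m y ≠ 0 := by
    intro y hy0 hy
    obtain ⟨m, h1, h2, h3⟩ := D.exists_mono hy0 hy (D.α i1)⁻¹ (t := b - 1) (by omega)
    refine ⟨m, ?_, h3⟩
    have h4 := wh_mono (α := D.α) h1 h2
    have h5 : (((b - 1 : ℕ) : ℤ), Additive.ofMul (D.α i1)⁻¹) = γ - wt D.α i1 := by
      refine Prod.ext ?_ ?_
      · show ((b - 1 : ℕ) : ℤ) = (b : ℤ) - 1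
        omega
      · exact (zs (Additive.ofMul (D.α i1))).symm
    rwa [h5] at h4
  let M : Submodule ℂ (MvPolynomial (Fin n) ℂ × MvPolynomial (Fin n) ℂ) :=
    { carrier := {x | IsWeightedHomogeneous (wt D.α) x.1 γ ∧
        IsWeightedHomogeneous (wt D.α) x.2 (γ - wt D.α i1) ∧ x.1 - X i1 * x.2 ∈ P}
      add_mem' := by
        rintro x y ⟨h1, h2, h3⟩ ⟨h4, h5, h6⟩
        refine ⟨h1.add h4, h2.add h5, ?_⟩
        have := P.add_mem h3 h6
        convert this using 1
        show x.1 + y.1 - X i1 * (x.2 + y.2) = _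
        ring
      zero_mem' := ⟨isWeightedHomogeneous_zero _ _ _, isWeightedHomogeneous_zero _ _ _, by
        show (0 : MvPolynomial (Fin n) ℂ) - X i1 * 0 ∈ P
        rw [mul_zero, _root_.sub_zero]
        exact P.zero_mem⟩
      smul_mem' := by
        rintro a x ⟨h1, h2, h3⟩
        refine ⟨?_, ?_, ?_⟩
        · show IsWeightedHomogeneous (wt D.α) (a • x.1) γ
          rw [smul_eq_C_mul]
          exact h1.C_mul a
        · show IsWeightedHomogeneous (wt D.α) (a • x.2) (γ - wt D.α i1)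
          rw [smul_eq_C_mul]
          exact h2.C_mul a
        · show a • x.1 - X i1 * (a • x.2) ∈ P
          rw [smul_eq_C_mul, smul_eq_C_mul]
          have := P.mul_mem_left (C a) h3
          convert this using 1
          ring }
  have hpair : ∀ m : Fin n →₀ ℕ,
      IsWeightedHomogeneous (wt D.α) (monomial m (1 : ℂ)) (γ - wt D.α i1) →
      ((X i1 * monomial m (1 : ℂ), monomial m (1 : ℂ)) :
        MvPolynomial (Fin n) ℂ × MvPolynomial (Fin n) ℂ) ∈ M := by
    intro m hm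
    refine ⟨?_, hm, ?_⟩
    · have h1 := (isWeightedHomogeneous_X ℂ (wt D.α) i1).mul hm
      have h2 := asc (wt D.α i1) γ
      show IsWeightedHomogeneous (wt D.α) (X i1 * monomial m (1 : ℂ)) γ
      rw [← h2]
      exact h1
    · show X i1 * monomial m (1 : ℂ) - X i1 * monomial m (1 : ℂ) ∈ P
      rw [sub_self]
      exact P.zero_mem
  let φ : Option ι → (MvPolynomial (Fin n) ℂ × MvPolynomial (Fin n) ℂ) →ₗ[ℂ] ℂ := fun o =>
    match o with
    | none => (aeval w : MvPolynomial (Fin n) ℂ →ₐ[ℂ] ℂ).toLinearMap ∘ₗ LinearMap.snd ℂ _ _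
    | some i => (aeval (z i) : MvPolynomial (Fin n) ℂ →ₐ[ℂ] ℂ).toLinearMap ∘ₗ LinearMap.fst ℂ _ _
  have hφ1 : ∀ x, φ none x = eval w x.2 := by
    intro x
    show aeval w x.2 = _
    rw [aeval_eq_eval]
  have hφ2 : ∀ i x, φ (some i) x = eval (z i) x.1 := by
    intro i x
    show aeval (z i) x.1 = _
    rw [aeval_eq_eval]
  obtain ⟨x, hx, h⟩ := exists_avoid_fun M (insert none (s.image some)) φ (by
    intro o ho
    rcases Finset.mem_insert.1 ho with rfl | ho
    · obtain ⟨m, hm, hmw⟩ := hmono w hw0 hwZ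
      refine ⟨_, hpair m hm, ?_⟩
      rw [hφ1, eval_mono]
      exact hmw
    · obtain ⟨i, hi, rfl⟩ := Finset.mem_image.1 ho
      obtain ⟨h1, h2⟩ := hz i hi
      rcases h2 with ⟨j, hj⟩ | ⟨h2, h3⟩
      · obtain ⟨a, ha, hf⟩ := hpow j
        refine ⟨(D.f j ^ a, 0), ⟨hf, isWeightedHomogeneous_zero _ _ _, ?_⟩, ?_⟩
        · show D.f j ^ a - X i1 * 0 ∈ P
          rw [mul_zero, _root_.sub_zero]
          exact Ideal.pow_mem_of_mem P (hJ j) a ha
        · rw [hφ2, map_pow]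
          exact pow_ne_zero _ hj
      · obtain ⟨m, hm, hmw⟩ := hmono (z i) h1 h2
        refine ⟨_, hpair m hm, ?_⟩
        rw [hφ2, map_mul, eval_X, eval_mono]
        exact mul_ne_zero h3 hmw)
  refine ⟨b, x.1, x.2, hb1, hx.1, hx.2.1, hx.2.2, ?_, fun i hi => ?_⟩
  · rw [← hφ1]
    exact h none (Finset.mem_insert_self _ _)
  · rw [← hφ2]
    exact h (some i) (Finset.mem_insert_of_mem (Finset.mem_image_of_mem _ hi))

end Pool.Agent.W5h70.Fuj
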