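import Pool.Agent.W5h70.Fuj.RegFin

/-!
# Homogeneous primes, and the sections of a curve by hypersurfaces
-/

set_option autoImplicit false

namespace Pool.Agent.W5h70.Fuj

open MvPolynomial Module Pool.Agent.TH144.MB

variable {σ : Type} {K : Type} [Field K]

section
attribute [local instance] MvPolynomial.gradedAlgebra

theorem hom_iff (I : Ideal (MvPolynomial σ K)) :
    Hom I ↔ I.IsHomogeneous (homogeneousSubmodule σ K) := by
  constructor
  · intro h n p hp
    have h1 := h p hp n
    rw [← decomposition.decompose'_apply] at h1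
    exact h1
  · intro h p hp n
    exact homogeneousComponent_mem_of_mem h hp n

theorem hom_minimal {I q : Ideal (MvPolynomial σ K)} (hI : Hom I) (hq : q ∈ I.minimalPrimes) :
    Hom q := by
  rw [hom_iff] at hI ⊢
  have h1 : q.IsPrime := hq.1.1
  have h2 := h1.homogeneousCore (𝒜 := homogeneousSubmodule σ K)
  have h3 : I ≤ (q.homogeneousCore (homogeneousSubmodule σ K)).toIdeal := by
    rw [← hI.toIdeal_homogeneousCore_eq_self]
    exact Ideal.homogeneousCore_mono _ hq.1.2
  have h4 := hq.2 ⟨h2, h3⟩ (Ideal.toIdeal_homogeneousCore_le _ _)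
  have h5 : q = (q.homogeneousCore (homogeneousSubmodule σ K)).toIdeal :=
    le_antisymm h4 (Ideal.toIdeal_homogeneousCore_le _ _)
  rw [h5]
  exact (q.homogeneousCore (homogeneousSubmodule σ K)).isHomogeneous

end

theorem zero_minimal {I : Ideal (MvPolynomial σ K)} {v : σ → K} (hv : ∀ p ∈ I, eval v p = 0) :
    ∃ q ∈ I.minimalPrimes, ∀ p ∈ q, eval v p = 0 := by
  have h1 : (RingHom.ker (eval v : MvPolynomial σ K →+* K)).IsPrime := RingHom.ker_isPrime _
  obtain ⟨q, hq, hq2⟩ := Ideal.exists_minimalPrimes_le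
    (J := RingHom.ker (eval v : MvPolynomial σ K →+* K)) (I := I)
    (fun p hp => RingHom.mem_ker.2 (hv p hp))
  exact ⟨q, hq, fun p hp => RingHom.mem_ker.1 (hq2 hp)⟩

theorem FinZ.union {P Q : (σ → K) → Prop} (hP : FinZ P) (hQ : FinZ Q) :
    FinZ fun v => P v ∨ Q v := by
  classical
  obtain ⟨Z, hZ⟩ := hP
  obtain ⟨Y, hY⟩ := hQ
  refine ⟨Z ∪ Y, fun v hv => ?_⟩
  rcases hv with h | h
  · obtain ⟨z, hz, c, hc⟩ := hZ v h
    exact ⟨z, Finset.mem_union_left _ hz, c, hc⟩
  · obtain ⟨z, hz, c, hc⟩ := hY v h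
    exact ⟨z, Finset.mem_union_right _ hz, c, hc⟩

theorem FinZ.biUnion {ι : Type} (s : Finset ι) {P : ι → (σ → K) → Prop}
    (hP : ∀ i ∈ s, FinZ (P i)) : FinZ fun v => ∃ i ∈ s, P i v := by
  classical
  induction s using Finset.induction_on with
  | empty => exact ⟨∅, fun v ⟨i, hi, _⟩ => absurd hi (Finset.notMem_empty i)⟩
  | insert i s _ ih =>
    obtain ⟨Z, hZ⟩ := (hP i (Finset.mem_insert_self _ _)).union
      (ih fun j hj => hP j (Finset.mem_insert_of_mem hj))
    refine ⟨Z, fun v ⟨j, hj, hv⟩ => hZ v ?_⟩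
    rcases Finset.mem_insert.1 hj with rfl | hj
    · exact Or.inl hv
    · exact Or.inr ⟨j, hj, hv⟩

theorem FinZ.mono {P Q : (σ → K) → Prop} (hQ : FinZ Q) (h : ∀ v, P v → Q v) : FinZ P := by
  obtain ⟨Z, hZ⟩ := hQ
  exact ⟨Z, fun v hv => hZ v (h v hv)⟩

theorem finite_minimal [Finite σ] (I : Ideal (MvPolynomial σ K)) :
    ∃ s : Finset (Ideal (MvPolynomial σ K)), ∀ q, q ∈ s ↔ q ∈ I.minimalPrimes := by
  classical
  have h := Ideal.finite_minimalPrimes_of_isNoetherianRing (MvPolynomial σ K) I
  exact ⟨h.toFinset, fun q => by simp⟩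

/-- an infinite cone contains an irreducible one -/
theorem exists_prime [Finite σ] {I : Ideal (MvPolynomial σ K)} (hI : Hom I)
    (hinf : ¬ FinZ fun v : σ → K => ∀ p ∈ I, eval v p = 0) :
    ∃ P : Ideal (MvPolynomial σ K), P.IsPrime ∧ Hom P ∧ I ≤ P ∧
      ¬ FinZ fun v : σ → K => ∀ p ∈ P, eval v p = 0 := by
  classical
  by_contra hcon
  push Not at hcon
  obtain ⟨s, hs⟩ := finite_minimal I
  apply hinf
  refine (FinZ.biUnion s (P := fun q v => ∀ p ∈ q, eval v p = 0) fun q hq => ?_).mono
    fun v hv => ?_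
  · have hq' := (hs q).1 hq
    exact hcon q hq'.1.1 (hom_minimal hI hq') hq'.1.2
  · obtain ⟨q, hq, hqv⟩ := zero_minimal hv
    exact ⟨q, (hs q).2 hq, hqv⟩

/-- a single small value of the Hilbert function gives finitely many zeros -/
theorem finite_of_single [Fintype σ] [Infinite K] {I : Ideal (MvPolynomial σ K)} {B : ℕ}
    (hB : finrank K (W I B) ≤ B) : FinZ fun v : σ → K => ∀ p ∈ I, eval v p = 0 := by
  classical
  by_contra hcon
  unfold FinZ at hcon
  push Not at hcon
  obtain ⟨v, hv, hr⟩ := exists_seq_of_forall_finset_exists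
    (fun v : σ → K => v ≠ 0 ∧ ∀ p ∈ I, eval v p = 0)
    (fun x y => ∃ a : σ → K, eval x (lin a) ≠ 0 ∧ eval y (lin a) = 0) (by
      intro s hs
      obtain ⟨y, hy1, hy2⟩ := hcon (insert 0 s)
      refine ⟨y, ⟨?_, hy1⟩, fun x hx => exists_sep (hs x hx).1
        (hy2 x (Finset.mem_insert_of_mem hx))⟩
      rintro rfl
      exact hy2 0 (Finset.mem_insert_self _ _) 0 (by simp))
  choose! a ha1 ha2 using hr
  obtain ⟨b, hb⟩ := exists_avoid ((Finset.range (B + 1)).image v) (by
    intro w hw
    obtain ⟨i, _, rfl⟩ := Finset.mem_image.1 hw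
    exact (hv i).1)
  have hb' : ∀ i, i < B + 1 → eval (v i) (lin b) ≠ 0 := fun i hi =>
    hb _ (Finset.mem_image_of_mem _ (Finset.mem_range.2 hi))
  -- a triangular system of forms
  let F : ℕ → MvPolynomial σ K := fun i => (∏ k ∈ Finset.Ioc i B, lin (a i k)) * lin b ^ i
  have hF : ∀ i, i ≤ B → (F i).IsHomogeneous B := by
    intro i hi
    have h1 : (∏ k ∈ Finset.Ioc i B, lin (a i k)).IsHomogeneous (∑ _k ∈ Finset.Ioc i B, 1) :=
      IsHomogeneous.prod _ _ _ fun k _ => lin_hom _
    have h2 : (lin b ^ i).IsHomogeneous (1 * i) := (lin_hom b).pow i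
    have h3 := h1.mul h2
    rw [Finset.sum_const, Nat.card_Ioc, smul_eq_mul, mul_one, one_mul, Nat.sub_add_cancel hi] at h3
    exact h3
  have hF0 : ∀ i k, i < k → k ≤ B → eval (v k) (F i) = 0 := by
    intro i k hik hk
    simp only [F, map_mul, map_prod]
    rw [Finset.prod_eq_zero (Finset.mem_Ioc.2 ⟨hik, hk⟩) (ha2 i k hik), zero_mul]
  have hF1 : ∀ i, i ≤ B → eval (v i) (F i) ≠ 0 := by
    intro i hi
    simp only [F, map_mul, map_prod, map_pow]
    refine mul_ne_zero ?_ (pow_ne_zero _ (hb' i (by omega)))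
    rw [Finset.prod_ne_zero_iff]
    intro k hk
    exact ha1 i k (Finset.mem_Ioc.1 hk).1
  have hli : LinearIndependent K (fun i : Fin (B + 1) =>
      (⟨Ideal.Quotient.mk I (F i), mem_W.2 ⟨_, hF i (by omega), rfl⟩⟩ : W I B)) := by
    rw [Fintype.linearIndependent_iff]
    intro g hg
    have h1 : ∑ i : Fin (B + 1), C (g i) * F i ∈ I := by
      rw [← Ideal.Quotient.eq_zero_iff_mem, map_sum]
      have h2 := congrArg (Submodule.subtype (W I B)) hg
      rw [map_sum, map_zero] at h2
      rw [← h2]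
      refine Finset.sum_congr rfl fun i _ => ?_
      rw [map_smul, Submodule.subtype_apply, ← smul_eq_C_mul]
      exact map_smul (Ideal.Quotient.mkₐ K I) (g i) (F i)
    have h3 : ∀ k : Fin (B + 1), ∑ i : Fin (B + 1), g i * eval (v k) (F i) = 0 := by
      intro k
      have h4 := (hv k).2 _ h1
      rw [map_sum] at h4
      rw [← h4]
      refine Finset.sum_congr rfl fun i _ => ?_
      rw [(eval (v k)).map_mul (C (g i)) (F i), eval_C]
    have h5 : ∀ (m : ℕ) (k : Fin (B + 1)), B - k = m → g k = 0 := by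
      intro m
      induction m using Nat.strong_induction_on with
      | _ m ih =>
        intro k hk
        have h6 := h3 k
        rw [Finset.sum_eq_single k] at h6
        · rcases mul_eq_zero.1 h6 with h | h
          · exact h
          · exact absurd h (hF1 k (by omega))
        · intro i _ hik
          rcases lt_or_gt_of_ne (fun h : (i : ℕ) = k => hik (Fin.ext h)) with h | h
          · rw [hF0 i k h (by omega), mul_zero]
          · rw [ih (B - i) (by have := i.2; omega) i rfl, zero_mul]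
        · intro h
          exact absurd (Finset.mem_univ k) h
    exact fun k => h5 _ k rfl
  have h6 := hli.fintype_card_le_finrank
  rw [Fintype.card_fin] at h6
  omega

/-- linear growth of the Hilbert function of a regular sequence of length `n - 2` -/
theorem growth_of_reg [Fintype σ] (gs : List (MvPolynomial σ K × ℕ))
    (hgs : ∀ x ∈ gs, x.1.IsHomogeneous x.2) (hlen : gs.length + 2 = Fintype.card σ)
    (hreg : Reg ⊥ (gs.map Prod.fst)) :
    ∃ C, ∀ t, finrank K (W (TH144.MB.ext ⊥ (gs.map Prod.fst) : Ideal (MvPolynomial σ K)) t)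
      ≤ C * (t + 1) := by
  classical
  set w : σ → ℤ := fun _ => 1 with hw
  set I : Ideal (MvPolynomial σ K) := TH144.MB.ext ⊥ (gs.map Prod.fst) with hI
  have h1 := (hf_ext (fd_one (K := K) (σ := σ)) (gs.map fun x => (x.1, (x.2 : ℤ))) ⊥
    (whom_bot w) (by
      intro x hx
      obtain ⟨y, hy, rfl⟩ := List.mem_map.1 hx
      exact wh_one.2 (hgs y hy)) (by
      rw [List.map_map]
      exact hreg)).1
  rw [List.map_map, List.map_map] at h1
  have h2 : List.map (Prod.fst ∘ fun x : MvPolynomial σ K × ℕ => (x.1, (x.2 : ℤ))) gs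
      = gs.map Prod.fst := rfl
  have h3 : List.map (Prod.snd ∘ fun x : MvPolynomial σ K × ℕ => (x.1, (x.2 : ℤ))) gs
      = (gs.map Prod.snd).map fun d : ℕ => (d : ℤ) := by rw [List.map_map]; rfl
  rw [h2, h3, ← hI] at h1
  set h : ℤ → ℤ := hf w I with hh
  set h0 : ℤ → ℤ := hf w (⊥ : Ideal (MvPolynomial σ K)) with hh0
  obtain ⟨T', hT'⟩ := van (gs.map Prod.snd) (E 1 (E 1 h0)) 0 (by
    intro μ hμ
    have h4 := EL_X (fd_one (K := K) (σ := σ))
    have h5 : (Finset.univ : Finset σ).toList.map w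
        = List.replicate (gs.map Prod.snd).length (1 : ℤ) ++ [1, 1] := by
      rw [List.eq_replicate_of_mem (a := (1 : ℤ)) (l := (Finset.univ : Finset σ).toList.map w)
        (fun b hb => by
          obtain ⟨i, _, rfl⟩ := List.mem_map.1 hb
          rfl)]
      rw [List.length_map, List.length_map, Finset.length_toList, Finset.card_univ, ← hlen,
        List.replicate_add]
      rfl
    have h6 : EL (List.replicate (gs.map Prod.snd).length (1 : ℤ)) (E 1 (E 1 h0))
        = EL ((Finset.univ : Finset σ).toList.map w) h0 := by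
      rw [h5, EL_append, EL_E, EL_E]
      rfl
    rw [h6, h4]
    exact hf_X w hμ.ne')
  have h7 : ∀ μ, T' < μ → E 1 h μ = E 1 h (μ - 1) := by
    intro μ hμ
    have h8 := hT' μ hμ
    rw [EL_E, EL_E, ← h1] at h8
    exact sub_eq_zero.1 h8
  -- the first difference is bounded
  have h11 : ∀ s : ℕ, h (s : ℤ) = (finrank K (W I s) : ℤ) := by
    intro s
    rw [hh, hf, hw, WW_eq]
  set N : ℕ := T'.toNat + 2 with hN
  set A : ℕ := ∑ s ∈ Finset.range (N + 1), finrank K (W I s) with hA
  have h8 : ∀ s : ℕ, E 1 h ((s : ℤ)) ≤ A := by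
    intro s
    induction s using Nat.strong_induction_on with
    | _ s ih =>
      rcases lt_or_ge s (N + 1) with hs | hs
      · have h9 : E 1 h (s : ℤ) ≤ h (s : ℤ) := by
          have h10 : 0 ≤ h ((s : ℤ) - 1) := hf_nonneg _ _ _
          simp only [E]
          linarith
        refine h9.trans ?_
        rw [h11]
        exact_mod_cast Finset.single_le_sum (f := fun s => finrank K (W I s))
          (fun _ _ => Nat.zero_le _) (Finset.mem_range.2 hs)
      · have h9 := h7 (s : ℤ) (by omega)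
        have h10 : ((s : ℤ) - 1) = ((s - 1 : ℕ) : ℤ) := by omega
        rw [h9, h10]
        exact ih (s - 1) (by omega)
  refine ⟨A, fun t => ?_⟩
  have h9 : h (t : ℤ) ≤ A * (t + 1) := by
    induction t with
    | zero =>
      have h10 := h11 0
      rw [h10]
      have : finrank K (W I 0) ≤ A := Finset.single_le_sum (f := fun s => finrank K (W I s))
        (fun _ _ => Nat.zero_le _) (Finset.mem_range.2 (by omega))
      push_cast
      have h12 : (finrank K (W I 0) : ℤ) ≤ A := by exact_mod_cast this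
      linarith
    | succ t ih =>
      have h10 := h8 (t + 1)
      simp only [E] at h10
      push_cast at h10 ⊢
      rw [add_sub_cancel_right] at h10
      linarith
  rw [h11] at h9
  exact_mod_cast h9

end Pool.Agent.W5h70.Fuj
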