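import Pool.Agent.W5h70.Fuj.Occ2

/-!
# Reduction to pairwise different characters, in the three cases
-/

set_option autoImplicit false

namespace Pool.Agent.W5h70.Fuj

open MvPolynomial Module Pool.Agent.TH144.MB Pool.Agent.W5h40.Fuj Pool.Agent.W5h40.Fuj.Dat

variable {G : Type} [Group G] [Fintype G]

theorem reduce2 {n c : ℕ} (D : Dat G n c) {A : Type} [CommRing A] [Algebra ℂ A] {e : ℕ}
    {χ : G →* ℂˣ} (he : D.ρ + 1 ≤ e)
    {y : Fin n → ℂ} (hy0 : y ≠ 0) (hy : D.Z y) (halt : Alt D e y) {s : Fin n → Aˣ}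
    (hs : ∀ i k, y i ≠ 0 → y k ≠ 0 → D.α i = D.α k → s i = s k)
    (hys : ∀ j, aeval (pt y s) (D.f j) = 0)
    (hsep : ∀ F, Typ D.α χ e F → eval y F = 0 → aeval (pt y s) F = 0)
    (Q : Aˣ → Prop) (hQ : ∀ i, Q (s i))
    (base : ∀ {n' : ℕ} (D' : Dat G n' c) (s' : Fin n' → Aˣ), (∀ l, Q (s' l)) →
      ∀ x : Fin n' → ℂ, x ≠ 0 → D'.Z x → (∀ j, aeval (pt x s') (D'.f j) = 0) →
      (∃ (μ : Aˣ) (g : G), ∀ i, x i ≠ 0 →
        s' i = μ * Units.map (algebraMap ℂ A).toMonoidHom (D'.α i g)) ∨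
      ∃ T, ∀ r, T ≤ r → ∀ φ : G →* ℂˣ, ∃ F, Typ D'.α φ r F ∧ eval x F = 0 ∧
        aeval (pt x s') F ≠ 0) :
    ∃ (μ : Aˣ) (g : G), ∀ i, y i ≠ 0 →
      s i = μ * Units.map (algebraMap ℂ A).toMonoidHom (D.α i g) := by
  classical
  obtain ⟨i0, hi0⟩ : ∃ i, y i ≠ 0 := by
    by_contra hc
    push Not at hc
    exact hy0 (funext hc)
  set Λ : Finset (G →* ℂˣ) := (Finset.univ.filter fun i => y i ≠ 0).image D.α with hΛ
  have hmem : ∀ i, y i ≠ 0 → D.α i ∈ Λ := fun i hi =>
    Finset.mem_image_of_mem _ (by simp [hi])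
  let E : Λ ≃ Fin Λ.card := Λ.equivFin
  let α' : Fin Λ.card → G →* ℂˣ := fun l => (E.symm l).1
  have hα' : Function.Injective α' := fun l l' h => E.symm.injective (Subtype.ext h)
  let cls : Fin n → Fin Λ.card := fun i =>
    if h : y i ≠ 0 then E ⟨D.α i, hmem i h⟩ else E ⟨D.α i0, hmem i0 hi0⟩
  have hcls : ∀ i, y i ≠ 0 → α' (cls i) = D.α i := by
    intro i hi
    simp only [cls, α', dif_pos hi, Equiv.symm_apply_apply]
  have hrep' : ∀ l, ∃ i, y i ≠ 0 ∧ D.α i = α' l := by
    intro l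
    obtain ⟨i, hi, hil⟩ := Finset.mem_image.1 (E.symm l).2
    exact ⟨i, by simpa using hi, hil⟩
  choose rep hrep1 hrep2 using hrep'
  have hrep : ∀ l, y (rep l) ≠ 0 ∧ cls (rep l) = l := by
    intro l
    refine ⟨hrep1 l, hα' ?_⟩
    rw [hcls _ (hrep1 l), hrep2]
  set D' := D.restrict y cls α' hcls rep hrep with hD'
  set s' : Fin Λ.card → Aˣ := fun l => s (rep l) with hs'
  have hscls : ∀ i, y i ≠ 0 → s' (cls i) = s i := by
    intro i hi
    refine hs _ _ (hrep1 _) hi ?_
    rw [hrep2, hcls i hi]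
  have hpt : (fun i => algebraMap ℂ A (y i) * pt (fun _ => (1 : ℂ)) s' (cls i)) = pt y s := by
    funext i
    by_cases hi : y i = 0
    · simp only [pt, hi, map_zero, zero_mul]
    · simp only [pt, map_one, one_mul, hscls i hi]
  have hmap : ∀ q : Fin n →₀ ℕ, mon q y ≠ 0 →
      (q.mapDomain cls).degree = q.degree ∧ chr D'.α (q.mapDomain cls) = chr D.α q := by
    intro q hq
    have hq' : ∀ i, q i ≠ 0 → y i ≠ 0 := by
      intro i hi hyi
      apply hq
      unfold mon
      exact Finset.prod_eq_zero (Finset.mem_univ i) (by rw [hyi, zero_pow hi])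
    refine ⟨Finsupp.degree_mapDomain cls q, ?_⟩
    ext g
    rw [chr_apply, chr_apply]
    congr 1
    have h1 : ∀ l : Fin Λ.card, (q.mapDomain cls) l = ∑ i, if cls i = l then q i else 0 := by
      intro l
      rw [Finsupp.mapDomain, Finsupp.sum_fintype _ _ (fun i => Finsupp.single_zero _),
        Finsupp.finset_sum_apply]
      refine Finset.sum_congr rfl fun i _ => ?_
      rw [Finsupp.single_apply]
    simp only [h1]
    have h2 : ∀ l : Fin Λ.card, D'.α l g ^ (∑ i, if cls i = l then q i else 0)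
        = ∏ i, if cls i = l then D'.α l g ^ q i else 1 := by
      intro l
      rw [← Finset.prod_pow_eq_pow_sum]
      refine Finset.prod_congr rfl fun i _ => ?_
      split_ifs
      · rfl
      · rw [pow_zero]
    simp only [h2]
    rw [Finset.prod_comm]
    refine Finset.prod_congr rfl fun i _ => ?_
    rw [Finset.prod_ite_eq Finset.univ (cls i)]
    simp only [Finset.mem_univ, if_true]
    by_cases hi : q i = 0
    · rw [hi, pow_zero, pow_zero]
    · rw [show D'.α (cls i) = D.α i from hcls i (hq' i hi)]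
  have H : ∀ m m' : Fin Λ.card →₀ ℕ, m.degree = e → m'.degree = e → chr D'.α m = χ →
      chr D'.α m' = χ → val s' m = val s' m' := by
    intro m m' hm hm' hmc hmc'
    set a := mon m (fun l => y (rep l)) with ha
    set b := mon m' (fun l => y (rep l)) with hb
    have hne : ∀ m : Fin Λ.card →₀ ℕ, mon m (fun l => y (rep l)) ≠ 0 := fun m =>
      Finset.prod_ne_zero_iff.2 fun l _ => pow_ne_zero _ (hrep1 l)
    have hT : ∀ m : Fin Λ.card →₀ ℕ, m.degree = e → chr D'.α m = χ →
        Typ D.α χ e (rename rep (monomial m 1)) := by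
      intro m hm hmc
      have h1 := typ_rename (α := D.α) (α' := α') (rep := rep) hrep2 (typ_monomial hmc)
      rwa [hm] at h1
    have h1 := hsep (C b * rename rep (monomial m 1) - C a * rename rep (monomial m' 1))
      (((hT m hm hmc).C_mul _).sub ((hT m' hm' hmc').C_mul _)) (by
        rw [map_sub, map_mul, map_mul, eval_C, eval_C, eval_rename, eval_rename, eval_mono,
          eval_mono]
        show b * a - a * b = 0
        ring)
    rw [map_sub, map_mul, map_mul, eval_rename', eval_rename', aeval_C, aeval_C] at h1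
    have h2 : (fun l => pt y s (rep l)) = pt (fun l => y (rep l)) s' := by
      funext l
      rfl
    rw [h2, aeval_pt_monomial, aeval_pt_monomial, one_mul, one_mul, ← ha, ← hb] at h1
    have h3 : algebraMap ℂ A (a * b) * ((val s' m : A) - (val s' m' : A)) = 0 := by
      rw [map_mul]
      linear_combination h1
    have h4 : IsUnit (algebraMap ℂ A (a * b)) :=
      (IsUnit.mk0 (a * b) (mul_ne_zero (hne m) (hne m'))).map (algebraMap ℂ A)
    exact Units.ext (sub_eq_zero.1 ((h4.mul_right_eq_zero).1 h3))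
  have hy1 : (fun _ : Fin Λ.card => (1 : ℂ)) ≠ 0 := by
    intro h
    have h1 := congrFun h (cls i0)
    simp at h1
  have hZ1 : D'.Z (fun _ => 1) := by
    intro j
    show eval (fun _ => (1 : ℂ)) (sub y cls (D.f j)) = 0
    rw [eval_sub]
    simpa using hy j
  have hZ2 : ∀ j, aeval (pt (fun _ => (1 : ℂ)) s') (D'.f j) = 0 := by
    intro j
    show aeval (pt (fun _ => (1 : ℂ)) s') (sub y cls (D.f j)) = 0
    rw [aeval_sub, hpt]
    exact hys j
  have hρ : D'.ρ = D.ρ := rfl
  have key : ∃ (μ : Aˣ) (g : G), ∀ i, s' i = μ * Units.map (algebraMap ℂ A).toMonoidHom (D'.α i g) := by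
    have hb := base D' s' (fun l => hQ _) (fun _ => 1) hy1 hZ1 hZ2
    rcases halt with h1 | ⟨t0, h1, h2⟩ | h1
    · refine core1 D' (t := s') (e := e) (χ := χ) he (fun j => ?_) H hy1 hZ1
        (base D' s' fun l => hQ _)
      obtain ⟨q, hq, hqc, hqy⟩ := h1 j (χ * (D.ψ j)⁻¹)
      obtain ⟨h2, h3⟩ := hmap q hqy
      exact ⟨q.mapDomain cls, by rw [h2]; exact hq, by rw [h3, hqc]; exact hinv _ _⟩
    · obtain ⟨μ, g, h⟩ := D'.core_half (t := s') (e := e) (t0 := t0) (χ := χ) h1 (fun r hr ψ => by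
        obtain ⟨q, hq, hqc, hqy⟩ := h2 r hr ψ
        obtain ⟨h3, h4⟩ := hmap q hqy
        exact ⟨q.mapDomain cls, by rw [h3, hq], by rw [h4, hqc]⟩) H (y := fun _ => 1) hb
      exact ⟨μ, g, fun i => h i one_ne_zero⟩
    · obtain ⟨μ, g, h⟩ := core_fin D' (t := s') (e := e) (χ := χ) (by omega) H hy1 hZ1 hZ2 (by
        obtain ⟨Z, hZ⟩ := h1
        let P : (Fin n → ℂ) → (Fin Λ.card → ℂ) → Prop := fun z v' =>
          ∃ b : ℂ, (fun i => y i * v' (cls i)) = b • z ∧ b ≠ 0
        refine ⟨insert 0 (Z.image fun z => if h : ∃ v', P z v' then h.choose else 0),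
          fun v hv => ?_⟩
        by_cases hv0 : v = 0
        · exact ⟨0, Finset.mem_insert_self _ _, 1, by rw [hv0, smul_zero]⟩
        obtain ⟨z, hz, b, hb⟩ := hZ (fun i => y i * v (cls i)) ⟨fun j => by
          have := hv.1 j
          rw [← this]
          exact (eval_sub y cls v (D.f j)).symm, fun i hi => by simp only [hi, zero_mul]⟩
        have hb0 : b ≠ 0 := by
          rintro rfl
          rw [zero_smul] at hb
          apply hv0
          funext l
          have h2 := congrFun hb (rep l)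
          simp only [(hrep l).2, Pi.zero_apply] at h2
          rcases mul_eq_zero.1 h2 with h3 | h3
          · exact absurd h3 (hrep1 l)
          · exact h3
        have hex : ∃ v', P z v' := ⟨v, b, hb, hb0⟩
        refine ⟨hex.choose, Finset.mem_insert_of_mem (Finset.mem_image.2 ⟨z, hz, dif_pos hex⟩), ?_⟩
        obtain ⟨b', hb', hb0'⟩ := hex.choose_spec
        refine ⟨b / b', ?_⟩
        funext l
        have h2 := congrFun hb (rep l)
        have h3 := congrFun hb' (rep l)
        simp only [(hrep l).2, Pi.smul_apply, smul_eq_mul] at h2 h3 ⊢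
        refine mul_left_cancel₀ (hrep1 l) ?_
        rw [h2, mul_left_comm, h3]
        field_simp) hb
      exact ⟨μ, g, fun i => h i one_ne_zero⟩
  obtain ⟨μ, g, h⟩ := key
  refine ⟨μ, g, fun i hi => ?_⟩
  rw [← hscls i hi, h, ← hcls i hi]
  rfl

end Pool.Agent.W5h70.Fuj
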