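import Pool.Agent.W5h70.Fuj.Pos

/-!
# Characters on curves contained in a complete intersection curve

`resid`: let `V(P)` be an irreducible curve in `V` and in the coordinate subspace `S`, which is
contained in a curve `W` cut out in the coordinate subspace by `|S| - 2` semi-invariant forms `gs`
(on which `G` need not act freely). Then every character occurs among the monomials of degree `t` in
the variables of `S` for all `t ≥ ∑ (deg g - 1)`.
-/

set_option autoImplicit false

namespace Pool.Agent.W5h70.Fuj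

open MvPolynomial Module Pool.Agent.TH144.MB Pool.Agent.W5h40.Fuj

variable {G : Type} [Group G] {n c : ℕ} [Fintype G]

theorem resid (D : Dat G n c) (S : Finset (Fin n))
    (gs : List (MvPolynomial (Fin n) ℂ × ℕ × (G →* ℂˣ)))
    (hgs : ∀ x ∈ gs, Typ D.α x.2.2 x.2.1 x.1 ∧ 0 < x.2.1) (hlen : gs.length + 2 = S.card)
    (hreg : Reg ⊥ (Sᶜ.toList.map (X : Fin n → MvPolynomial (Fin n) ℂ) ++ gs.map Prod.fst))
    {P : Ideal (MvPolynomial (Fin n) ℂ)} (hP : P.IsPrime) (hH : Hom P) (hJ : ∀ j, D.f j ∈ P)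
    (hX : ∀ i ∉ S, X i ∈ P) (hg : ∀ x ∈ gs, x.1 ∈ P)
    (hinf : ¬ FinZ fun v : Fin n → ℂ => ∀ f ∈ P, eval v f = 0)
    {i1 : Fin n} (hfin : FinOn D (S.erase i1))
    {t : ℕ} (ht : (gs.map fun x => x.2.1 - 1).sum ≤ t) (ψ : G →* ℂˣ) :
    ∃ m : Fin n →₀ ℕ, m.degree = t ∧ chr D.α m = ψ ∧ ∀ i ∉ S, m i = 0 := by
  classical
  by_contra hcon
  push Not at hcon
  set A := Additive (G →* ℂˣ) with hA
  let w : Fin n → ℤ × A := wt D.α
  have hFD : FD ℂ w := fd_wt D.α
  let fsl : List (MvPolynomial (Fin n) ℂ × ℕ) :=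
    (Sᶜ.toList.map fun i => (X i, 1)) ++ (gs.map fun x => (x.1, x.2.1))
  let Ws : List (MvPolynomial (Fin n) ℂ × (ℤ × A)) :=
    (Sᶜ.toList.map fun i => (X i, w i)) ++
      (gs.map fun x => (x.1, ((x.2.1 : ℤ), Additive.ofMul x.2.2)))
  have hfst : fsl.map Prod.fst = Ws.map Prod.fst := by
    simp only [fsl, Ws, List.map_append, List.map_map]
    rfl
  have hfst2 : Ws.map Prod.fst
      = Sᶜ.toList.map (X : Fin n → MvPolynomial (Fin n) ℂ) ++ gs.map Prod.fst := by
    simp only [Ws, List.map_append, List.map_map]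
    rfl
  have hSc : Sᶜ.toList.length + S.card = n := by
    rw [Finset.length_toList, Finset.card_compl, Fintype.card_fin]
    have := Finset.card_le_univ S
    rw [Fintype.card_fin] at this
    omega
  have hWlen : Ws.length + 2 = n := by
    simp only [Ws, List.length_append, List.length_map]
    omega
  have hflen : fsl.length + 2 = n := by
    simp only [fsl, List.length_append, List.length_map]
    omega
  have hWw : ∀ x ∈ Ws, IsWeightedHomogeneous w x.1 x.2 := by
    intro x hx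
    rcases List.mem_append.1 hx with hx | hx
    · obtain ⟨i, _, rfl⟩ := List.mem_map.1 hx
      exact isWeightedHomogeneous_X ℂ w i
    · obtain ⟨y, hy, rfl⟩ := List.mem_map.1 hx
      exact wh_of_typ (hgs y hy).1
  have hfd : ∀ x ∈ fsl, x.1.IsHomogeneous x.2 ∧ 0 < x.2 := by
    intro x hx
    rcases List.mem_append.1 hx with hx | hx
    · obtain ⟨i, _, rfl⟩ := List.mem_map.1 hx
      exact ⟨isHomogeneous_X ℂ i, one_pos⟩
    · obtain ⟨y, hy, rfl⟩ := List.mem_map.1 hx
      exact ⟨(hgs y hy).1.1, (hgs y hy).2⟩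
  rw [← hfst2] at hreg
  set I : Ideal (MvPolynomial (Fin n) ℂ) := TH144.MB.ext ⊥ (Ws.map Prod.fst) with hI
  have hIX : ∀ i ∉ S, X i ∈ I := by
    intro i hi
    rw [hI]
    refine mem_ext _ _ _ ?_
    rw [hfst2]
    exact List.mem_append_left _ (List.mem_map.2 ⟨i, by simpa using hi, rfl⟩)
  have hIP : I ≤ P := by
    refine ext_le _ _ _ bot_le fun f hf => ?_
    rw [hfst2] at hf
    rcases List.mem_append.1 hf with hf | hf
    · obtain ⟨i, hi, rfl⟩ := List.mem_map.1 hf
      exact hX i (by simpa using hi)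
    · obtain ⟨x, hx, rfl⟩ := List.mem_map.1 hf
      exact hg x hx
  have hIhom : Hom I := by
    rw [hI, ← hfst]
    refine hom_ext _ _ hom_bot fun f hf => ?_
    obtain ⟨x, hx, rfl⟩ := List.mem_map.1 hf
    exact ⟨_, (hfd x hx).1⟩
  obtain ⟨C0, hC0⟩ := growth_of_reg fsl (fun x hx => (hfd x hx).1)
    (by rw [Fintype.card_fin]; exact hflen) (by rw [hfst]; exact hreg)
  rw [hfst, ← hI] at hC0
  -- zeros supported in `S` with vanishing coordinate `i1`
  have hfinS : ∀ Q : Ideal (MvPolynomial (Fin n) ℂ), (∀ i ∉ S, X i ∈ Q) →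
      (¬ FinZ fun v : Fin n → ℂ => ∀ f ∈ Q, eval v f = 0) →
      ∃ z : Fin n → ℂ, (∀ f ∈ Q, eval z f = 0) ∧ z ≠ 0 ∧
        ((∃ j, eval z (D.f j) ≠ 0) ∨ (D.Z z ∧ z i1 ≠ 0)) := by
    intro Q hQX hQ
    by_contra hcon2
    push Not at hcon2
    apply hQ
    obtain ⟨Z, hZ⟩ := hfin
    refine ⟨insert 0 Z, fun v hv => ?_⟩
    by_cases hv0 : v = 0
    · exact ⟨0, Finset.mem_insert_self _ _, 0, by rw [hv0, smul_zero]⟩
    · obtain ⟨h1, h2⟩ := hcon2 v hv hv0
      obtain ⟨z, hz, a, hza⟩ := hZ v ⟨fun j => h1 j, fun i hi => by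
        rw [Finset.mem_erase, not_and_or, not_not] at hi
        rcases hi with rfl | hi
        · exact h2 fun j => h1 j
        · have := hv _ (hQX i hi)
          rwa [eval_X] at this⟩
      exact ⟨z, Finset.mem_insert_of_mem hz, a, hza⟩
  -- a point of the curve in the hyperplane
  obtain ⟨w0, hw00, hw0P, hw0i⟩ : ∃ w0 : Fin n → ℂ, w0 ≠ 0 ∧ (∀ f ∈ P, eval w0 f = 0) ∧
      w0 i1 = 0 := by
    by_contra hcon2
    push Not at hcon2
    apply hinf
    refine finite_of_hyper hH one_pos (isHomogeneous_X ℂ i1) fun v hv hvi => ?_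
    by_contra hv0
    rw [eval_X] at hvi
    exact hcon2 v hv0 hv hvi
  have hw0Z : D.Z w0 := fun j => hw0P _ (hJ j)
  have hXi1 : X i1 ∉ P := by
    intro h
    obtain ⟨z, hz, _, h2⟩ := hfinS P hX hinf
    rcases h2 with ⟨j, hj⟩ | ⟨_, h3⟩
    · exact hj (hz _ (hJ j))
    · have := hz _ h
      rw [eval_X] at this
      exact h3 this
  -- the test points
  obtain ⟨sI, hsI⟩ := finite_minimal I
  have hz0 : ∀ Q : Ideal (MvPolynomial (Fin n) ℂ), ∃ z : Fin n → ℂ,
      (Q ∈ sI ∧ ¬ FinZ fun v : Fin n → ℂ => ∀ f ∈ Q, eval v f = 0) →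
      ((∀ f ∈ Q, eval z f = 0) ∧ z ≠ 0 ∧
        ((∃ j, eval z (D.f j) ≠ 0) ∨ (D.Z z ∧ z i1 ≠ 0))) := by
    intro Q
    by_cases hQ : Q ∈ sI ∧ ¬ FinZ fun v : Fin n → ℂ => ∀ f ∈ Q, eval v f = 0
    · obtain ⟨z, hz⟩ := hfinS Q (fun i hi => ((hsI Q).1 hQ.1).1.2 (hIX i hi)) hQ.2
      exact ⟨z, fun _ => hz⟩
    · exact ⟨0, fun h => absurd h hQ⟩
  choose zq hzq using hz0
  obtain ⟨b, p, q, hb, hp, hq, hpq, hqw, hpz⟩ := exists_pq D hJ i1
    (sI.filter fun Q => ¬ FinZ fun v : Fin n → ℂ => ∀ f ∈ Q, eval v f = 0) zq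
    (fun Q hQ => (hzq Q (Finset.mem_filter.1 hQ)).2) hw00 hw0Z
  have hph : p.IsHomogeneous b := isHomogeneous_of_wt hp
  have hcut : FinZ fun v : Fin n → ℂ => (∀ f ∈ I, eval v f = 0) ∧ eval v p = 0 := by
    refine fin_cut hIhom hC0 (b := b) (by omega) hph fun Q hQ hQinf hpQ => ?_
    have h1 : Q ∈ sI.filter fun Q => ¬ FinZ fun v : Fin n → ℂ => ∀ f ∈ Q, eval v f = 0 :=
      Finset.mem_filter.2 ⟨(hsI Q).2 hQ, hQinf⟩
    exact hpz Q h1 ((hzq Q (Finset.mem_filter.1 h1)).1 p hpQ)
  obtain ⟨Z0, hZ0⟩ := hcut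
  obtain ⟨b', q', hb', hb'0, hq', hq'Z⟩ := exists_inv D.α Z0 (D.ρ + t + 2)
  have hq'h : q'.IsHomogeneous b' := isHomogeneous_of_wt hq'
  have htriv : ∀ v : Fin n → ℂ, (∀ f ∈ I, eval v f = 0) → eval v p = 0 → eval v q' = 0 →
      v = 0 := by
    intro v hv hvp hvq
    by_contra hv0
    obtain ⟨z, hz, a, rfl⟩ := hZ0 v ⟨hv, hvp⟩
    have ha : a ≠ 0 := by
      rintro rfl
      exact hv0 (zero_smul _ _)
    have hz0 : z ≠ 0 := by
      rintro rfl
      exact hv0 (smul_zero _)
    have h4 := eval_smul' hq'h a z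
    have h5 : (fun i => a * z i) = a • z := rfl
    rw [h5, hvq] at h4
    exact (mul_ne_zero (pow_ne_zero _ ha) (hq'Z z hz hz0)) h4.symm
  -- the regular sequence
  obtain ⟨h1, h2⟩ := square (fsl ++ [(p, b), (q', b')]) [] (by
    intro x hx
    rcases List.mem_append.1 hx with hx | hx
    · exact hfd x hx
    · simp only [List.mem_cons, List.not_mem_nil, or_false] at hx
      rcases hx with rfl | rfl
      · exact ⟨hph, by simp only; omega⟩
      · exact ⟨hq'h, hb'0⟩) (by
    simp only [List.length_nil, List.length_append, List.length_cons, Fintype.card_fin]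
    omega) (by
    intro v _ hv2
    refine htriv v ?_ (hv2 (p, b) (by simp)) (hv2 (q', b') (by simp))
    rw [hI, ext_zero_bot]
    intro f hf
    rw [← hfst] at hf
    obtain ⟨x, hx, rfl⟩ := List.mem_map.1 hf
    exact hv2 x (List.mem_append_left _ hx))
  simp only [List.map_nil, List.nil_append, List.map_append, List.map_cons, hfst] at h1 h2
  set J : Ideal (MvPolynomial (Fin n) ℂ) := TH144.MB.ext ⊥ (Ws.map Prod.fst ++ [p, q']) with hJd
  have hJe : J = I ⊔ Ideal.span {p} ⊔ Ideal.span {q'} := by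
    rw [hJd, ext_append]
    rfl
  set γ : ℤ × A := ((b : ℤ), 0) with hγ
  set γ' : ℤ × A := ((b' : ℤ), 0) with hγ'
  have h3 := (hf_ext hFD (Ws ++ [(p, γ), (q', γ')]) ⊥ (whom_bot w) (by
      intro x hx
      rcases List.mem_append.1 hx with hx | hx
      · exact hWw x hx
      · simp only [List.mem_cons, List.not_mem_nil, or_false] at hx
        rcases hx with rfl | rfl
        · exact hp
        · exact hq') (by
      simp only [List.map_append, List.map_cons, List.map_nil]
      exact h1)).1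
  simp only [List.map_append, List.map_cons, List.map_nil] at h3
  rw [← hJd] at h3
  set Γ : List (ℤ × A) := Ws.map Prod.snd with hΓ
  set Wl : List (ℤ × A) := (Finset.univ : Finset (Fin n)).toList.map w with hWl
  have hWl1 : ∀ x ∈ Wl, x.1 = 1 := by
    intro x hx
    obtain ⟨i, _, rfl⟩ := List.mem_map.1 hx
    rfl
  have hneg : ∀ (J : Ideal (MvPolynomial (Fin n) ℂ)) (μ : ℤ × A), μ.1 < 0 → hf w J μ = 0 := by
    intro J μ hμ
    refine hf_eq_zero fun p hp => ?_
    rw [eq_zero_of_neg hp hμ]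
    exact J.zero_mem
  obtain ⟨B, hB⟩ : ∃ B : ℕ, ∀ s, B < s → ∀ q : MvPolynomial (Fin n) ℂ, q.IsHomogeneous s → q ∈ J :=
    ⟨_, h2⟩
  have hsym := symm Wl (Γ ++ [γ, γ']) (by
      simp only [hWl, hΓ, List.length_append, List.length_map, Finset.length_toList,
        Finset.card_univ, Fintype.card_fin, List.length_cons, List.length_nil]
      omega) hWl1
    (h0 := hf w ⊥) (δ0 := hf w (TH144.MB.ext ⊥
      ((Finset.univ : Finset (Fin n)).toList.map (X : Fin n → MvPolynomial (Fin n) ℂ))))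
    (rf_symm _ fun μ hμ => hf_X w hμ) (EL_X hFD) h3 (B1 := 0) (B2 := B)
    (fun μ hμ => hneg _ μ hμ) (by
      intro μ hμ
      refine hf_eq_zero fun q hq => ?_
      have h5 : μ = ((μ.1.toNat : ℤ), μ.2) := by
        rw [Int.toNat_of_nonneg (by omega)]
      rw [h5] at hq
      exact hB μ.1.toNat (by omega) q (isHomogeneous_of_wt hq))
  set s0 : ℤ × A := (Γ ++ [γ, γ']).sum - Wl.sum with hs0
  -- the degree of the canonical class
  have hω : s0.1 + 2 = (((gs.map fun x => x.2.1 - 1).sum : ℕ) : ℤ) + b + b' := by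
    have e1 : ∀ (L : List (MvPolynomial (Fin n) ℂ × ℕ × (G →* ℂˣ))), (∀ x ∈ L, 0 < x.2.1) →
        ((L.map fun x => (x.2.1 : ℤ)).sum) =
          (((L.map fun x => x.2.1 - 1).sum : ℕ) : ℤ) + L.length := by
      intro L
      induction L with
      | nil => intro _; simp
      | cons x L ih =>
        intro hL
        have h1 := ih fun y hy => hL y (by simp [hy])
        have h2 := hL x (by simp)
        simp only [List.map_cons, List.sum_cons, List.length_cons]
        rw [h1]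
        push_cast
        rw [Nat.cast_sub (by omega)]
        push_cast
        ring
    have e2 : ∀ L : List (ℤ × A), L.sum.1 = (L.map Prod.fst).sum := by
      intro L
      induction L with
      | nil => rfl
      | cons x L ih =>
        rw [List.sum_cons, List.map_cons, List.sum_cons, ← ih]
        rfl
    have e3 : ∀ L : List (Fin n), ((L.map fun _ => (1 : ℤ)).sum) = L.length := by
      intro L
      simp
    have e4 : s0.1 = (Γ ++ [γ, γ']).sum.1 - Wl.sum.1 := rfl
    rw [e4, e2, e2, hΓ, hWl]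
    simp only [Ws, List.map_append, List.map_map, List.sum_append, List.map_cons, List.map_nil,
      List.sum_cons, List.sum_nil]
    have g1 : List.map (Prod.fst ∘ Prod.snd ∘ fun x : MvPolynomial (Fin n) ℂ × ℕ × (G →* ℂˣ) =>
        (x.1, ((x.2.1 : ℤ), Additive.ofMul x.2.2))) gs = gs.map fun x => (x.2.1 : ℤ) := rfl
    have g2 : List.map (Prod.fst ∘ Prod.snd ∘ fun i : Fin n =>
        ((X i : MvPolynomial (Fin n) ℂ), w i)) Sᶜ.toList = Sᶜ.toList.map fun _ => (1 : ℤ) := rfl
    have g3 : List.map (Prod.fst ∘ w) (Finset.univ : Finset (Fin n)).toList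
        = (Finset.univ : Finset (Fin n)).toList.map fun _ => (1 : ℤ) := rfl
    rw [g1, g2, g3, e1 gs (fun x hx => (hgs x hx).2), e3, e3]
    have g4 : (Finset.univ : Finset (Fin n)).toList.length = n := by simp
    rw [g4]
    have g5 : γ.1 = b := rfl
    have g6 : γ'.1 = b' := rfl
    rw [g5, g6]
    omega
  -- nothing in degree `(t, ψ)`, hence nothing in the dual degree
  set μ0 : ℤ × A := ((t : ℤ), Additive.ofMul ψ) with hμ0
  have hzero : hf w J μ0 = 0 := by
    refine hf_eq_zero fun F hF => ?_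
    rw [F.as_sum]
    refine Ideal.sum_mem _ fun m hm => ?_
    have h4 := hF (MvPolynomial.mem_support_iff.1 hm)
    rw [show Finsupp.weight w m = _ from weight_wt D.α m, hμ0, Prod.mk.injEq, Nat.cast_inj] at h4
    obtain ⟨i, hi, hmi⟩ := hcon m h4.1 (Additive.ofMul.injective h4.2)
    have h5 : (monomial m (coeff m F) : MvPolynomial (Fin n) ℂ)
        = monomial (m - Finsupp.single i 1) (coeff m F) * X i := by
      rw [← pow_one (X i : MvPolynomial (Fin n) ℂ), X_pow_eq_monomial, monomial_mul, mul_one,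
        tsub_add_cancel_of_le]
      rw [Finsupp.single_le_iff]
      omega
    rw [h5]
    refine Ideal.mul_mem_left _ _ ?_
    rw [hJe]
    exact Ideal.mem_sup_left (Ideal.mem_sup_left (hIX i hi))
  have hdual : ∀ F : MvPolynomial (Fin n) ℂ, IsWeightedHomogeneous w F (s0 - μ0) → F ∈ J := by
    intro F hF
    by_contra hFJ
    have h4 := hf_pos hFD hF hFJ
    have h5 := congrFun hsym μ0
    have h6 : Rf s0 (hf w J) μ0 = hf w J (s0 - μ0) := rfl
    rw [h6, hzero] at h5
    rw [h5] at h4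
    exact lt_irrefl _ h4
  -- the monomial at `w0`
  set δ : ℤ × A := γ - w i1 with hδ
  set ν : ℤ × A := s0 - μ0 - δ with hν
  have hδ1 : δ.1 = b - 1 := rfl
  have hν1 : ν.1 = s0.1 - t - (b - 1) := rfl
  obtain ⟨m, hm, hmc, hmw⟩ := D.exists_mono hw00 hw0Z (Additive.toMul ν.2) (t := ν.1.toNat) (by
    rw [hν1]
    have := D.ρ
    omega)
  have hmν : IsWeightedHomogeneous w (monomial m (1 : ℂ)) ν := by
    have h4 := wh_mono (α := D.α) hm hmc
    have h5 : ν = ((ν.1.toNat : ℤ), Additive.ofMul (Additive.toMul ν.2)) := by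
      refine Prod.ext ?_ rfl
      show ν.1 = (ν.1.toNat : ℤ)
      rw [Int.toNat_of_nonneg]
      rw [hν1]
      omega
    rw [h5]
    exact h4
  have hF0 : IsWeightedHomogeneous w (q * monomial m 1) (s0 - μ0) := by
    have h4 := hq.mul hmν
    have h5 := asc δ (s0 - μ0)
    rw [← h5]
    exact h4
  have hF0J := hdual _ hF0
  rw [hJe] at hF0J
  have hIW : WHom w I := by
    have := (hf_ext hFD Ws ⊥ (whom_bot w) hWw hreg).2
    exact this
  obtain ⟨β, hβ, hβ2⟩ := mem_sup_w (whom_sup hIW hp) hq' hF0 hF0J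
  obtain ⟨a', ha'⟩ := mem_sup_iff.1 hβ2
  have hrel : q * (monomial m 1 - X i1 * a') - q' * β ∈ P := by
    have h4 := P.add_mem (hIP ha') (P.mul_mem_right a' hpq)
    convert h4 using 1
    ring
  have hqh : q.IsHomogeneous (b - 1) := by
    have h4 : δ = (((b - 1 : ℕ) : ℤ), δ.2) := by
      refine Prod.ext ?_ rfl
      show (b : ℤ) - 1 = ((b - 1 : ℕ) : ℤ)
      omega
    rw [h4] at hq
    exact isHomogeneous_of_wt hq
  have hqP : q ∉ P := fun h => hqw (hw0P q h)
  have hβP : β ∈ P := by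
    have hβ1 : (s0 - μ0 - γ').1 = s0.1 - t - b' := rfl
    rcases lt_or_ge (s0 - μ0 - γ').1 0 with hneg' | hpos'
    · rw [eq_zero_of_neg hβ hneg']
      exact P.zero_mem
    · have h5 : s0 - μ0 - γ' = (((s0 - μ0 - γ').1.toNat : ℤ), (s0 - μ0 - γ').2) := by
        rw [Int.toNat_of_nonneg hpos']
      have hβh : β.IsHomogeneous (s0 - μ0 - γ').1.toNat := by
        have h6 := hβ
        rw [h5] at h6
        exact isHomogeneous_of_wt h6
      refine bezout hP hH hqh hβh (by omega) hrel ?_ hXi1 hw0P hw0i hqw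
      intro v hv hvq hvq'
      refine htriv v (fun f hf => hv f (hIP hf)) ?_ hvq'
      have h6 := hv _ hpq
      rw [map_sub, map_mul, hvq, mul_zero, _root_.sub_zero] at h6
      exact h6
  have h6 : q * (monomial m 1 - X i1 * a') ∈ P := by
    have h7 := P.add_mem hrel (P.mul_mem_left q' hβP)
    rwa [sub_add_cancel] at h7
  have h7 := (hP.mem_or_mem h6).resolve_left hqP
  have h8 := hw0P _ h7
  rw [map_sub, map_mul, eval_X, hw0i, zero_mul, _root_.sub_zero, eval_mono] at h8
  exact hmw h8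

end Pool.Agent.W5h70.Fuj
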