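import Pool.Agent.W5h70.Fuj.Wt

/-!
# The grading by degree and character
-/

set_option autoImplicit false

namespace Pool.Agent.W5h70.Fuj

open MvPolynomial Module Pool.Agent.TH144.MB

variable {K : Type} [Field K] {G : Type} [Group G] {n : ℕ}

/-- the weights of the variables: degree one and the characters -/
def wt (α : Fin n → G →* Kˣ) (i : Fin n) : ℤ × Additive (G →* Kˣ) := (1, Additive.ofMul (α i))

theorem sum_pair {A : Type} [AddCommGroup A] (c : Fin n → A) (m : Fin n →₀ ℕ) :
    ∑ i, m i • (((1 : ℤ), c i) : ℤ × A) = ((m.degree : ℤ), ∑ i, m i • c i) := by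
  ext1
  · rw [Prod.fst_sum, Finsupp.degree_eq_sum, Nat.cast_sum]
    refine Finset.sum_congr rfl fun i _ => ?_
    simp
  · rw [Prod.snd_sum]
    refine Finset.sum_congr rfl fun i _ => ?_
    simp

theorem weight_wt (α : Fin n → G →* Kˣ) (m : Fin n →₀ ℕ) :
    Finsupp.weight (wt α) m = ((m.degree : ℤ), Additive.ofMul (chr α m)) := by
  have h0 : Finsupp.weight (wt α) m = ∑ i, m i • wt α i := by
    rw [Finsupp.weight_apply]
    exact Finsupp.sum_fintype _ _ (fun i => zero_smul ℕ _)
  rw [h0]
  refine (sum_pair (fun i => Additive.ofMul (α i)) m).trans ?_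
  congr 1

theorem isHomogeneous_of_wt {α : Fin n → G →* Kˣ} {p : MvPolynomial (Fin n) K} {t : ℕ}
    {ψ : Additive (G →* Kˣ)} (hp : IsWeightedHomogeneous (wt α) p ((t : ℤ), ψ)) :
    p.IsHomogeneous t := by
  intro m hm
  have h1 := hp hm
  rw [weight_wt, Prod.mk.injEq, Nat.cast_inj] at h1
  have h2 := h1.1
  rw [Finsupp.degree_eq_weight_one] at h2
  exact h2

theorem eq_zero_of_neg {α : Fin n → G →* Kˣ} {p : MvPolynomial (Fin n) K}
    {μ : ℤ × Additive (G →* Kˣ)} (hp : IsWeightedHomogeneous (wt α) p μ) (hμ : μ.1 < 0) :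
    p = 0 := by
  ext m
  rw [coeff_zero]
  by_contra hm
  have h1 := hp hm
  rw [weight_wt] at h1
  rw [← h1] at hμ
  simp only at hμ
  omega

theorem fd_wt (α : Fin n → G →* Kˣ) : FD K (wt α) := by
  intro μ
  have h2 : weightedHomogeneousSubmodule K (wt α) μ ≤ homogeneousSubmodule (Fin n) K μ.1.toNat := by
    intro p hp
    rcases lt_or_ge μ.1 0 with h | h
    · rw [eq_zero_of_neg hp h]
      exact Submodule.zero_mem _
    · have h3 : μ = ((μ.1.toNat : ℤ), μ.2) := by
        rw [Int.toNat_of_nonneg h]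
      rw [h3] at hp
      exact isHomogeneous_of_wt hp
  have h3 : Module.Finite K (homogeneousSubmodule (Fin n) K μ.1.toNat) :=
    Module.Finite.iff_fg.2 (homogeneousSubmodule_fg (Fin n) K μ.1.toNat)
  exact Submodule.finiteDimensional_of_le h2

theorem coeff_semi [Infinite K] {α : Fin n → G →* Kˣ} {f : MvPolynomial (Fin n) K} {β : G →* Kˣ}
    (hβ : ∀ g v, eval (mv α g v) f = (β g : K) * eval v f) {m : Fin n →₀ ℕ}
    (hm : coeff m f ≠ 0) : chr α m = β := by
  classical
  ext g
  let P : MvPolynomial (Fin n) K :=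
    ∑ m ∈ f.support, monomial m ((chr α m g : K) * coeff m f) - C (β g : K) * f
  have hP : P = 0 := by
    refine MvPolynomial.funext fun v => ?_
    simp only [P, map_sub, map_sum, map_mul, eval_C, map_zero]
    rw [← hβ, eval_eq_mon f (mv α g v), sub_eq_zero]
    refine Finset.sum_congr rfl fun m _ => ?_
    rw [mon_mv, eval_monomial, Finsupp.prod_fintype _ _ (fun i => pow_zero _)]
    unfold mon
    ring
  have h1 : coeff m P = ((chr α m g : K) - β g) * coeff m f := by
    simp only [P]
    rw [coeff_sub, coeff_sum, coeff_C_mul, Finset.sum_eq_single m]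
    · rw [coeff_monomial, if_pos rfl]; ring
    · intro m' _ h
      rw [coeff_monomial, if_neg h]
    · intro h
      exact absurd (MvPolynomial.mem_support_iff.2 hm) h
  rw [hP, coeff_zero] at h1
  rcases mul_eq_zero.1 h1.symm with h | h
  · exact sub_eq_zero.1 h
  · exact absurd h hm

theorem wh_semi [Infinite K] {α : Fin n → G →* Kˣ} {f : MvPolynomial (Fin n) K} {β : G →* Kˣ}
    {d : ℕ} (hd : f.IsHomogeneous d)
    (hβ : ∀ g v, eval (mv α g v) f = (β g : K) * eval v f) :
    IsWeightedHomogeneous (wt α) f ((d : ℤ), Additive.ofMul β) := by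
  intro m hm
  rw [weight_wt, coeff_semi hβ hm]
  have h4 : m.degree = d := by
    by_contra h
    exact hm (hd.coeff_eq_zero h)
  rw [h4]

/-- the zero set of a homogeneous ideal is a cone -/
theorem cone {σ : Type} {I : Ideal (MvPolynomial σ K)} (hI : Hom I) {v : σ → K}
    (hv : ∀ p ∈ I, eval v p = 0) (c : K) : ∀ p ∈ I, eval (c • v) p = 0 := by
  intro p hp
  rw [← sum_homogeneousComponent p, map_sum]
  refine Finset.sum_eq_zero fun k _ => ?_
  have h1 := eval_smul' (homogeneousComponent_isHomogeneous k p) c v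
  rw [hv _ (hI p hp k), mul_zero] at h1
  exact h1

/-- a semi-invariant form which does not vanish at finitely many given points -/
theorem generic [Fintype G] [CharZero K] (S : Sit K G n) {ρ : ℕ} (hρ : TopBound S.I ρ)
    (Z : Finset (Fin n → K)) (hZ : ∀ z ∈ Z, z ≠ 0 ∧ ∀ p ∈ S.I, eval z p = 0)
    (χ : Additive (G →* Kˣ)) {t : ℕ} (ht : ρ ≤ t) :
    ∃ p : MvPolynomial (Fin n) K, IsWeightedHomogeneous (wt S.α) p ((t : ℤ), χ) ∧
      ∀ z ∈ Z, eval z p ≠ 0 := by
  classical
  induction Z using Finset.induction_on with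
  | empty => exact ⟨0, isWeightedHomogeneous_zero _ _ _, by simp⟩
  | insert z Z hz ih =>
    obtain ⟨p, hp, hpZ⟩ := ih fun z' hz' => hZ z' (Finset.mem_insert_of_mem hz')
    obtain ⟨hz0, hzI⟩ := hZ z (Finset.mem_insert_self _ _)
    obtain ⟨m, hm, hmc, hmz⟩ := S.exists_monomial hρ hz0 hzI (Additive.toMul χ) ht
    have hq : IsWeightedHomogeneous (wt S.α) (monomial m (1 : K)) ((t : ℤ), χ) := by
      refine isWeightedHomogeneous_monomial _ _ _ ?_
      rw [weight_wt, hm]
      congr 1
      have : chr S.α m = Additive.toMul χ := MonoidHom.ext fun g => by rw [chr_apply, hmc]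
      rw [this]
      rfl
    have hqz : eval z (monomial m (1 : K)) ≠ 0 := by
      rw [eval_monomial, Finsupp.prod_fintype _ _ (fun i => pow_zero _), one_mul]
      exact hmz
    -- avoid finitely many values
    obtain ⟨c, hc⟩ := Infinite.exists_notMem_finset
      ((insert z Z).image fun z' => - (eval z' p) / eval z' (monomial m (1 : K)))
    refine ⟨p + C c * monomial m 1, hp.add (hq.C_mul c), fun z' hz' h => ?_⟩
    rw [map_add, map_mul, eval_C] at h
    by_cases h0 : eval z' (monomial m (1 : K)) = 0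
    · rw [h0, mul_zero, add_zero] at h
      rcases Finset.mem_insert.1 hz' with rfl | hz''
      · exact hqz h0
      · exact hpZ z' hz'' h
    · refine hc (Finset.mem_image.2 ⟨z', hz', ?_⟩)
      rw [div_eq_iff h0]
      linear_combination -h

/-- a monomial as a list of variables -/
theorem exists_list {M : Type} [AddCommGroup M] (w : Fin n → M) (m : Fin n →₀ ℕ) :
    ∃ L : List (Fin n), (∀ i ∈ L, m i ≠ 0) ∧ L.length = m.degree ∧
      (L.map w).sum = Finsupp.weight w m := by
  induction m using Finsupp.induction_linear with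
  | zero => exact ⟨[], by simp, by simp, by simp⟩
  | add f g hf hg =>
    obtain ⟨L, h1, h2, h3⟩ := hf
    obtain ⟨L', h1', h2', h3'⟩ := hg
    refine ⟨L ++ L', fun i hi => ?_, ?_, ?_⟩
    · rw [Finsupp.add_apply]
      rcases List.mem_append.1 hi with h | h
      · have := h1 i h; omega
      · have := h1' i h; omega
    · rw [List.length_append, h2, h2', map_add]
    · rw [List.map_append, List.sum_append, h3, h3', map_add]
  | single a b =>
    refine ⟨List.replicate b a, fun i hi => ?_, ?_, ?_⟩
    · obtain ⟨h1, h2⟩ := List.mem_replicate.1 hi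
      rw [h2, Finsupp.single_eq_same]
      exact h1
    · rw [List.length_replicate, Finsupp.degree_single]
    · rw [List.map_replicate, List.sum_replicate, Finsupp.weight_single]

end Pool.Agent.W5h70.Fuj
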