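import Pool.Agent.TH144.MB.Diag
import Pool.Agent.W5h70.Fuj.Ab

/-!
# Hilbert functions for gradings by a group
-/

set_option autoImplicit false

namespace Pool.Agent.W5h70.Fuj

open MvPolynomial Module Pool.Agent.TH144.MB

section Gen

variable {σ : Type} {K : Type} [Field K] {M : Type} [AddCommGroup M]

/-- all weighted components of the elements of `I` lie in `I` -/
def WHom (w : σ → M) (I : Ideal (MvPolynomial σ K)) : Prop :=
  ∀ p ∈ I, ∀ μ, weightedHomogeneousComponent w μ p ∈ I

theorem comp_mul_w {w : σ → M} {f : MvPolynomial σ K} {γ : M} (hf : IsWeightedHomogeneous w f γ)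
    (q : MvPolynomial σ K) (ν : M) :
    weightedHomogeneousComponent w (γ + ν) (f * q) = f * weightedHomogeneousComponent w ν q := by
  classical
  rw [q.as_sum, Finset.mul_sum, map_sum, map_sum, Finset.mul_sum]
  refine Finset.sum_congr rfl fun m _ => ?_
  have h1 : IsWeightedHomogeneous w (monomial m (coeff m q)) (Finsupp.weight w m) :=
    isWeightedHomogeneous_monomial w m _ rfl
  have h2 : f * monomial m (coeff m q) ∈ weightedHomogeneousSubmodule K w (γ + Finsupp.weight w m) :=
    hf.mul h1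
  rw [weightedHomogeneousComponent_of_mem h2,
    weightedHomogeneousComponent_of_mem (show _ ∈ weightedHomogeneousSubmodule K w _ from h1)]
  simp only [add_right_inj]
  split_ifs <;> simp

theorem comp_mul_w' {w : σ → M} {f : MvPolynomial σ K} {γ : M} (hf : IsWeightedHomogeneous w f γ)
    (q : MvPolynomial σ K) (ν : M) :
    weightedHomogeneousComponent w ν (f * q) = f * weightedHomogeneousComponent w (ν - γ) q := by
  rw [← comp_mul_w hf]
  congr 1
  abel_nf

theorem wcomp_self {w : σ → M} {p : MvPolynomial σ K} {μ : M} (hp : IsWeightedHomogeneous w p μ) :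
    weightedHomogeneousComponent w μ p = p := by
  classical
  rw [weightedHomogeneousComponent_of_mem (show p ∈ weightedHomogeneousSubmodule K w μ from hp),
    if_pos rfl]

theorem whom_sup {w : σ → M} {I : Ideal (MvPolynomial σ K)} (hI : WHom w I)
    {f : MvPolynomial σ K} {γ : M} (hf : IsWeightedHomogeneous w f γ) :
    WHom w (I ⊔ Ideal.span {f}) := by
  intro p hp μ
  obtain ⟨q, hq⟩ := mem_sup_iff.1 hp
  have h1 := hI _ hq μ
  rw [map_sub, comp_mul_w' hf] at h1
  exact mem_sup_iff.2 ⟨_, h1⟩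

theorem whom_bot (w : σ → M) : WHom w (⊥ : Ideal (MvPolynomial σ K)) := by
  intro p hp μ
  rw [Ideal.mem_bot] at hp ⊢
  rw [hp, map_zero]

/-- homogeneous elements of `I + (f)` -/
theorem mem_sup_w {w : σ → M} {I : Ideal (MvPolynomial σ K)} (hI : WHom w I)
    {f p : MvPolynomial σ K} {γ μ : M} (hf : IsWeightedHomogeneous w f γ)
    (hp : IsWeightedHomogeneous w p μ) (h : p ∈ I ⊔ Ideal.span {f}) :
    ∃ q : MvPolynomial σ K, IsWeightedHomogeneous w q (μ - γ) ∧ p - f * q ∈ I := by
  obtain ⟨q, hq⟩ := mem_sup_iff.1 h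
  refine ⟨weightedHomogeneousComponent w (μ - γ) q,
    weightedHomogeneousComponent_isWeightedHomogeneous _ _, ?_⟩
  have h1 := hI _ hq μ
  rwa [map_sub, comp_mul_w' hf, wcomp_self hp] at h1

/-- the polynomials of weight `μ` modulo `I` -/
noncomputable def WW (w : σ → M) (I : Ideal (MvPolynomial σ K)) (μ : M) :
    Submodule K (MvPolynomial σ K ⧸ I) :=
  (weightedHomogeneousSubmodule K w μ).map (Ideal.Quotient.mkₐ K I).toLinearMap

theorem mem_WW {w : σ → M} {I : Ideal (MvPolynomial σ K)} {μ : M} {x : MvPolynomial σ K ⧸ I} :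
    x ∈ WW w I μ ↔ ∃ p : MvPolynomial σ K, IsWeightedHomogeneous w p μ ∧
      Ideal.Quotient.mk I p = x := Iff.rfl

/-- the Hilbert function -/
noncomputable def hf (w : σ → M) (I : Ideal (MvPolynomial σ K)) (μ : M) : ℤ :=
  (finrank K (WW w I μ) : ℤ)

theorem hf_nonneg (w : σ → M) (I : Ideal (MvPolynomial σ K)) (μ : M) : 0 ≤ hf w I μ :=
  Int.natCast_nonneg _

theorem hf_eq_zero {w : σ → M} {I : Ideal (MvPolynomial σ K)} {μ : M}
    (h : ∀ p : MvPolynomial σ K, IsWeightedHomogeneous w p μ → p ∈ I) : hf w I μ = 0 := by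
  have h1 : WW w I μ = ⊥ := by
    rw [eq_bot_iff]
    intro x hx
    obtain ⟨p, hp, rfl⟩ := mem_WW.1 hx
    rw [Submodule.mem_bot, Ideal.Quotient.eq_zero_iff_mem]
    exact h p hp
  unfold hf
  rw [h1, finrank_bot, Nat.cast_zero]

/-- finite dimensionality -/
def FD (K : Type) [Field K] (w : σ → M) : Prop :=
  ∀ μ, Module.Finite K (weightedHomogeneousSubmodule K w μ)

theorem finite_WW {w : σ → M} (hw : FD K w) (I : Ideal (MvPolynomial σ K)) (μ : M) :
    Module.Finite K (WW w I μ) := by
  have h1 : (weightedHomogeneousSubmodule K w μ).FG := Module.Finite.iff_fg.1 (hw μ)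
  exact Module.Finite.iff_fg.2 (h1.map _)

theorem hf_pos {w : σ → M} (hw : FD K w) {I : Ideal (MvPolynomial σ K)} {μ : M}
    {p : MvPolynomial σ K} (hp : IsWeightedHomogeneous w p μ) (h : p ∉ I) : 0 < hf w I μ := by
  have := finite_WW hw I μ
  have h1 : 0 < finrank K (WW w I μ) := by
    rw [Module.finrank_pos_iff]
    refine ⟨⟨⟨Ideal.Quotient.mk I p, mem_WW.2 ⟨p, hp, rfl⟩⟩, 0, fun h2 => h ?_⟩⟩
    rw [← Ideal.Quotient.eq_zero_iff_mem]
    exact congrArg Subtype.val h2
  unfold hf
  exact_mod_cast h1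

/-- a monomial which is not in the ideal -/
theorem exists_mono_of_pos {w : σ → M} {I : Ideal (MvPolynomial σ K)} {μ : M}
    (h : 0 < hf w I μ) : ∃ m : σ →₀ ℕ, Finsupp.weight w m = μ ∧ (monomial m 1 : MvPolynomial σ K) ∉ I := by
  classical
  by_contra hc
  push Not at hc
  refine h.ne' (hf_eq_zero fun p hp => ?_)
  rw [p.as_sum]
  refine Ideal.sum_mem _ fun m hm => ?_
  have h1 := hc m (hp (MvPolynomial.mem_support_iff.1 hm))
  have h2 : (monomial m (coeff m p) : MvPolynomial σ K) = C (coeff m p) * monomial m 1 := by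
    rw [C_mul_monomial, mul_one]
  rw [h2]
  exact I.mul_mem_left _ h1

theorem hf_sup {w : σ → M} (hw : FD K w) {I : Ideal (MvPolynomial σ K)} (hI : WHom w I)
    {f : MvPolynomial σ K} {γ : M} (hf' : IsWeightedHomogeneous w f γ) (hN : NZ f I) :
    hf w (I ⊔ Ideal.span {f}) = E γ (hf w I) := by
  funext μ
  have hfin := finite_WW hw I
  set T := ((Ideal.Quotient.factorₐ K (le_sup_left : I ≤ I ⊔ Ideal.span {f})).toLinearMap).domRestrict
    (WW w I μ) with hT
  have h1 : LinearMap.range T = WW w (I ⊔ Ideal.span {f}) μ := by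
    rw [hT, LinearMap.range_domRestrict]
    ext x
    constructor
    · rintro ⟨y, hy, rfl⟩
      obtain ⟨p, hp, rfl⟩ := mem_WW.1 hy
      exact mem_WW.2 ⟨p, hp, rfl⟩
    · intro hx
      obtain ⟨p, hp, rfl⟩ := mem_WW.1 hx
      exact ⟨Ideal.Quotient.mk I p, mem_WW.2 ⟨p, hp, rfl⟩, rfl⟩
  have h2 : (LinearMap.ker T).map (WW w I μ).subtype = (WW w I (μ - γ)).map (mu f I) := by
    ext x
    constructor
    · rintro ⟨⟨y, hy⟩, hk, rfl⟩
      obtain ⟨p, hp, rfl⟩ := mem_WW.1 hy
      have h3 : Ideal.Quotient.mk (I ⊔ Ideal.span {f}) p = 0 := LinearMap.mem_ker.1 hk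
      rw [Ideal.Quotient.eq_zero_iff_mem] at h3
      obtain ⟨q, hq, hpq⟩ := mem_sup_w hI hf' hp h3
      refine ⟨Ideal.Quotient.mk I q, mem_WW.2 ⟨q, hq, rfl⟩, ?_⟩
      rw [mu_mk, eq_comm]
      exact Ideal.Quotient.eq.2 hpq
    · rintro ⟨y, hy, rfl⟩
      obtain ⟨q, hq, rfl⟩ := mem_WW.1 hy
      have h3 : IsWeightedHomogeneous w (f * q) μ := by
        have := hf'.mul hq
        rwa [add_sub_cancel] at this
      refine ⟨⟨Ideal.Quotient.mk I (f * q), mem_WW.2 ⟨_, h3, rfl⟩⟩, ?_, ?_⟩
      · have h4 : Ideal.Quotient.mk (I ⊔ Ideal.span {f}) (f * q) = 0 := by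
          rw [Ideal.Quotient.eq_zero_iff_mem]
          exact Ideal.mul_mem_right _ _ (Ideal.mem_sup_right (Ideal.mem_span_singleton_self f))
        exact LinearMap.mem_ker.2 h4
      · rw [mu_mk]
        rfl
  have h3 := LinearMap.finrank_range_add_finrank_ker T
  have h4 : finrank K (LinearMap.ker T) = finrank K (WW w I (μ - γ)) := by
    rw [(Submodule.equivMapOfInjective _ (Submodule.injective_subtype _) (LinearMap.ker T)).finrank_eq,
      h2, ← (Submodule.equivMapOfInjective (mu f I) hN.inj (WW w I (μ - γ))).finrank_eq]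
  rw [h1, h4] at h3
  simp only [hf, E]
  omega

theorem hf_ext {w : σ → M} (hw : FD K w) (gs : List (MvPolynomial σ K × M)) :
    ∀ I : Ideal (MvPolynomial σ K), WHom w I → (∀ x ∈ gs, IsWeightedHomogeneous w x.1 x.2) →
      Reg I (gs.map Prod.fst) →
      hf w (ext I (gs.map Prod.fst)) = EL (gs.map Prod.snd) (hf w I) ∧
        WHom w (ext I (gs.map Prod.fst)) := by
  induction gs with
  | nil => intro I hI _ _; exact ⟨rfl, hI⟩
  | cons x gs ih =>
    intro I hI h hr
    simp only [List.map_cons, TH144.MB.ext, EL]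
    simp only [List.map_cons, Reg] at hr
    have h1 := h x (by simp)
    rw [← hf_sup hw hI h1 hr.1]
    exact ih _ (whom_sup hI h1) (fun y hy => h y (by simp [hy])) hr.2

/-- the point -/
theorem hf_X [Fintype σ] (w : σ → M) {μ : M} (hμ : μ ≠ 0) :
    hf w (ext ⊥ ((Finset.univ : Finset σ).toList.map (X : σ → MvPolynomial σ K))) μ = 0 := by
  classical
  refine hf_eq_zero fun p hp => ?_
  have h0 : ∀ i : σ, (X i : MvPolynomial σ K) ∈
      ext ⊥ ((Finset.univ : Finset σ).toList.map (X : σ → MvPolynomial σ K)) := by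
    have h4 : ∀ (L : List (MvPolynomial σ K)) (I : Ideal (MvPolynomial σ K)),
        ∀ f ∈ L, f ∈ ext I L := by
      intro L
      induction L with
      | nil => intro I f hf; simp at hf
      | cons g L ih =>
        intro I f hf
        rw [ext_cons]
        rcases List.mem_cons.1 hf with rfl | hf
        · exact Ideal.mem_sup_right (Ideal.mem_span_singleton_self f)
        · exact Ideal.mem_sup_left (ih I f hf)
    intro i
    exact h4 _ _ _ (List.mem_map.2 ⟨i, by simp, rfl⟩)
  rw [p.as_sum]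
  refine Ideal.sum_mem _ fun m hm => ?_
  have h4 : ∃ i, m i ≠ 0 := by
    by_contra hc
    push Not at hc
    have h5 : m = 0 := Finsupp.ext hc
    have h6 := hp (MvPolynomial.mem_support_iff.1 hm)
    rw [h5, map_zero] at h6
    exact hμ h6.symm
  obtain ⟨i, hi⟩ := h4
  have h5 : (monomial m (coeff m p) : MvPolynomial σ K)
      = monomial (m - Finsupp.single i 1) (coeff m p) * X i := by
    rw [← pow_one (X i : MvPolynomial σ K), X_pow_eq_monomial, monomial_mul, mul_one,
      tsub_add_cancel_of_le]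
    rw [Finsupp.single_le_iff]
    omega
  rw [h5]
  exact Ideal.mul_mem_left _ _ (h0 i)

theorem EL_X [Fintype σ] {w : σ → M} (hw : FD K w) :
    EL ((Finset.univ : Finset σ).toList.map w) (hf w (⊥ : Ideal (MvPolynomial σ K)))
      = hf w (ext ⊥ ((Finset.univ : Finset σ).toList.map (X : σ → MvPolynomial σ K))) := by
  classical
  have h1 := hf_ext hw ((Finset.univ : Finset σ).toList.map fun i => (X i, w i)) ⊥ (whom_bot w)
    (by
      intro x hx
      obtain ⟨i, _, rfl⟩ := List.mem_map.1 hx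
      exact isWeightedHomogeneous_X K w i) (by
      rw [List.map_map]
      have h2 := reg_X (K := K) (Finset.univ : Finset σ).toList ∅
        (Finset.nodup_toList _) (by simp)
      rw [Set.image_empty, Ideal.span_empty] at h2
      exact h2)
  rw [List.map_map, List.map_map] at h1
  exact h1.1.symm

end Gen

end Pool.Agent.W5h70.Fuj
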